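import Pool.Agent.Q62.GD.Sup

/-!
Truncation of the Fourier series of a smooth periodic function.
-/

set_option autoImplicit false

open MeasureTheory Set Filter Topology
open scoped ContDiff

namespace Pool.Agent.Q62.GD

open H459R3.NS H459R3.EU Pool.Agent.TH340.PS

theorem eq_of_fr {f g : V → ℝ} (hf : SP f) (hg : SP g) (h : fr f = fr g) : f = g := by
  funext x
  have h1 := S_fr hf x
  have h2 := S_fr hg x
  rw [h, h2] at h1
  exact_mod_cast h1.symm

theorem sp_zero : SP (fun _ : V => (0 : ℝ)) := ⟨contDiff_const, fun _ _ => rfl⟩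

theorem sp_neg {f : V → ℝ} (hf : SP f) : SP (fun y => -f y) where
  smooth := hf.smooth.neg
  per := fun j x => by simp only [hf.per j x]

theorem fr_zero (k : K3) : fr (fun _ : V => (0 : ℝ)) k = 0 := by
  simp [fr, fc]

theorem int_fr {f : V → ℝ} (hf : SP f) (k : K3) :
    IntegrableOn (fun x => ee (-k) x * (f x : ℂ)) cube :=
  integrableOn_cube ((ee_continuous _).mul (Complex.continuous_ofReal.comp hf.cont))

theorem fr_sub' {f g : V → ℝ} (hf : SP f) (hg : SP g) (k : K3) :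
    fr (fun x => f x - g x) k = fr f k - fr g k := by
  unfold fr fc
  rw [← integral_sub (int_fr hf k) (int_fr hg k)]
  congr 1
  funext x
  push_cast
  ring

theorem fr_smul' {f : V → ℝ} (c : ℝ) (k : K3) :
    fr (fun x => c * f x) k = (c : ℂ) * fr f k := by
  unfold fr fc
  rw [← integral_const_mul]
  congr 1
  funext x
  push_cast
  ring

theorem conj_fr (f : V → ℝ) (k : K3) : (starRingEnd ℂ) (fr f k) = fr f (-k) := by
  unfold fr fc
  rw [← integral_conj]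
  congr 1
  funext x
  rw [map_mul, Complex.conj_ofReal, ← ee_neg, neg_neg]

/-- the truncation of the Fourier series -/
noncomputable def PL (Λ : Finset K3) (f : V → ℝ) (x : V) : ℝ := ∑ k ∈ Λ, (fr f k * ee k x).re

variable {Λ : Finset K3}

theorem PL_eq (hΛ : ∀ k ∈ Λ, -k ∈ Λ) (f : V → ℝ) (x : V) :
    ((PL Λ f x : ℝ) : ℂ) = ∑ k ∈ Λ, fr f k * ee k x := by
  have h1 : (starRingEnd ℂ) (∑ k ∈ Λ, fr f k * ee k x) = ∑ k ∈ Λ, fr f k * ee k x := by
    rw [map_sum]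
    refine Finset.sum_nbij' (fun k => -k) (fun k => -k) hΛ hΛ (fun k _ => neg_neg k)
      (fun k _ => neg_neg k) fun k _ => ?_
    rw [map_mul, conj_fr, ← ee_neg]
  have h2 := Complex.conj_eq_iff_re.1 h1
  rw [← h2]
  unfold PL
  rw [Complex.re_sum]

theorem PL_smooth (f : V → ℝ) : ContDiff ℝ ∞ (PL Λ f) := by
  unfold PL
  exact ContDiff.sum fun k _ => Complex.reCLM.contDiff.comp (contDiff_const.mul (ee_contDiff k))

theorem sp_PL (f : V → ℝ) : SP (PL Λ f) where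
  smooth := PL_smooth f
  per := fun i x => by
    unfold PL
    exact Finset.sum_congr rfl fun k _ => by rw [ee_per k i x]

theorem fr_PL (hΛ : ∀ k ∈ Λ, -k ∈ Λ) (f : V → ℝ) (m : K3) :
    fr (PL Λ f) m = if m ∈ Λ then fr f m else 0 := by
  unfold fr fc
  have e1 : ∀ x, ee (-m) x * ((PL Λ f x : ℝ) : ℂ)
      = ∑ k ∈ Λ, fr f k * ee (-m + k) x := by
    intro x
    rw [PL_eq hΛ, Finset.mul_sum]
    refine Finset.sum_congr rfl fun k _ => ?_
    rw [ee_add_left]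
    ring
  simp_rw [e1]
  rw [integral_finsetSum _ fun k _ => (integrableOn_cube (ee_continuous _)).const_mul _]
  simp_rw [integral_const_mul, integral_ee]
  have e2 : ∀ k : K3, (-m + k = 0) ↔ (k = m) := fun k => by
    constructor
    · intro h
      have := congrArg (fun z => m + z) h
      simpa using this
    · intro h
      rw [h]; simp
  simp_rw [e2]
  simp only [mul_ite, mul_one, mul_zero, Finset.sum_ite_eq']
  rfl

theorem pd_PL (hΛ : ∀ k ∈ Λ, -k ∈ Λ) {f : V → ℝ} (hf : SP f) (j : Fin 3) :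
    pd j (PL Λ f) = PL Λ (pd j f) := by
  refine eq_of_fr ((sp_PL f).pd j) (sp_PL _) (funext fun k => ?_)
  rw [fr_pd (sp_PL f), D, fr_PL hΛ, fr_PL hΛ, fr_pd hf, D]
  split_ifs <;> simp

theorem PL_sum (Λ : Finset K3) {g : Fin 3 → V → ℝ} (hg : ∀ i, SP (g i)) (x : V) :
    ∑ i, PL Λ (g i) x = PL Λ (fun y => ∑ i, g i y) x := by
  unfold PL
  rw [Finset.sum_comm]
  refine Finset.sum_congr rfl fun k _ => ?_
  rw [fr_sum fun i _ => hg i, Finset.sum_mul, Complex.re_sum]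

theorem div_PL (hΛ : ∀ k ∈ Λ, -k ∈ Λ) {v : Fin 3 → V → ℝ} (hv : ∀ i, SP (v i))
    (hdiv : ∀ x, ∑ i, pd i (v i) x = 0) (x : V) : ∑ i, pd i (PL Λ (v i)) x = 0 := by
  simp_rw [pd_PL hΛ (hv _)]
  rw [PL_sum Λ fun i => (hv i).pd i]
  have e : (fun y => ∑ i, pd i (v i) y) = fun _ => 0 := funext hdiv
  rw [e]
  unfold PL
  refine Finset.sum_eq_zero fun k _ => ?_
  rw [fr_zero]
  simp

/-- functions with complementary frequencies are orthogonal -/
theorem int_mul_zero (hΛ : ∀ k ∈ Λ, -k ∈ Λ) {g h : V → ℝ} (hg : SP g) (hh : SP h)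
    (h1 : ∀ k ∉ Λ, fr g k = 0) (h2 : ∀ k ∈ Λ, fr h k = 0) : ∫ x in cube, g x * h x = 0 := by
  have h3 := integral_ee_S_S 0 (rap_fr hg).summable (rap_fr hh).summable
  have e1 : ∀ l : K3, fr g l * fr h (-0 - l) = 0 := by
    intro l
    by_cases hl : l ∈ Λ
    · rw [h2 (-0 - l) (by simpa using hΛ l hl), mul_zero]
    · rw [h1 l hl, zero_mul]
  simp_rw [e1] at h3
  have h4 := h3.unique hasSum_zero
  have e2 : ∀ x, ee 0 x * (S (fr g) x * S (fr h) x) = ((g x * h x : ℝ) : ℂ) := by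
    intro x
    rw [ee_zero, S_fr hg, S_fr hh]
    push_cast
    ring
  simp_rw [e2] at h4
  rw [integral_complex_ofReal] at h4
  exact_mod_cast h4

/-- the tail -/
theorem tail_le (hΛ : ∀ k ∈ Λ, -k ∈ Λ) {n : ℕ} (hn : ∀ k, N k ≤ n → k ∈ Λ) {f : V → ℝ} (hf : SP f) :
    nrm (fun x => f x - PL Λ f x) * (n : ℝ) ^ 3 ≤ t3 f := by
  have hsp : SP (fun x => f x - PL Λ f x) := SP.sub hf (sp_PL f)
  have hs1 : ∀ j, SP (d3 j j j f) := fun j => sp_d3 hf j j j
  -- coefficientwise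
  have hk : ∀ k, (n : ℝ) ^ 3 * ‖fr (fun x => f x - PL Λ f x) k‖ ≤ ∑ j, ‖fr (d3 j j j f) k‖ := by
    intro k
    rw [fr_sub' hf (sp_PL f), fr_PL hΛ]
    by_cases hkm : k ∈ Λ
    · rw [if_pos hkm, sub_self, norm_zero, mul_zero]
      exact Finset.sum_nonneg fun _ _ => norm_nonneg _
    · rw [if_neg hkm, sub_zero]
      refine le_trans ?_ (N3_le hf k)
      have h1 : n ≤ N k := by
        by_contra hcon
        exact hkm (hn k (by omega))
      have h2 : (n : ℝ) ≤ N k := by exact_mod_cast h1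
      gcongr
  -- Minkowski
  have key : ∀ F : Finset K3, Real.sqrt (∑ k ∈ F, (∑ j, ‖fr (d3 j j j f) k‖) ^ 2) ≤ t3 f := by
    intro F
    have hj : ∀ j, Real.sqrt (∑ k ∈ F, ‖fr (d3 j j j f) k‖ ^ 2) ≤ nrm (d3 j j j f) := by
      intro j
      refine Real.sqrt_le_iff.2 ⟨nrm_nonneg _, ?_⟩
      rw [nrm_sq, ← n2_fr (hs1 j), n2_sq]
      exact (summable_sq (rap_fr (hs1 j)).summable).sum_le_tsum F fun _ _ => sq_nonneg _
    have e : ∀ j, Real.sqrt (∑ k ∈ F, ‖fr (d3 j j j f) k‖ ^ 2)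
        = ‖(WithLp.toLp 2 fun k : F => ‖fr (d3 j j j f) k‖ : EuclideanSpace ℝ F)‖ := by
      intro j
      rw [EuclideanSpace.norm_eq]
      congr 1
      rw [← Finset.sum_coe_sort F]
      refine Finset.sum_congr rfl fun k _ => ?_
      simp
    have e2 : Real.sqrt (∑ k ∈ F, (∑ j, ‖fr (d3 j j j f) k‖) ^ 2)
        = ‖∑ j, (WithLp.toLp 2 fun k : F => ‖fr (d3 j j j f) k‖ : EuclideanSpace ℝ F)‖ := by
      rw [EuclideanSpace.norm_eq]
      congr 1
      rw [← Finset.sum_coe_sort F]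
      refine Finset.sum_congr rfl fun k _ => ?_
      rw [WithLp.ofLp_sum, Finset.sum_apply, Real.norm_eq_abs, sq_abs]
    rw [e2]
    refine (norm_sum_le _ _).trans ?_
    unfold t3
    exact Finset.sum_le_sum fun j _ => (e j) ▸ hj j
  have h5 : (nrm (fun x => f x - PL Λ f x) * (n : ℝ) ^ 3) ^ 2 ≤ t3 f ^ 2 := by
    rw [mul_pow, nrm_sq, ← n2_fr hsp, n2_sq, mul_comm, ← tsum_mul_left]
    refine (((summable_sq (rap_fr hsp).summable).mul_left _)).tsum_le_of_sum_le fun F => ?_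
    have h6 : ∑ k ∈ F, ((n : ℝ) ^ 3) ^ 2 * ‖fr (fun x => f x - PL Λ f x) k‖ ^ 2
        ≤ ∑ k ∈ F, (∑ j, ‖fr (d3 j j j f) k‖) ^ 2 := by
      refine Finset.sum_le_sum fun k _ => ?_
      rw [← mul_pow]
      exact pow_le_pow_left₀ (by positivity) (hk k) 2
    refine h6.trans ?_
    have h7 := key F
    have h8 : 0 ≤ ∑ k ∈ F, (∑ j, ‖fr (d3 j j j f) k‖) ^ 2 := Finset.sum_nonneg fun _ _ => sq_nonneg _
    rw [← Real.sq_sqrt h8]
    exact pow_le_pow_left₀ (Real.sqrt_nonneg _) h7 2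
  exact abs_le_of_sq_le_sq' h5 (t3_nonneg f) |>.2

/-- the truncation does not increase the norms -/
theorem nrm_PL_le (hΛ : ∀ k ∈ Λ, -k ∈ Λ) {f : V → ℝ} (hf : SP f) : nrm (PL Λ f) ≤ nrm f := by
  have h : nrm (PL Λ f) ^ 2 ≤ nrm f ^ 2 := by
    rw [nrm_sq, nrm_sq, ← n2_fr (sp_PL f), ← n2_fr hf, n2_sq, n2_sq]
    refine (summable_sq (rap_fr (sp_PL f)).summable).tsum_le_tsum (fun k => ?_)
      (summable_sq (rap_fr hf).summable)
    rw [fr_PL hΛ]
    split_ifs with hk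
    · exact le_rfl
    · simp
  exact abs_le_of_sq_le_sq' h (nrm_nonneg _) |>.2

theorem d3_PL (hΛ : ∀ k ∈ Λ, -k ∈ Λ) {f : V → ℝ} (hf : SP f) (i j k : Fin 3) :
    d3 i j k (PL Λ f) = PL Λ (d3 i j k f) := by
  unfold d3
  rw [pd_PL hΛ hf, pd_PL hΛ (hf.pd k), pd_PL hΛ ((hf.pd k).pd j)]

end Pool.Agent.Q62.GD
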