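import Pool.Agent.Q62.GD.Defs
import Pool.Agent.Q62.GD.Proj

/-!
Estimates for Galerkin approximations.
-/

set_option autoImplicit false

open MeasureTheory Set Filter Topology
open scoped ContDiff

namespace Pool.Agent.Q62.GD

open H459R3.NS H459R3.EU Pool.Agent.TH340.PS

/-! ### Time derivatives of the norms of a smooth family of fields -/

section kin

variable {T : ℝ} {f : ℝ → V → V}

theorem dt_pair {f : ℝ → V → ℝ}
    (hf : ContDiffOn ℝ ∞ (fun z : ℝ × V => f z.1 z.2) (Ico 0 T ×ˢ univ)) {t : ℝ}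
    (ht : t ∈ Ioo 0 T) {h : V → ℝ} (hh : SP h) :
    HasDerivAt (fun s => ∫ x in cube, f s x * h x) (∫ x in cube, H459R3.NS.dt f t x * h x) t := by
  have hF : ContDiffOn ℝ 1 (fun z : ℝ × V => f z.1 z.2 * h z.2) (Ioo 0 T ×ˢ univ) :=
    (mono_Ioo hf (by norm_cast)).mul
      ((hh.smooth.of_le (by norm_cast)).comp_contDiffOn contDiffOn_snd)
  refine (hasDerivAt_int (F := fun s x => f s x * h x) hF ht).congr_deriv ?_
  congr 1
  funext x
  have h2 : HasDerivAt (fun s => f s x) (H459R3.NS.dt f t x) t := by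
    have := hasDerivAt_slice (F := f) (mono_Ioo hf (by norm_cast)) ht x
    rwa [← H459R3.NS.dt_eq hf ht x] at this
  exact (h2.mul_const (h x)).deriv

theorem en_hasDerivAt (hf : ∀ i, ContDiffOn ℝ ∞ (fun z : ℝ × V => f z.1 z.2 i) (Ico 0 T ×ˢ univ))
    {t : ℝ} (ht : t ∈ Ioo 0 T) :
    HasDerivAt (fun s => energy (f s))
      (2 * ∑ i, ∫ x in cube, H459R3.NS.dt (fun s y => f s y i) t x * f t x i) t := by
  have h1 : ∀ i, HasDerivAt (fun s => ∫ x in cube, f s x i ^ 2)
      (2 * ∫ x in cube, H459R3.NS.dt (fun s y => f s y i) t x * f t x i) t := by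
    intro i
    have hF : ContDiffOn ℝ 1 (fun z : ℝ × V => f z.1 z.2 i ^ 2) (Ioo 0 T ×ˢ univ) :=
      (mono_Ioo (f := fun s y => f s y i) (hf i) (by norm_cast)).pow 2
    have key := hasDerivAt_int (F := fun s x => f s x i ^ 2) hF ht
    refine key.congr_deriv ?_
    rw [← integral_const_mul]
    congr 1
    funext x
    have h2 : HasDerivAt (fun s => f s x i) (H459R3.NS.dt (fun s y => f s y i) t x) t := by
      have := hasDerivAt_slice (F := fun s y => f s y i)
        (mono_Ioo (f := fun s y => f s y i) (hf i) (by norm_cast)) ht x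
      rwa [← H459R3.NS.dt_eq (f := fun s y => f s y i) (hf i) ht x] at this
    have h3 : HasDerivAt (fun s => f s x i ^ 2) _ t := h2.pow 2
    rw [h3.deriv]
    push_cast
    ring
  have h2 : HasDerivAt (fun s => energy (f s))
      (∑ i, 2 * ∫ x in cube, H459R3.NS.dt (fun s y => f s y i) t x * f t x i) t :=
    HasDerivAt.fun_sum fun i _ => h1 i
  rwa [← Finset.mul_sum] at h2

theorem en_cont (hf : ∀ i, ContDiffOn ℝ ∞ (fun z : ℝ × V => f z.1 z.2 i) (Ico 0 T ×ˢ univ)) :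
    ContinuousOn (fun s => energy (f s)) (Ico 0 T) := by
  unfold energy
  refine continuousOn_finsetSum _ fun i _ => ?_
  exact continuousOn_int (F := fun s x => f s x i ^ 2) ((hf i).continuousOn.pow 2)

theorem dsq_hasDeriv (hf : ∀ i, ContDiffOn ℝ ∞ (fun z : ℝ × V => f z.1 z.2 i) (Ico 0 T ×ˢ univ))
    {t : ℝ} (ht : t ∈ Ioo 0 T) :
    HasDerivAt (fun s => dsq (f s))
      (2 * Q3 (fun i => H459R3.NS.dt (fun s y => f s y i) t) (fun i y => f t y i)) t := by
  set v : Fin 3 → V → ℝ := fun i y => f t y i with hv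
  set w : Fin 3 → V → ℝ := fun i => H459R3.NS.dt (fun s y => f s y i) t with hw
  have h1 : ∀ l i j k, HasDerivAt (fun s => ∫ x in cube, d3 i j k (fun y => f s y l) x ^ 2)
      (2 * ∫ x in cube, d3 i j k (w l) x * d3 i j k (v l) x) t := by
    intro l i j k
    have hG : ContDiffOn ℝ ∞ (fun z : ℝ × V => d3 i j k (fun y => f z.1 y l) z.2)
        (Ico 0 T ×ˢ univ) := contDiffOn_d3 (f := fun s y => f s y l) (hf l) i j k
    have hG1 : ContDiffOn ℝ 1 (fun z : ℝ × V => d3 i j k (fun y => f z.1 y l) z.2)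
        (Ioo 0 T ×ˢ univ) :=
      mono_Ioo (f := fun s x => d3 i j k (fun y => f s y l) x) hG (by norm_cast)
    have hF : ContDiffOn ℝ 1 (fun z : ℝ × V => d3 i j k (fun y => f z.1 y l) z.2 ^ 2)
        (Ioo 0 T ×ˢ univ) := hG1.pow 2
    have key := hasDerivAt_int (F := fun s x => d3 i j k (fun y => f s y l) x ^ 2) hF ht
    refine key.congr_deriv ?_
    rw [← integral_const_mul]
    congr 1
    funext x
    have h2 : HasDerivAt (fun s => d3 i j k (fun y => f s y l) x) (d3 i j k (w l) x) t := by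
      have h3 := hasDerivAt_slice (F := fun s x => d3 i j k (fun y => f s y l) x) hG1 ht x
      have h4 := dt_d3 (f := fun s y => f s y l) (hf l) ht i j k x
      rw [H459R3.NS.dt_eq (f := fun s => d3 i j k (fun y => f s y l)) hG ht x] at h4
      rwa [h4] at h3
    have h3 : HasDerivAt (fun s => d3 i j k (fun y => f s y l) x ^ 2) _ t := h2.pow 2
    rw [h3.deriv]
    simp only [hv]
    push_cast
    ring
  have h2 : HasDerivAt (fun s => dsq (f s))
      (∑ l, ∑ i, ∑ j, ∑ k, 2 * ∫ x in cube, d3 i j k (w l) x * d3 i j k (v l) x) t :=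
    HasDerivAt.fun_sum fun l _ => HasDerivAt.fun_sum fun i _ => HasDerivAt.fun_sum fun j _ =>
      HasDerivAt.fun_sum fun k _ => h1 l i j k
  refine h2.congr_deriv ?_
  unfold Q3
  simp_rw [Finset.mul_sum]

theorem dsq_cont (hf : ∀ i, ContDiffOn ℝ ∞ (fun z : ℝ × V => f z.1 z.2 i) (Ico 0 T ×ˢ univ)) :
    ContinuousOn (fun s => dsq (f s)) (Ico 0 T) := by
  unfold dsq
  refine continuousOn_finsetSum _ fun l _ => continuousOn_finsetSum _ fun i _ =>
    continuousOn_finsetSum _ fun j _ => continuousOn_finsetSum _ fun k _ => ?_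
  exact continuousOn_int (F := fun s x => d3 i j k (fun y => f s y l) x ^ 2)
    ((contDiffOn_d3 (f := fun s y => f s y l) (hf l) i j k).continuousOn.pow 2)

end kin

/-! ### The test function for the third derivatives -/

/-- `-∑ ∂ₖ∂ⱼ∂ᵢ∂ᵢ∂ⱼ∂ₖ f` -/
noncomputable def d6 (f : V → ℝ) (x : V) : ℝ :=
  ∑ i, ∑ j, ∑ k, -d3 k j i (d3 i j k f) x

theorem sp_d6 {f : V → ℝ} (hf : SP f) : SP (d6 f) :=
  SP.sum fun i _ => SP.sum fun j _ => SP.sum fun k _ => sp_neg (sp_d3 (sp_d3 hf i j k) k j i)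

theorem ibp3 {f g : V → ℝ} (hf : SP f) (hg : SP g) (i j k : Fin 3) :
    ∫ x in cube, d3 i j k f x * g x = -∫ x in cube, f x * d3 k j i g x := by
  unfold d3
  rw [ibp ((hf.pd k).pd j) hg i, ibp (hf.pd k) (hg.pd i) j, ibp hf ((hg.pd i).pd j) k]
  ring

theorem Q3_test {w v : Fin 3 → V → ℝ} (hw : ∀ i, SP (w i)) (hv : ∀ i, SP (v i)) :
    Q3 w v = ∑ l, ∫ x in cube, w l x * d6 (v l) x := by
  unfold Q3
  refine Finset.sum_congr rfl fun l _ => ?_
  have e1 : ∀ i j k, ∫ x in cube, d3 i j k (w l) x * d3 i j k (v l) x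
      = ∫ x in cube, w l x * -d3 k j i (d3 i j k (v l)) x := by
    intro i j k
    rw [ibp3 (hw l) (sp_d3 (hv l) i j k) i j k, ← integral_neg]
    congr 1
    funext x
    ring
  simp_rw [e1]
  unfold d6
  have hs : ∀ i j k, SP (fun x => -d3 k j i (d3 i j k (v l)) x) := fun i j k =>
    sp_neg (sp_d3 (sp_d3 (hv l) i j k) k j i)
  simp_rw [Finset.mul_sum]
  rw [integral_finsetSum _ fun i _ => ((SP.sum fun j _ => SP.sum fun k _ =>
    (hw l).mul (hs i j k)) : SP _).int]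
  refine Finset.sum_congr rfl fun i _ => ?_
  rw [integral_finsetSum _ fun j _ => ((SP.sum fun k _ => (hw l).mul (hs i j k)) : SP _).int]
  refine Finset.sum_congr rfl fun j _ => ?_
  rw [integral_finsetSum _ fun k _ => ((hw l).mul (hs i j k)).int]

variable {Λ : Finset K3}

theorem spec_pd {f : V → ℝ} (hf : SP f) (h : ∀ k ∉ Λ, fr f k = 0) (j : Fin 3) :
    ∀ k ∉ Λ, fr (pd j f) k = 0 := by
  intro k hk
  rw [fr_pd hf, D, h k hk, mul_zero]

theorem spec_d3 {f : V → ℝ} (hf : SP f) (h : ∀ k ∉ Λ, fr f k = 0) (i j k : Fin 3) :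
    ∀ m ∉ Λ, fr (d3 i j k f) m = 0 :=
  spec_pd ((hf.pd k).pd j) (spec_pd (hf.pd k) (spec_pd hf h k) j) i

theorem fr_neg' (f : V → ℝ) (k : K3) : fr (fun x => -f x) k = -fr f k := by
  have := fr_smul' (f := f) (-1) k
  simpa using this

theorem spec_d6 {f : V → ℝ} (hf : SP f) (h : ∀ k ∉ Λ, fr f k = 0) :
    ∀ m ∉ Λ, fr (d6 f) m = 0 := by
  intro m hm
  have hs : ∀ i j k, SP (fun x => -d3 k j i (d3 i j k f) x) := fun i j k =>
    sp_neg (sp_d3 (sp_d3 hf i j k) k j i)
  unfold d6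
  rw [fr_sum fun i _ => SP.sum fun j _ => SP.sum fun k _ => hs i j k]
  refine Finset.sum_eq_zero fun i _ => ?_
  rw [fr_sum fun j _ => SP.sum fun k _ => hs i j k]
  refine Finset.sum_eq_zero fun j _ => ?_
  rw [fr_sum fun k _ => hs i j k]
  refine Finset.sum_eq_zero fun k _ => ?_
  rw [fr_neg', spec_d3 (sp_d3 hf i j k) (spec_d3 hf h i j k) k j i m hm, neg_zero]

theorem div_d6 {v : Fin 3 → V → ℝ} (hv : ∀ i, SP (v i)) (hdiv : ∀ x, ∑ i, pd i (v i) x = 0)
    (x : V) : ∑ l, pd l (d6 (v l)) x = 0 := by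
  have hs : ∀ l i j k, SP (fun x => -d3 k j i (d3 i j k (v l)) x) := fun l i j k =>
    sp_neg (sp_d3 (sp_d3 (hv l) i j k) k j i)
  have e1 : ∀ l, pd l (d6 (v l)) x = ∑ i, ∑ j, ∑ k, -pd l (d3 k j i (d3 i j k (v l))) x := by
    intro l
    unfold d6
    rw [pd_sum (fun i _ => SP.sum fun j _ => SP.sum fun k _ => hs l i j k) l x]
    refine Finset.sum_congr rfl fun i _ => ?_
    rw [pd_sum (fun j _ => SP.sum fun k _ => hs l i j k) l x]
    refine Finset.sum_congr rfl fun j _ => ?_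
    rw [pd_sum (fun k _ => hs l i j k) l x]
    refine Finset.sum_congr rfl fun k _ => ?_
    unfold pd
    rw [fderiv_fun_neg]
    rfl
  simp_rw [e1]
  rw [Finset.sum_comm]
  refine Finset.sum_eq_zero fun i _ => ?_
  rw [Finset.sum_comm]
  refine Finset.sum_eq_zero fun j _ => ?_
  rw [Finset.sum_comm]
  refine Finset.sum_eq_zero fun k _ => ?_
  rw [Finset.sum_neg_distrib, neg_eq_zero]
  exact div_d3 (v := fun l => d3 i j k (v l)) (fun l => sp_d3 (hv l) i j k)
    (div_d3 hv hdiv i j k) k j i x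

/-! ### Galerkin solutions -/

theorem InE.sp {v : V → V} (h : InE Λ v) (i : Fin 3) : SP (fun y => v y i) :=
  spv_sp h.spv i

/-- building an element of the Galerkin space from its components -/
theorem InE.mk' {v : Fin 3 → V → ℝ} (hv : ∀ i, SP (v i)) (hdiv : ∀ x, ∑ i, pd i (v i) x = 0)
    (hs : ∀ i, ∀ k ∉ Λ, fr (v i) k = 0) : InE Λ (fun y i => v i y) where
  spv := ⟨contDiff_pi.2 fun i => (hv i).smooth, fun j x => funext fun i => (hv i).per j x⟩
  div := hdiv
  spec := hs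

namespace IsGalerkin

variable {ν T : ℝ} {u0 : V → V} {v : ℝ → V → V}

theorem smooth_c (h : IsGalerkin Λ ν T u0 v) (i : Fin 3) :
    ContDiffOn ℝ ∞ (fun z : ℝ × V => v z.1 z.2 i) (Ico 0 T ×ˢ univ) :=
  (contDiffOn_pi.1 h.smooth) i

/-- the residual -/
noncomputable def res (ν : ℝ) (v : ℝ → V → V) (t : ℝ) (i : Fin 3) (x : V) : ℝ :=
  H459R3.NS.dt (fun s y => v s y i) t x + cv (fun i y => v t y i) (fun i y => v t y i) i x
    - ν * lap (fun y => v t y i) x

/-- the time derivative is periodic -/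
theorem sp_dt (h : IsGalerkin Λ ν T u0 v) {t : ℝ} (ht : t ∈ Ioo 0 T) (i : Fin 3) :
    SP (H459R3.NS.dt (fun s y => v s y i) t) where
  smooth := contDiff_dt (f := fun s y => v s y i) (h.smooth_c i) ht
  per := fun j x => by
    unfold H459R3.NS.dt
    have e : (fun s => v s (x + Pi.single j 1) i) =ᶠ[𝓝 t] fun s => v s x i := by
      filter_upwards [Ioo_mem_nhds ht.1 ht.2] with s hs
      rw [(h.mem s ⟨hs.1.le, hs.2⟩).spv.2 j x]
    exact e.deriv_eq

theorem sp_res (h : IsGalerkin Λ ν T u0 v) {t : ℝ} (ht : t ∈ Ioo 0 T) (i : Fin 3) :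
    SP (res ν v t i) := by
  have hI : t ∈ Ico 0 T := ⟨ht.1.le, ht.2⟩
  have hsp := (h.mem t hI).sp
  exact SP.sub ((h.sp_dt ht i).add (sp_cv hsp hsp i)) (sp_smul (hsp i).lap ν)

theorem eqn' (h : IsGalerkin Λ ν T u0 v) {t : ℝ} (ht : t ∈ Ioo 0 T) {φ : Fin 3 → V → ℝ}
    (hφ : ∀ i, SP (φ i)) (hdiv : ∀ x, ∑ i, pd i (φ i) x = 0)
    (hs : ∀ i, ∀ k ∉ Λ, fr (φ i) k = 0) : ∑ i, ∫ x in cube, res ν v t i x * φ i x = 0 :=
  h.eqn t ht _ (InE.mk' hφ hdiv hs)

/-- energy -/
theorem en_le (h : IsGalerkin Λ ν T u0 v) (hν : 0 ≤ ν) {t : ℝ} (ht : t ∈ Ico 0 T) :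
    energy (v t) ≤ energy (v 0) := by
  have hc := en_cont h.smooth_c
  have hanti : AntitoneOn (fun s => energy (v s)) (Icc 0 t) := by
    refine antitoneOn_of_hasDerivWithinAt_nonpos (convex_Icc 0 t)
      (f' := fun s => 2 * ∑ i, ∫ x in cube, H459R3.NS.dt (fun s y => v s y i) s x * v s x i)
      (hc.mono (Icc_subset_Ico_right ht.2)) ?_ ?_
    · intro s hs
      rw [interior_Icc] at hs
      exact (en_hasDerivAt h.smooth_c ⟨hs.1, hs.2.trans ht.2⟩).hasDerivWithinAt
    · intro s hs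
      rw [interior_Icc] at hs
      have hs' : s ∈ Ioo 0 T := ⟨hs.1, hs.2.trans ht.2⟩
      have hI : s ∈ Ico 0 T := ⟨hs.1.le, hs'.2⟩
      have hsp := (h.mem s hI).sp
      have hdiv := (h.mem s hI).div
      have h1 := h.eqn' hs' hsp hdiv (h.mem s hI).spec
      have e1 : ∀ i, ∫ x in cube, res ν v s i x * v s x i
          = (∫ x in cube, H459R3.NS.dt (fun s y => v s y i) s x * v s x i)
            + (∫ x in cube, v s x i * H459R3.NS.conv (fun i y => v s y i) i x)
            - ν * ∫ x in cube, lap (fun y => v s y i) x * v s x i := by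
        intro i
        have i1 := ((h.sp_dt hs' i).mul (hsp i)).int
        have i2 := ((hsp i).mul (sp_conv hsp i)).int
        have i3 := (((hsp i).lap.mul (hsp i)).int).const_mul ν
        have i12 : IntegrableOn (fun x => H459R3.NS.dt (fun s y => v s y i) s x * v s x i
            + v s x i * H459R3.NS.conv (fun i y => v s y i) i x) cube := i1.add i2
        rw [← integral_const_mul, ← integral_add i1 i2, ← integral_sub i12 i3]
        congr 1
        funext x
        unfold res cv H459R3.NS.conv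
        ring
      simp_rw [e1] at h1
      rw [Finset.sum_sub_distrib, Finset.sum_add_distrib, int_conv hsp hdiv, ← Finset.mul_sum] at h1
      have e2 : ∑ i, ∫ x in cube, lap (fun y => v s y i) x * v s x i ≤ 0 := by
        refine Finset.sum_nonpos fun i _ => ?_
        rw [int_lap_mul (hsp i) (hsp i)]
        have : 0 ≤ ∑ j, ∫ x in cube, pd j (fun y => v s y i) x * pd j (fun y => v s y i) x :=
          Finset.sum_nonneg fun j _ => integral_nonneg fun x => mul_self_nonneg _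
        linarith
      have e3 := mul_nonpos_of_nonneg_of_nonpos hν e2
      linarith
  exact hanti ⟨le_rfl, ht.1⟩ ⟨ht.1, le_rfl⟩ ht.1

/-- growth of the third derivatives -/
theorem dsq_rate (h : IsGalerkin Λ ν T u0 v) (hν : 0 ≤ ν) {t : ℝ} (ht : t ∈ Ioo 0 T) {s : ℝ}
    (hs : StrainLE (v t) s) :
    2 * Q3 (fun i => H459R3.NS.dt (fun s y => v s y i) t) (fun i y => v t y i) ≤ 41310 * s * dsq (v t) := by
  have hI : t ∈ Ico 0 T := ⟨ht.1.le, ht.2⟩
  have hsp := (h.mem t hI).sp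
  have hdiv := (h.mem t hI).div
  set b : Fin 3 → V → ℝ := fun i y => v t y i with hb
  have h1 := h.eqn' ht (φ := fun i => d6 (b i)) (fun i => sp_d6 (hsp i)) (div_d6 hsp hdiv)
    fun i => spec_d6 (hsp i) ((h.mem t hI).spec i)
  rw [← Q3_test (h.sp_res ht) hsp] at h1
  have e1 : (fun i => res ν v t i) = fun l x => (H459R3.NS.dt (fun s y => v s y l) t x + cv b b l x)
      + (-ν) * lap (b l) x := by
    funext l x
    unfold res
    ring
  have e1' : Q3 (fun i => res ν v t i) b = 0 := h1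
  rw [e1, Q3_add_left (fun l => (h.sp_dt ht l).add (sp_cv hsp hsp l))
    (fun l => sp_smul (hsp l).lap (-ν)) hsp, Q3_add_left (fun l => h.sp_dt ht l)
    (fun l => sp_cv hsp hsp l) hsp,
    Q3_smul_left (F := fun l => lap (b l)) (fun l => (hsp l).lap), Q3_lap hsp] at e1'
  have hBS : BS b s (Real.sqrt (dsq (v t))) :=
    ⟨hsp, fun i j x => hs x i j, fun l i j k => nrm_le_third (v t) l i j k⟩
  have k3 := Q3_le hBS hdiv
  have k4 := (abs_le.1 k3).1
  rw [Real.sq_sqrt (dsq_nonneg _)] at k4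
  have k5 := mul_nonneg hν (fourth_nonneg b)
  have e2 : Q3 (fun l x => H459R3.NS.dt (fun s y => v s y l) t x) b
      = Q3 (fun i => H459R3.NS.dt (fun s y => v s y i) t) b := rfl
  rw [e2] at e1'
  have e3 : Q3 (fun l => cv b b l) b = Q3 (cv b b) b := rfl
  nlinarith

theorem dsq_le (h : IsGalerkin Λ ν T u0 v) (hν : 0 ≤ ν) {t : ℝ} (ht : t ∈ Ico 0 T) {β : ℝ → ℝ}
    {B : ℝ} (hβ : ∀ s ∈ Ioo 0 t, StrainLE (v s) (β s)) (hi : IntegrableOn β (Icc 0 t))
    (hB : ∫ s in (0 : ℝ)..t, β s ≤ B) : dsq (v t) ≤ dsq (v 0) * Real.exp (41310 * B) := by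
  refine gron (D := fun s => 2 * Q3 (fun i => H459R3.NS.dt (fun s y => v s y i) s) (fun i y => v s y i))
    (g := fun s => 41310 * β s) ht.1 (fun s => dsq_nonneg _)
    ((dsq_cont h.smooth_c).mono (Icc_subset_Ico_right ht.2))
    (fun s hs => dsq_hasDeriv h.smooth_c ⟨hs.1, hs.2.trans ht.2⟩) (fun s hs => ?_)
    (hi.const_mul _) ?_ fun s hs => h.dsq_rate hν ⟨hs.1, hs.2.trans ht.2⟩ (hβ s hs)
  · have := (abs_nonneg _).trans (hβ s hs 0 0 0)
    positivity
  · rw [intervalIntegral.integral_const_mul]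
    linarith

/-- the initial value -/
theorem init_eq (h : IsGalerkin Λ ν T u0 v) (hT : 0 < T) (hΛ : ∀ k ∈ Λ, -k ∈ Λ) (i : Fin 3) :
    (fun y => v 0 y i) = PL Λ (fun y => u0 y i) := by
  have h0 : (0 : ℝ) ∈ Ico 0 T := ⟨le_rfl, hT⟩
  refine eq_of_fr ((h.mem 0 h0).sp i) (sp_PL _) (funext fun k => ?_)
  rw [fr_PL hΛ]
  split_ifs with hk
  · exact h.init i k hk
  · exact (h.mem 0 h0).spec i k hk

end IsGalerkin

end Pool.Agent.Q62.GD
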