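import Pool.Agent.Q62.GD.Est

/-!
The bootstrap argument.
-/

set_option autoImplicit false

open MeasureTheory Set Filter Topology
open scoped ContDiff

namespace Pool.Agent.Q62.GD

open H459R3.NS H459R3.EU Pool.Agent.TH340.PS

theorem dsq_rate_u {ν T : ℝ} (hν : 0 ≤ ν) {u : ℝ → V → V} {p : ℝ → V → ℝ} (h : IsSol ν T u p)
    {t : ℝ} (ht : t ∈ Ioo 0 T) {s : ℝ} (hs : StrainLE (u t) s) :
    -(2 * ν * fourth (fun i y => u t y i)) - 2 * Q3 (cv (fun i y => u t y i)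
        (fun i y => u t y i)) (fun i y => u t y i) ≤ 41310 * s * dsq (u t) := by
  have hI : t ∈ Ico 0 T := ⟨ht.1.le, ht.2⟩
  have hBS : BS (fun i y => u t y i) s (Real.sqrt (dsq (u t))) :=
    ⟨fun i => h.sp hI i, fun i j x => hs x i j, fun l i j k => nrm_le_third (u t) l i j k⟩
  have k3 := Q3_le hBS (h.divfree t hI)
  have k4 := (abs_le.1 k3).1
  rw [Real.sq_sqrt (dsq_nonneg _)] at k4
  have f0 : 0 ≤ 2 * ν * fourth (fun i y => u t y i) :=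
    mul_nonneg (by positivity) (fourth_nonneg _)
  linarith

theorem energy_le_u {ν T : ℝ} (hν : 0 ≤ ν) {u : ℝ → V → V} {p : ℝ → V → ℝ} (h : IsSol ν T u p)
    {t : ℝ} (ht : t ∈ Ico 0 T) : energy (u t) ≤ energy (u 0) := by
  have hanti : AntitoneOn (fun s => energy (u s)) (Icc 0 t) := by
    refine antitoneOn_of_hasDerivWithinAt_nonpos (convex_Icc 0 t)
      (f' := fun s => -(2 * ν * enstrophy (u s)))
      (h.energy_continuousOn.mono (Icc_subset_Ico_right ht.2)) ?_ ?_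
    · intro s hs
      rw [interior_Icc] at hs
      exact (h.energy_hasDerivAt ⟨hs.1, hs.2.trans ht.2⟩).hasDerivWithinAt
    · intro s _
      have := mul_nonneg (mul_nonneg zero_le_two hν) (enstrophy_nonneg (u s))
      linarith
  exact hanti ⟨le_rfl, ht.1⟩ ⟨ht.1, le_rfl⟩ ht.1

/-- the gradients of two fields are close -/
def Close (u v : V → V) : Prop := ∀ x i j, |pd j (fun y => u y i - v y i) x| < 1

theorem int_mono {γ : ℝ → ℝ} (hγ0 : ∀ t, 0 ≤ γ t) {T : ℝ} (hγi : IntegrableOn γ (Icc 0 T)) {t : ℝ}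
    (h0 : 0 ≤ t) (hT : t ≤ T) : ∫ s in (0 : ℝ)..t, γ s ≤ ∫ s in (0 : ℝ)..T, γ s := by
  refine intervalIntegral.integral_mono_interval le_rfl h0 hT ?_ ?_
  · exact Eventually.of_forall fun s => hγ0 s
  · exact (intervalIntegrable_iff_integrableOn_Icc_of_le (h0.trans hT)).2 hγi

theorem claim {ν T : ℝ} (hν : 0 ≤ ν) {u : ℝ → V → V} {p : ℝ → V → ℝ} (h : IsSol ν T u p)
    {n : ℕ} (hn : 1 ≤ n) {Λ : Finset K3} (hΛ : Big n Λ) {v : ℝ → V → V}
    (hv : IsGalerkin Λ ν T (u 0) v) {γ : ℝ → ℝ} (hγ0 : ∀ t, 0 ≤ γ t)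
    (hγi : IntegrableOn γ (Icc 0 T))
    (hcl : ∀ t ∈ Ioo 0 T, Close (u t) (v t) → StrainLE (u t) (γ t) ∧ StrainLE (v t) (γ t))
    {L M R : ℝ} (hL : Real.exp (41310 * ∫ s in (0 : ℝ)..T, γ s) ≤ L) (hM : 0 ≤ M)
    (hM1 : energy (u 0) ≤ M ^ 2) (hM2 : dsq (u 0) * L ≤ M ^ 2) (hR : 1 ≤ R)
    (hclose : 7 * Real.sqrt C7 * (R ^ 3 * Real.sqrt ((27 * M ^ 2 / n ^ 6
      + 6048 * (1 + Real.sqrt C7) ^ 2 * M ^ 3 / n ^ 3 * T) * L)
      + R ^ (-(1 / 4) : ℝ) * (6 * M)) < 1)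
    {τ : ℝ} (hτ : τ ∈ Ico 0 T) (hτc : ∀ t ∈ Ioo 0 τ, Close (u t) (v t)) :
    Close (u τ) (v τ) ∧ dsq (u τ) ≤ M ^ 2 := by
  have hT : 0 < T := hτ.1.trans_lt hτ.2
  have h00 : (0 : ℝ) ∈ Ico 0 T := ⟨le_rfl, hT⟩
  have hinit := hv.init_eq hT hΛ.1
  obtain ⟨hi1, hi2⟩ := init_bd (fun i => h.sp h00 i) hΛ.1 hinit
  have hLM : ∀ v0, 0 ≤ v0 → v0 ≤ dsq (u 0) → ∀ t, 0 ≤ t → t ≤ T →
      v0 * Real.exp (41310 * ∫ s in (0 : ℝ)..t, γ s) ≤ M ^ 2 := by
    intro v0 h0 h1 t ht0 htT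
    have h2 : Real.exp (41310 * ∫ s in (0 : ℝ)..t, γ s) ≤ L := by
      refine le_trans (Real.exp_le_exp.2 ?_) hL
      have := int_mono hγ0 hγi ht0 htT
      linarith
    exact (mul_le_mul h1 h2 (Real.exp_pos _).le (h0.trans h1)).trans hM2
  -- the bounds
  have hBu : ∀ t, 0 ≤ t → t ≤ τ → BdM (u t) M := by
    intro t ht0 htτ
    have htT : t < T := htτ.trans_lt hτ.2
    have hI : t ∈ Ico 0 T := ⟨ht0, htT⟩
    refine ⟨fun i => h.sp hI i, hM, (energy_le_u hν h hI).trans hM1, ?_⟩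
    refine le_trans ?_ (hLM (dsq (u 0)) (dsq_nonneg _) le_rfl t ht0 htT.le)
    refine gron (D := fun s => -(2 * ν * fourth (fun i y => u s y i)) - 2 * Q3 (cv (fun i y => u s y i)
        (fun i y => u s y i)) (fun i y => u s y i)) (g := fun s => 41310 * γ s) ht0
      (fun s => dsq_nonneg _) ((dsq_continuousOn h).mono (Icc_subset_Ico_right htT))
      (fun s hs => dsq_hasDerivAt h ⟨hs.1, hs.2.trans htT⟩)
      (fun s _ => mul_nonneg (by norm_num) (hγ0 s))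
      ((hγi.mono_set (Icc_subset_Icc_right htT.le)).const_mul _) ?_ fun s hs => ?_
    · rw [intervalIntegral.integral_const_mul]
    · have hs' : s ∈ Ioo 0 T := ⟨hs.1, hs.2.trans htT⟩
      exact dsq_rate_u hν h hs' (hcl s hs' (hτc s ⟨hs.1, hs.2.trans_le htτ⟩)).1
  have hBv : ∀ t, 0 ≤ t → t ≤ τ → BdM (v t) M := by
    intro t ht0 htτ
    have htT : t < T := htτ.trans_lt hτ.2
    have hI : t ∈ Ico 0 T := ⟨ht0, htT⟩
    refine ⟨fun i => (hv.mem t hI).sp i, hM, ((hv.en_le hν hI).trans hi1).trans hM1, ?_⟩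
    refine le_trans ?_ (hLM (dsq (v 0)) (dsq_nonneg _) hi2 t ht0 htT.le)
    refine hv.dsq_le hν hI (β := γ) (fun s hs => ?_)
      (hγi.mono_set (Icc_subset_Icc_right htT.le)) le_rfl
    have hs' : s ∈ Ioo 0 T := ⟨hs.1, hs.2.trans htT⟩
    exact (hcl s hs' (hτc s ⟨hs.1, hs.2.trans_le htτ⟩)).2
  -- the difference
  set r : ℝ := 6048 * (1 + Real.sqrt C7) ^ 2 * M ^ 3 / n ^ 3 with hr
  have hr0 : 0 ≤ r := by positivity
  have hws : ∀ i, ContDiffOn ℝ ∞ (fun z : ℝ × V => (fun s y => u s y - v s y) z.1 z.2 i)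
      (Ico 0 T ×ˢ univ) := fun i => (h.smooth_c i).sub (hv.smooth_c i)
  have hy : energy (fun x => u τ x - v τ x)
      ≤ (27 * M ^ 2 / n ^ 6 + r * T) * L := by
    have k1 := gron_src (y := fun s => energy (fun x => u s x - v s x))
      (D := fun s => 2 * ∑ i, ∫ x in cube, H459R3.NS.dt (fun s y => u s y i - v s y i) s x
        * (u s x i - v s x i)) (g := fun s => 6 * γ s) (B := 41310 * ∫ s in (0 : ℝ)..T, γ s)
      hτ.1 hr0 (fun s => energy_nonneg _)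
      ((en_cont (f := fun s y => u s y - v s y) hws).mono (Icc_subset_Ico_right hτ.2))
      (fun s hs => en_hasDerivAt (f := fun s y => u s y - v s y) hws ⟨hs.1, hs.2.trans hτ.2⟩)
      (fun s _ => mul_nonneg (by norm_num) (hγ0 s))
      ((hγi.mono_set (Icc_subset_Icc_right hτ.2.le)).const_mul _) ?_ fun s hs => ?_
    · have k2 := init_le (hBu 0 le_rfl hτ.1) hn hΛ hinit
      refine k1.trans ?_
      have k3 : r * τ ≤ r * T := mul_le_mul_of_nonneg_left hτ.2.le hr0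
      have k4 : 0 ≤ energy (fun x => u 0 x - v 0 x) + r * τ :=
        add_nonneg (energy_nonneg _) (mul_nonneg hr0 hτ.1)
      refine mul_le_mul (add_le_add k2 k3) hL (Real.exp_pos _).le ?_
      exact k4.trans (add_le_add k2 k3)
    · rw [intervalIntegral.integral_const_mul]
      have q1 := int_mono hγ0 hγi hτ.1 hτ.2.le
      have q2 : 0 ≤ ∫ s in (0 : ℝ)..τ, γ s :=
        intervalIntegral.integral_nonneg hτ.1 fun s _ => hγ0 s
      linarith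
    · have hs' : s ∈ Ioo 0 T := ⟨hs.1, hs.2.trans hτ.2⟩
      have q1 := diff_rate hν h hΛ.1 hv hs' (hcl s hs' (hτc s hs)).2
      have q2 := src_le (hBu s hs.1.le hs.2.le) (hBv s hs.1.le hs.2.le) hn hΛ
      exact q1.trans (add_le_add le_rfl q2)
  have hbu := hBu τ hτ.1 le_rfl
  refine ⟨fun x i j => ?_, hbu.2.2.2⟩
  exact (grad_le hbu (hBv τ hτ.1 le_rfl) hy hR x i j).trans_lt hclose

theorem boot {ν T : ℝ} (hν : 0 ≤ ν) {u : ℝ → V → V} {p : ℝ → V → ℝ} (h : IsSol ν T u p)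
    {n : ℕ} (hn : 1 ≤ n) {Λ : Finset K3} (hΛ : Big n Λ) {v : ℝ → V → V}
    (hv : IsGalerkin Λ ν T (u 0) v) {γ : ℝ → ℝ} (hγ0 : ∀ t, 0 ≤ γ t)
    (hγi : IntegrableOn γ (Icc 0 T))
    (hcl : ∀ t ∈ Ioo 0 T, Close (u t) (v t) → StrainLE (u t) (γ t) ∧ StrainLE (v t) (γ t))
    {L M R : ℝ} (hL : Real.exp (41310 * ∫ s in (0 : ℝ)..T, γ s) ≤ L) (hM : 0 ≤ M)
    (hM1 : energy (u 0) ≤ M ^ 2) (hM2 : dsq (u 0) * L ≤ M ^ 2) (hR : 1 ≤ R)
    (hclose : 7 * Real.sqrt C7 * (R ^ 3 * Real.sqrt ((27 * M ^ 2 / n ^ 6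
      + 6048 * (1 + Real.sqrt C7) ^ 2 * M ^ 3 / n ^ 3 * T) * L)
      + R ^ (-(1 / 4) : ℝ) * (6 * M)) < 1) :
    ∀ t ∈ Ico 0 T, Close (u t) (v t) ∧ dsq (u t) ≤ M ^ 2 := by
  have key : ∀ {τ : ℝ}, τ ∈ Ico 0 T → (∀ t ∈ Ioo 0 τ, Close (u t) (v t)) →
      Close (u τ) (v τ) ∧ dsq (u τ) ≤ M ^ 2 := fun hτ hc =>
    claim hν h hn hΛ hv hγ0 hγi hcl hL hM hM1 hM2 hR hclose hτ hc
  have all : ∀ t ∈ Ico 0 T, Close (u t) (v t) := by
    intro t1 ht1
    by_contra hcon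
    set F : Fin 3 → Fin 3 → ℝ × V → ℝ := fun i j z => pd j (fun y => u z.1 y i - v z.1 y i) z.2
      with hF
    have hFc : ∀ i j, ContinuousOn (F i j) (Ico 0 T ×ˢ univ) := by
      intro i j
      exact (contDiffOn_pd (f := fun s y => u s y i - v s y i)
        ((h.smooth_c i).sub (hv.smooth_c i)) j).continuousOn
    have hK : IsCompact (Icc 0 t1 ×ˢ cube : Set (ℝ × V)) := isCompact_Icc.prod isCompact_Icc
    have hKs : (Icc 0 t1 ×ˢ cube : Set (ℝ × V)) ⊆ Ico 0 T ×ˢ univ :=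
      prod_mono (Icc_subset_Ico_right ht1.2) (subset_univ _)
    have hZ : ∀ i j, IsCompact (Prod.fst '' ((Icc 0 t1 ×ˢ cube : Set (ℝ × V)) ∩
        {z | 1 ≤ |F i j z|})) := by
      intro i j
      refine IsCompact.image ?_ continuous_fst
      have h1 : ContinuousOn (fun z => |F i j z|) (Icc 0 t1 ×ˢ cube : Set (ℝ × V)) :=
        ((hFc i j).mono hKs).abs
      have h2 := h1.preimage_isClosed_of_isClosed hK.isClosed (isClosed_Ici (a := (1 : ℝ)))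
      exact hK.of_isClosed_subset h2 inter_subset_left
    set Z : Set ℝ := ⋃ i, ⋃ j, Prod.fst '' ((Icc 0 t1 ×ˢ cube : Set (ℝ × V)) ∩
        {z | 1 ≤ |F i j z|}) with hZd
    have hZc : IsCompact Z := isCompact_iUnion fun i => isCompact_iUnion fun j => hZ i j
    have hmem : ∀ t ∈ Icc 0 t1, ¬Close (u t) (v t) → t ∈ Z := by
      intro t ht hnc
      unfold Close at hnc
      push Not at hnc
      obtain ⟨x, i, j, hx⟩ := hnc
      have htI : t ∈ Ico 0 T := ⟨ht.1, ht.2.trans_lt ht1.2⟩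
      have hsp : SP (fun y => u t y i - v t y i) := SP.sub (h.sp htI i) ((hv.mem t htI).sp i)
      obtain ⟨y, hy, hyx⟩ := Per.exists_cube (hsp.pd j).per x
      refine mem_iUnion.2 ⟨i, mem_iUnion.2 ⟨j, ⟨(t, y), ⟨⟨ht, hy⟩, ?_⟩, rfl⟩⟩⟩
      show 1 ≤ |pd j (fun y => u t y i - v t y i) y|
      rw [hyx]
      exact hx
    obtain ⟨τ, hτZ, hτm⟩ := hZc.exists_isLeast ⟨t1, hmem t1 ⟨ht1.1, le_rfl⟩ hcon⟩
    obtain ⟨i, hi⟩ := mem_iUnion.1 hτZ
    obtain ⟨j, hj⟩ := mem_iUnion.1 hi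
    obtain ⟨z, ⟨hz1, hz2⟩, hz3⟩ := hj
    have hτ1 : τ ∈ Icc 0 t1 := hz3 ▸ hz1.1
    have hτT : τ ∈ Ico 0 T := ⟨hτ1.1, hτ1.2.trans_lt ht1.2⟩
    have hc := (key hτT fun t ht => by
      by_contra hnc
      have := hτm (hmem t ⟨ht.1.le, ht.2.le.trans hτ1.2⟩ hnc)
      exact absurd ht.2 (not_lt.2 this)).1
    have := hc z.2 i j
    have h3 : 1 ≤ |F i j z| := hz2
    simp only [hF, hz3] at h3
    exact absurd this (not_lt.2 h3)
  exact fun t ht => key ht fun s hs => all s ⟨hs.1.le, hs.2.trans ht.2⟩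

end Pool.Agent.Q62.GD
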