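import Pool.Agent.H459R3.NS.Defs

/-!
Definitions: Galerkin approximations of the Euler and Navier-Stokes equations.
-/

set_option autoImplicit false

open MeasureTheory Set
open scoped ContDiff

namespace Pool.Agent.Q62.GD

open H459R3.NS

/-- `v` is a smooth periodic divergence-free vector field, all frequencies of which belong to the
finite set `Λ`. -/
structure InE (Λ : Finset K3) (v : V → V) : Prop where
  spv : SPV v
  div : ∀ x, ∑ i, pd i (fun y => v y i) x = 0
  spec : ∀ i, ∀ k ∉ Λ, fr (fun y => v y i) k = 0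

/-- `v` is the solution on `[0, T)`, with the initial velocity `u0`, of the Fourier-Galerkin
approximation with the set `Λ` of frequencies of the Euler equations (`ν = 0`) or of the
Navier-Stokes equations (`ν > 0`): the fields `v t` are in the space of the divergence-free
trigonometric polynomials with frequencies in `Λ`, and
`∂ₜ v + (v · ∇) v - ν Δ v` is orthogonal to this space; the Fourier coefficients of `v 0` with
frequency in `Λ` are those of `u0`. -/
structure IsGalerkin (Λ : Finset K3) (ν T : ℝ) (u0 : V → V) (v : ℝ → V → V) : Prop where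
  smooth : ContDiffOn ℝ ∞ (fun z : ℝ × V => v z.1 z.2) (Ico 0 T ×ˢ univ)
  mem : ∀ t ∈ Ico 0 T, InE Λ (v t)
  eqn : ∀ t ∈ Ioo 0 T, ∀ φ, InE Λ φ → ∑ i, ∫ x in cube,
    (deriv (fun s => v s x i) t + (∑ j, v t x j * pd j (fun y => v t y i) x)
      - ν * lap (fun y => v t y i) x) * φ x i = 0
  init : ∀ i, ∀ k ∈ Λ, fr (fun y => v 0 y i) k = fr (fun y => u0 y i) k

/-- `Λ` is symmetric and contains all frequencies `k` with `|k j| ≤ n`. -/
def Big (n : ℕ) (Λ : Finset K3) : Prop := (∀ k ∈ Λ, -k ∈ Λ) ∧ ∀ k : K3, (∀ j, |k j| ≤ n) → k ∈ Λ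

/-- All components of the strain (the symmetric part of the gradient) of `v` are at most `s`. -/
def StrainLE (v : V → V) (s : ℝ) : Prop :=
  ∀ x i j, |(pd i (fun y => v y j) x + pd j (fun y => v y i) x) / 2| ≤ s

end Pool.Agent.Q62.GD
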