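import Pool.Agent.Q62.GD.Gal

/-!
The difference between a solution and its Galerkin approximation.
-/

set_option autoImplicit false

open MeasureTheory Set Filter Topology
open scoped ContDiff

namespace Pool.Agent.Q62.GD

open H459R3.NS H459R3.EU Pool.Agent.TH340.PS

theorem cv_self_zero {a : Fin 3 → V → ℝ} (ha : ∀ i, SP (a i)) (hdiv : ∀ x, ∑ i, pd i (a i) x = 0)
    {w : Fin 3 → V → ℝ} (hw : ∀ i, SP (w i)) (i : Fin 3) :
    ∫ x in cube, cv a w i x * w i x = 0 := by
  have h := transport_mul ha hdiv (hw i) (hw i)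
  unfold cv
  linarith

theorem strain_form {w b : Fin 3 → V → ℝ} (hw : ∀ i, SP (w i)) (hb : ∀ i, SP (b i)) {s : ℝ}
    (hs : ∀ i j x, |str b i j x| ≤ s) :
    |∑ i, ∫ x in cube, cv w b i x * w i x| ≤ 3 * s * ∑ i, ∫ x in cube, w i x ^ 2 := by
  have hs0 : 0 ≤ s := (abs_nonneg _).trans (hs 0 0 0)
  have hF : ∀ i, SP (fun x => cv w b i x * w i x) := fun i => (sp_cv hw hb i).mul (hw i)
  have hw2 : ∀ i, IntegrableOn (fun x => w i x ^ 2) cube := fun i =>
    integrableOn_cube ((hw i).cont.pow 2)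
  rw [← integral_finsetSum _ fun i _ => (hF i).int, ← integral_finsetSum _ fun i _ => hw2 i,
    ← integral_const_mul]
  rw [← Real.norm_eq_abs]
  refine norm_integral_le_of_norm_le ?_ ?_
  · exact integrableOn_cube (continuous_const.mul (continuous_finset_sum _ fun i _ =>
      (hw i).cont.pow 2))
  · refine Eventually.of_forall fun x => ?_
    have e1 : ∑ i, cv w b i x * w i x = ∑ i, ∑ j, w i x * w j x * str b i j x := by
      unfold cv str
      simp only [Fin.sum_univ_three]
      ring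
    rw [e1, Real.norm_eq_abs]
    refine (Finset.abs_sum_le_sum_abs _ _).trans ?_
    have e2 : ∀ i ∈ (Finset.univ : Finset (Fin 3)), |∑ j, w i x * w j x * str b i j x|
        ≤ ∑ j, |w i x| * |w j x| * s := by
      intro i _
      refine (Finset.abs_sum_le_sum_abs _ _).trans (Finset.sum_le_sum fun j _ => ?_)
      rw [abs_mul, abs_mul]
      exact mul_le_mul_of_nonneg_left (hs i j x) (by positivity)
    refine (Finset.sum_le_sum e2).trans ?_
    simp only [Fin.sum_univ_three]
    have h0 := sq_abs (w 0 x)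
    have h1 := sq_abs (w 1 x)
    have h2 := sq_abs (w 2 x)
    rw [← h0, ← h1, ← h2]
    nlinarith [mul_nonneg hs0 (sq_nonneg (|w 0 x| - |w 1 x|)),
      mul_nonneg hs0 (sq_nonneg (|w 0 x| - |w 2 x|)), mul_nonneg hs0 (sq_nonneg (|w 1 x| - |w 2 x|))]

theorem int_split {ν : ℝ} {F f1 f2 f3 f4 f5 f6 f7 f8 : V → ℝ} (h1 : SP f1) (h2 : SP f2)
    (h3 : SP f3) (h4 : SP f4) (h5 : SP f5) (h6 : SP f6) (h7 : SP f7) (h8 : SP f8)
    (hF : ∀ x, F x = ν * f1 x - f2 x - f3 x - f4 x - f5 x - f6 x + ν * f7 x - f8 x) :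
    ∫ x in cube, F x = ν * (∫ x in cube, f1 x) - (∫ x in cube, f2 x) - (∫ x in cube, f3 x)
      - (∫ x in cube, f4 x) - (∫ x in cube, f5 x) - (∫ x in cube, f6 x)
      + ν * (∫ x in cube, f7 x) - ∫ x in cube, f8 x := by
  simp_rw [hF]
  have c1 := h1.cont
  have c2 := h2.cont
  have c3 := h3.cont
  have c4 := h4.cont
  have c5 := h5.cont
  have c6 := h6.cont
  have c7 := h7.cont
  have c8 := h8.cont
  have i1 : IntegrableOn (fun x => ν * f1 x) cube := integrableOn_cube (by fun_prop)
  have i2 : IntegrableOn (fun x => ν * f1 x - f2 x) cube := integrableOn_cube (by fun_prop)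
  have i3 : IntegrableOn (fun x => ν * f1 x - f2 x - f3 x) cube := integrableOn_cube (by fun_prop)
  have i4 : IntegrableOn (fun x => ν * f1 x - f2 x - f3 x - f4 x) cube :=
    integrableOn_cube (by fun_prop)
  have i5 : IntegrableOn (fun x => ν * f1 x - f2 x - f3 x - f4 x - f5 x) cube :=
    integrableOn_cube (by fun_prop)
  have i6 : IntegrableOn (fun x => ν * f1 x - f2 x - f3 x - f4 x - f5 x - f6 x) cube :=
    integrableOn_cube (by fun_prop)
  have i7 : IntegrableOn (fun x => ν * f7 x) cube := integrableOn_cube (by fun_prop)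
  have i8 : IntegrableOn (fun x => ν * f1 x - f2 x - f3 x - f4 x - f5 x - f6 x + ν * f7 x) cube :=
    integrableOn_cube (by fun_prop)
  rw [integral_sub i8 h8.int, integral_add i6 i7, integral_sub i5 h6.int, integral_sub i4 h5.int,
    integral_sub i3 h4.int, integral_sub i2 h3.int, integral_sub i1 h2.int, integral_const_mul,
    integral_const_mul]

theorem diff_rate {ν T : ℝ} (hν : 0 ≤ ν) {u : ℝ → V → V} {p : ℝ → V → ℝ} (h : IsSol ν T u p)
    {Λ : Finset K3} (hΛ : ∀ k ∈ Λ, -k ∈ Λ) {u0 : V → V} {v : ℝ → V → V}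
    (hv : IsGalerkin Λ ν T u0 v) {t : ℝ} (ht : t ∈ Ioo 0 T) {s : ℝ} (hs : StrainLE (v t) s) :
    2 * ∑ i, ∫ x in cube, H459R3.NS.dt (fun s y => u s y i - v s y i) t x * (u t x i - v t x i) ≤
      6 * s * energy (fun x => u t x - v t x)
        + 2 * |∑ i, ∫ x in cube, cv (fun i y => v t y i) (fun i y => v t y i) i x
          * (u t x i - PL Λ (fun y => u t y i) x)| := by
  have hI : t ∈ Ico 0 T := ⟨ht.1.le, ht.2⟩
  set a : Fin 3 → V → ℝ := fun i y => u t y i with ha
  set b : Fin 3 → V → ℝ := fun i y => v t y i with hb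
  have hsa : ∀ i, SP (a i) := fun i => h.sp hI i
  have hsb : ∀ i, SP (b i) := fun i => (hv.mem t hI).sp i
  have hda : ∀ x, ∑ i, pd i (a i) x = 0 := h.divfree t hI
  have hdb : ∀ x, ∑ i, pd i (b i) x = 0 := (hv.mem t hI).div
  set w : Fin 3 → V → ℝ := fun i y => a i y - b i y with hw
  have hsw : ∀ i, SP (w i) := fun i => SP.sub (hsa i) (hsb i)
  have hdw : ∀ x, ∑ i, pd i (w i) x = 0 := by
    intro x
    have e : ∀ i, pd i (w i) x = pd i (a i) x - pd i (b i) x := fun i =>
      congrFun (H459R3.EU.pd_sub (hsa i) (hsb i) i) x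
    simp_rw [e]
    rw [Finset.sum_sub_distrib, hda, hdb, sub_zero]
  set g : Fin 3 → V → ℝ := fun i y => a i y - PL Λ (a i) y with hg
  have hsg : ∀ i, SP (g i) := fun i => SP.sub (hsa i) (sp_PL _)
  set φ : Fin 3 → V → ℝ := fun i y => PL Λ (a i) y - b i y with hφ
  have hsφ : ∀ i, SP (φ i) := fun i => SP.sub (sp_PL _) (hsb i)
  have hdφ : ∀ x, ∑ i, pd i (φ i) x = 0 := by
    intro x
    have e : ∀ i, pd i (φ i) x = pd i (PL Λ (a i)) x - pd i (b i) x := fun i =>
      congrFun (H459R3.EU.pd_sub (sp_PL (a i)) (hsb i) i) x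
    simp_rw [e]
    rw [Finset.sum_sub_distrib, div_PL hΛ hsa hda, hdb, sub_zero]
  have hfb : ∀ i, ∀ k ∉ Λ, fr (b i) k = 0 := (hv.mem t hI).spec
  have hfφ : ∀ i, ∀ k ∉ Λ, fr (φ i) k = 0 := by
    intro i k hk
    rw [fr_sub' (sp_PL _) (hsb i), fr_PL hΛ, if_neg hk, hfb i k hk, sub_zero]
  have hfg : ∀ i, ∀ k ∈ Λ, fr (g i) k = 0 := by
    intro i k hk
    rw [fr_sub' (hsa i) (sp_PL _), fr_PL hΛ, if_pos hk, sub_self]
  set A : Fin 3 → V → ℝ := fun i => H459R3.NS.dt (fun s y => u s y i) t with hA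
  set B : Fin 3 → V → ℝ := fun i => H459R3.NS.dt (fun s y => v s y i) t with hB
  have hsA : ∀ i, SP (A i) := fun i => h.sp_dt ht i
  have hsB : ∀ i, SP (B i) := fun i => hv.sp_dt ht i
  have e1 : ∀ i x, H459R3.NS.dt (fun s y => u s y i - v s y i) t x = A i x - B i x := by
    intro i x
    have d1 : DifferentiableAt ℝ (fun s => u s x i) t :=
      (hasDerivAt_slice (F := fun s y => u s y i)
        (mono_Ioo (f := fun s y => u s y i) (h.smooth_c i) (by norm_cast)) ht x).differentiableAt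
    have d2 : DifferentiableAt ℝ (fun s => v s x i) t :=
      (hasDerivAt_slice (F := fun s y => v s y i)
        (mono_Ioo (f := fun s y => v s y i) (hv.smooth_c i) (by norm_cast)) ht x).differentiableAt
    exact deriv_fun_sub d1 d2
  have e2 : ∀ i, ∫ x in cube, B i x * g i x = 0 := by
    intro i
    have k1 := dt_pair (f := fun s y => v s y i) (hv.smooth_c i) ht (hsg i)
    have k2 : (fun s => ∫ x in cube, v s x i * g i x) =ᶠ[𝓝 t] fun _ => (0 : ℝ) := by
      filter_upwards [Ioo_mem_nhds ht.1 ht.2] with s hs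
      have hs' : s ∈ Ico 0 T := ⟨hs.1.le, hs.2⟩
      exact int_mul_zero hΛ ((hv.mem s hs').sp i) (hsg i) ((hv.mem s hs').spec i) (hfg i)
    have k3 := k2.deriv_eq
    rw [k1.deriv, deriv_const] at k3
    exact k3
  have e3 : ∀ i, ∫ x in cube, lap (b i) x * g i x = 0 := by
    intro i
    refine int_mul_zero hΛ (hsb i).lap (hsg i) (fun k hk => ?_) (hfg i)
    unfold lap
    rw [fr_sum fun j _ => ((hsb i).pd j).pd j]
    exact Finset.sum_eq_zero fun j _ => spec_pd ((hsb i).pd j) (spec_pd (hsb i) (hfb i) j) j k hk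
  have e4 : ∑ i, ∫ x in cube, IsGalerkin.res ν v t i x * φ i x = 0 := hv.eqn' ht hsφ hdφ hfφ
  have e5 : ∀ i, ∫ x in cube, H459R3.NS.dt (fun s y => u s y i - v s y i) t x * (u t x i - v t x i)
      = ν * (∫ x in cube, lap (w i) x * w i x) - (∫ x in cube, cv a w i x * w i x)
        - (∫ x in cube, cv w b i x * w i x) - (∫ x in cube, w i x * pd i (p t) x)
        - (∫ x in cube, IsGalerkin.res ν v t i x * φ i x)
        - (∫ x in cube, cv b b i x * g i x)
        + ν * (∫ x in cube, lap (b i) x * g i x) - ∫ x in cube, B i x * g i x := by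
    intro i
    refine int_split ((hsw i).lap.mul (hsw i)) ((sp_cv hsa hsw i).mul (hsw i))
      ((sp_cv hsw hsb i).mul (hsw i)) ((hsw i).mul ((h.sp_p hI).pd i))
      ((hv.sp_res ht i).mul (hsφ i)) ((sp_cv hsb hsb i).mul (hsg i))
      ((hsb i).lap.mul (hsg i)) ((hsB i).mul (hsg i)) fun x => ?_
    rw [e1]
    have k1 : A i x = ν * lap (a i) x - H459R3.NS.conv a i x - pd i (p t) x := h.dt_eq ht i x
    have k2 : B i x = IsGalerkin.res ν v t i x - cv b b i x + ν * lap (b i) x := by
      unfold IsGalerkin.res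
      simp only [hB, hb]
      ring
    have k3 : lap (w i) x = lap (a i) x - lap (b i) x := by
      unfold lap
      rw [← Finset.sum_sub_distrib]
      refine Finset.sum_congr rfl fun j _ => ?_
      have q1 : pd j (w i) = fun y => pd j (a i) y - pd j (b i) y :=
        H459R3.EU.pd_sub (hsa i) (hsb i) j
      rw [q1]
      exact congrFun (H459R3.EU.pd_sub ((hsa i).pd j) ((hsb i).pd j) j) x
    have k4 : cv a w i x + cv w b i x = H459R3.NS.conv a i x - cv b b i x := by
      unfold cv H459R3.NS.conv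
      rw [← Finset.sum_add_distrib, ← Finset.sum_sub_distrib]
      refine Finset.sum_congr rfl fun j _ => ?_
      have q1 : pd j (w i) x = pd j (a i) x - pd j (b i) x :=
        congrFun (H459R3.EU.pd_sub (hsa i) (hsb i) j) x
      rw [q1]
      simp only [hw]
      ring
    have k5 : w i x = φ i x + g i x := by
      simp only [hw, hφ, hg]
      ring
    have k6 : u t x i - v t x i = w i x := rfl
    have k7 : H459R3.NS.conv a i x = cv a w i x + cv w b i x + cv b b i x := by linarith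
    rw [k6, k1, k7, k3]
    have k8 : B i x * w i x = (IsGalerkin.res ν v t i x * φ i x - cv b b i x * w i x
        + cv b b i x * g i x + ν * lap (b i) x * w i x - ν * lap (b i) x * g i x)
        + B i x * g i x := by
      have : B i x * φ i x = IsGalerkin.res ν v t i x * φ i x
          - cv b b i x * φ i x + ν * lap (b i) x * φ i x := by rw [k2]; ring
      rw [k5, mul_add, this]
      ring
    rw [sub_mul _ (B i x), k8]
    ring
  simp_rw [e5]
  rw [Finset.sum_sub_distrib, Finset.sum_add_distrib, Finset.sum_sub_distrib,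
    Finset.sum_sub_distrib, Finset.sum_sub_distrib, Finset.sum_sub_distrib,
    Finset.sum_sub_distrib, e4, int_press hsw hdw (h.sp_p hI)]
  have z1 : ∑ i, ∫ x in cube, B i x * g i x = 0 := Finset.sum_eq_zero fun i _ => e2 i
  have z2 : ∑ i, ν * ∫ x in cube, lap (b i) x * g i x = 0 :=
    Finset.sum_eq_zero fun i _ => by rw [e3 i, mul_zero]
  have z3 : ∑ i, ∫ x in cube, cv a w i x * w i x = 0 :=
    Finset.sum_eq_zero fun i _ => cv_self_zero hsa hda hsw i
  have z4 : ∑ i, ν * ∫ x in cube, lap (w i) x * w i x ≤ 0 := by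
    refine Finset.sum_nonpos fun i _ => mul_nonpos_of_nonneg_of_nonpos hν ?_
    rw [int_lap_mul (hsw i) (hsw i)]
    have : 0 ≤ ∑ j, ∫ x in cube, pd j (w i) x * pd j (w i) x :=
      Finset.sum_nonneg fun j _ => integral_nonneg fun x => mul_self_nonneg _
    linarith
  have z5 := (abs_le.1 (strain_form hsw hsb (s := s) fun i j x => hs x i j)).1
  have z6 : energy (fun x => u t x - v t x) = ∑ i, ∫ x in cube, w i x ^ 2 := rfl
  have z7 := neg_abs_le (∑ i, ∫ x in cube, cv b b i x * g i x)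
  have z8 : ∑ i, ∫ x in cube, cv b b i x * (u t x i - PL Λ (a i) x)
      = ∑ i, ∫ x in cube, cv b b i x * g i x := rfl
  rw [z1, z2, z3, z6, z8]
  linarith

end Pool.Agent.Q62.GD
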