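import Pool.Agent.Q62.GD.Diff

/-!
Bounds for the terms in the equation for the difference.
-/

set_option autoImplicit false

open MeasureTheory Set Filter Topology
open scoped ContDiff

namespace Pool.Agent.Q62.GD

open H459R3.NS H459R3.EU Pool.Agent.TH340.PS

theorem Big.N {n : ℕ} {Λ : Finset K3} (h : Big n Λ) (k : K3) (hk : N k ≤ n) : k ∈ Λ :=
  h.2 k ((N_le_iff k n).1 hk)

theorem nrm_le_en (v : V → V) (i : Fin 3) : nrm (fun y => v y i) ≤ Real.sqrt (energy v) := by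
  unfold nrm energy
  exact Real.sqrt_le_sqrt (Finset.single_le_sum (f := fun i => ∫ x in cube, v x i ^ 2)
    (fun _ _ => integral_nonneg fun _ => sq_nonneg _) (Finset.mem_univ i))

theorem t3_le (v : V → V) (i : Fin 3) : t3 (fun y => v y i) ≤ 3 * Real.sqrt (dsq v) := by
  unfold t3
  refine (Finset.sum_le_sum fun j _ => nrm_le_third v i j j j).trans (le_of_eq ?_)
  simp

theorem nrm_le_sup {f : V → ℝ} (hf : Continuous f) {c : ℝ} (hc : ∀ x, |f x| ≤ c) : nrm f ≤ c := by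
  have hc0 : 0 ≤ c := (abs_nonneg _).trans (hc 0)
  have h := nrm_mul_le (f := f) (g := fun _ => 1) hf continuous_const hc
  have e1 : nrm (fun _ : V => (1 : ℝ)) = 1 := by
    unfold nrm
    simp [Measure.real, volume_cube]
  have e2 : (fun x => f x * 1) = f := by funext x; ring
  rw [e1, e2, mul_one] at h
  exact h

/-- the norm `M` -/
def BdM (v : V → V) (M : ℝ) : Prop :=
  (∀ i, SP (fun y => v y i)) ∧ 0 ≤ M ∧ energy v ≤ M ^ 2 ∧ dsq v ≤ M ^ 2

theorem BdM.nrm {v : V → V} {M : ℝ} (h : BdM v M) (i : Fin 3) :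
    H459R3.NS.nrm (fun y => v y i) ≤ M :=
  (nrm_le_en v i).trans (Real.sqrt_le_iff.2 ⟨h.2.1, h.2.2.1⟩)

theorem BdM.t3 {v : V → V} {M : ℝ} (h : BdM v M) (i : Fin 3) :
    GD.t3 (fun y => v y i) ≤ 3 * M :=
  (t3_le v i).trans (by
    have := Real.sqrt_le_iff.2 ⟨h.2.1, h.2.2.2⟩
    linarith)

theorem BdM.val {v : V → V} {M : ℝ} (h : BdM v M) (i : Fin 3) (x : V) :
    |v x i| ≤ 4 * (1 + Real.sqrt C7) * M := by
  have h1 := val_le (h.1 i) x
  have h2 := h.nrm i
  have h3 := h.t3 i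
  have h4 := Real.sqrt_nonneg C7
  have h5 : Real.sqrt C7 * (H459R3.NS.nrm (fun y => v y i) + GD.t3 (fun y => v y i))
      ≤ Real.sqrt C7 * (M + 3 * M) := by gcongr
  have h6 := h.2.1
  linarith

theorem BdM.pd {v : V → V} {M : ℝ} (h : BdM v M) (i j : Fin 3) (x : V) :
    |H459R3.NS.pd j (fun y => v y i) x| ≤ 28 * (1 + Real.sqrt C7) * M := by
  have h1 := pd_le (h.1 i) j x le_rfl
  have h2 := h.nrm i
  have h3 := h.t3 i
  have h4 := Real.sqrt_nonneg C7
  rw [one_pow, Real.one_rpow, one_mul, one_mul] at h1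
  have h5 : 7 * Real.sqrt C7 * (H459R3.NS.nrm (fun y => v y i) + GD.t3 (fun y => v y i))
      ≤ 7 * Real.sqrt C7 * (M + 3 * M) := by gcongr
  have h6 := h.2.1
  linarith

/-- the residual term -/
theorem src_le {u v : V → V} {M : ℝ} (hu : BdM u M) (hv : BdM v M) {n : ℕ} (hn : 1 ≤ n)
    {Λ : Finset K3} (hΛ : Big n Λ) :
    2 * |∑ i, ∫ x in cube, cv (fun i y => v y i) (fun i y => v y i) i x
      * (u x i - PL Λ (fun y => u y i) x)| ≤ 6048 * (1 + Real.sqrt C7) ^ 2 * M ^ 3 / n ^ 3 := by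
  set K : ℝ := 1 + Real.sqrt C7 with hK
  have hK0 : 0 ≤ K := by have := Real.sqrt_nonneg C7; linarith
  have hM := hu.2.1
  have hn0 : (0 : ℝ) < (n : ℝ) ^ 3 := by positivity
  have h1 : ∀ i, |∫ x in cube, cv (fun i y => v y i) (fun i y => v y i) i x
      * (u x i - PL Λ (fun y => u y i) x)| ≤ 336 * K ^ 2 * M ^ 2 * (3 * M / n ^ 3) := by
    intro i
    have s1 : SP (cv (fun i y => v y i) (fun i y => v y i) i) := sp_cv hv.1 hv.1 i
    have s2 : SP (fun x => u x i - PL Λ (fun y => u y i) x) := SP.sub (hu.1 i) (sp_PL _)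
    refine (abs_int_mul_le s1.cont s2.cont).trans ?_
    have k1 : nrm (cv (fun i y => v y i) (fun i y => v y i) i) ≤ 336 * K ^ 2 * M ^ 2 := by
      refine nrm_le_sup s1.cont fun x => ?_
      unfold cv
      refine (Finset.abs_sum_le_sum_abs _ _).trans ?_
      have k2 : ∀ j ∈ (Finset.univ : Finset (Fin 3)),
          |v x j * H459R3.NS.pd j (fun y => v y i) x| ≤ 4 * K * M * (28 * K * M) := by
        intro j _
        rw [abs_mul]
        exact mul_le_mul (hv.val j x) (hv.pd i j x) (abs_nonneg _) (by positivity)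
      refine (Finset.sum_le_sum k2).trans (le_of_eq ?_)
      simp
      ring
    have k3 : nrm (fun x => u x i - PL Λ (fun y => u y i) x) ≤ 3 * M / n ^ 3 := by
      rw [le_div_iff₀ hn0]
      exact (tail_le hΛ.1 hΛ.N (hu.1 i)).trans (hu.t3 i)
    exact mul_le_mul k1 k3 (nrm_nonneg _) (by positivity)
  have h2 := (Finset.abs_sum_le_sum_abs (fun i => ∫ x in cube,
    cv (fun i y => v y i) (fun i y => v y i) i x
      * (u x i - PL Λ (fun y => u y i) x)) Finset.univ).trans (Finset.sum_le_sum fun i _ => h1 i)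
  have h3 : ∑ _i : Fin 3, 336 * K ^ 2 * M ^ 2 * (3 * M / n ^ 3)
      = 3024 * K ^ 2 * M ^ 3 / n ^ 3 := by
    simp
    ring
  rw [h3] at h2
  calc _ ≤ 2 * (3024 * K ^ 2 * M ^ 3 / n ^ 3) := by linarith
    _ = _ := by ring

/-- the initial difference -/
theorem init_le {u v : V → V} {M : ℝ} (hu : BdM u M) {n : ℕ} (hn : 1 ≤ n)
    {Λ : Finset K3} (hΛ : Big n Λ) (hv : ∀ i, (fun y => v y i) = PL Λ (fun y => u y i)) :
    energy (fun x => u x - v x) ≤ 27 * M ^ 2 / n ^ 6 := by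
  have hn0 : (0 : ℝ) < (n : ℝ) ^ 3 := by positivity
  have h1 : ∀ i ∈ (Finset.univ : Finset (Fin 3)),
      ∫ x in cube, (fun x => u x - v x) x i ^ 2 ≤ (3 * M / n ^ 3) ^ 2 := by
    intro i _
    have e : (fun x => (fun x => u x - v x) x i ^ 2)
        = fun x => (fun x => u x i - PL Λ (fun y => u y i) x) x ^ 2 := by
      funext x
      have : v x i = PL Λ (fun y => u y i) x := congrFun (hv i) x
      simp only [Pi.sub_apply, this]
    rw [e, ← nrm_sq]
    refine pow_le_pow_left₀ (nrm_nonneg _) ?_ 2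
    rw [le_div_iff₀ hn0]
    exact (tail_le hΛ.1 hΛ.N (hu.1 i)).trans (hu.t3 i)
  unfold energy
  refine (Finset.sum_le_sum h1).trans (le_of_eq ?_)
  simp
  ring

/-- the initial velocity of the Galerkin approximation -/
theorem init_bd {u v : V → V} (hu : ∀ i, SP (fun y => u y i)) {Λ : Finset K3}
    (hΛ : ∀ k ∈ Λ, -k ∈ Λ) (hv : ∀ i, (fun y => v y i) = PL Λ (fun y => u y i)) :
    energy v ≤ energy u ∧ dsq v ≤ dsq u := by
  constructor
  · unfold energy
    refine Finset.sum_le_sum fun i _ => ?_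
    have h1 := nrm_PL_le hΛ (hu i)
    rw [← hv i] at h1
    have h2 := pow_le_pow_left₀ (nrm_nonneg _) h1 2
    rwa [nrm_sq, nrm_sq] at h2
  · unfold dsq
    refine Finset.sum_le_sum fun l _ => Finset.sum_le_sum fun i _ => Finset.sum_le_sum fun j _ =>
      Finset.sum_le_sum fun k _ => ?_
    have h1 := nrm_PL_le hΛ (sp_d3 (hu l) i j k)
    rw [← d3_PL hΛ (hu l), ← hv l] at h1
    have h2 := pow_le_pow_left₀ (nrm_nonneg _) h1 2
    rwa [nrm_sq, nrm_sq] at h2

theorem t3_sub_le {f g : V → ℝ} (hf : SP f) (hg : SP g) :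
    t3 (fun x => f x - g x) ≤ t3 f + t3 g := by
  unfold t3
  rw [← Finset.sum_add_distrib]
  refine Finset.sum_le_sum fun j _ => ?_
  have e : d3 j j j (fun x => f x - g x) = fun x => d3 j j j f x + (fun x => -d3 j j j g x) x := by
    have := d3_sub hf hg j j j
    rw [this]
    funext x
    ring
  rw [e]
  have hc := (sp_d3 hg j j j).cont
  refine (nrm_add_le (sp_d3 hf j j j).cont hc.neg).trans ?_
  have e2 : nrm (-d3 j j j g) = nrm (d3 j j j g) := by
    unfold nrm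
    congr 1
    congr 1
    funext x
    rw [Pi.neg_apply]
    ring
  rw [e2]

/-- pointwise bound for the gradient of the difference -/
theorem grad_le {u v : V → V} {M : ℝ} (hu : BdM u M) (hv : BdM v M) {y R : ℝ}
    (hy : energy (fun x => u x - v x) ≤ y) (hR : 1 ≤ R) (x : V) (i j : Fin 3) :
    |pd j (fun y => u y i - v y i) x|
      ≤ 7 * Real.sqrt C7 * (R ^ 3 * Real.sqrt y + R ^ (-(1 / 4) : ℝ) * (6 * M)) := by
  have h1 := pd_le (SP.sub (hu.1 i) (hv.1 i)) j x hR
  have h2 : nrm (fun y => u y i - v y i) ≤ Real.sqrt y :=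
    (nrm_le_en (fun x => u x - v x) i).trans (Real.sqrt_le_sqrt hy)
  have h3 : t3 (fun y => u y i - v y i) ≤ 6 * M := by
    have := t3_sub_le (hu.1 i) (hv.1 i)
    linarith [hu.t3 i, hv.t3 i]
  have h4 : 0 ≤ R ^ (-(1 / 4) : ℝ) := by positivity
  refine h1.trans ?_
  gcongr

/-- Gronwall inequality with a source -/
theorem gron_src {y D g : ℝ → ℝ} {t B r : ℝ} (ht : 0 ≤ t) (hr : 0 ≤ r) (hy0 : ∀ s, 0 ≤ y s)
    (hyc : ContinuousOn y (Icc 0 t)) (hD : ∀ s ∈ Ioo 0 t, HasDerivAt y (D s) s)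
    (hg0 : ∀ s ∈ Ioo 0 t, 0 ≤ g s) (hgi : IntegrableOn g (Icc 0 t))
    (hgB : ∫ s in (0 : ℝ)..t, g s ≤ B) (hd : ∀ s ∈ Ioo 0 t, D s ≤ g s * y s + r) :
    y t ≤ (y 0 + r * t) * Real.exp B := by
  have h := gron (y := fun s => y s + r * |t - s|) (D := fun s => D s - r) (g := g) (B := B) ht
    (fun s => add_nonneg (hy0 s) (mul_nonneg hr (abs_nonneg _)))
    (hyc.add (by fun_prop)) (fun s hs => ?_) hg0 hgi hgB (fun s hs => ?_)
  · simpa [abs_of_nonneg ht] using h
  · have h1 : (fun s => r * |t - s|) =ᶠ[𝓝 s] fun s => r * (t - s) := by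
      filter_upwards [Iio_mem_nhds hs.2] with a ha
      rw [abs_of_pos (sub_pos.2 ha)]
    have h2 : HasDerivAt (fun s => r * (t - s)) (r * (0 - 1)) s :=
      ((hasDerivAt_const s t).sub (hasDerivAt_id s)).const_mul r
    have h3 := (hD s hs).add (h2.congr_of_eventuallyEq h1)
    refine h3.congr_deriv ?_
    ring
  · have h1 := hd s hs
    have h2 : 0 ≤ g s * (r * |t - s|) := mul_nonneg (hg0 s hs) (mul_nonneg hr (abs_nonneg _))
    rw [mul_add]
    linarith

theorem Per.exists_cube {F : Type*} {f : V → F} (hf : Per f) (x : V) : ∃ y ∈ cube, f y = f x := by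
  refine ⟨fun i => Int.fract (x i), ?_, ?_⟩
  · exact ⟨fun i => Int.fract_nonneg _, fun i => (Int.fract_lt_one _).le⟩
  · have h := hf.int (fun i => ⌊x i⌋) (fun i => Int.fract (x i))
    rw [← h]
    congr 1
    funext i
    simp

end Pool.Agent.Q62.GD
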