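import Pool.Agent.Q62.GD.Boot

/-!
The dichotomy.
-/

set_option autoImplicit false

open MeasureTheory Set Filter Topology
open scoped ContDiff

namespace Pool.Agent.Q62.GD

open H459R3.NS H459R3.EU Pool.Agent.TH340.PS

theorem closes {n : ℕ} {z Q L0 T K : ℝ} (hz : 1 ≤ z) (hn : (n : ℝ) = z ^ 64) (hQ : 1 ≤ Q)
    (hL0 : 0 ≤ L0) (hT : 0 ≤ T) (hK : 0 ≤ K)
    (hlarge : 7 * Real.sqrt C7 * (Real.sqrt ((27 + 6048 * K ^ 2 * T) * Q ^ 3 * L0) + 6 * Q) < z) :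
    7 * Real.sqrt C7 * ((z ^ 16) ^ 3 * Real.sqrt ((27 * (Q * z) ^ 2 / n ^ 6
      + 6048 * K ^ 2 * (Q * z) ^ 3 / n ^ 3 * T) * (L0 * z))
      + (z ^ 16) ^ (-(1 / 4) : ℝ) * (6 * (Q * z))) < 1 := by
  have hz0 : 0 < z := by linarith
  set C1 : ℝ := (27 + 6048 * K ^ 2 * T) * Q ^ 3 * L0 with hC1
  have hC10 : 0 ≤ C1 := by positivity
  have e1 : (z ^ 16) ^ (-(1 / 4) : ℝ) = 1 / z ^ 4 := by
    rw [Real.rpow_neg (by positivity), ← Real.rpow_natCast z 16, ← Real.rpow_mul hz0.le]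
    norm_num
  have h1 : (27 * (Q * z) ^ 2 / n ^ 6 + 6048 * K ^ 2 * (Q * z) ^ 3 / n ^ 3 * T) * (L0 * z)
      ≤ (Real.sqrt C1 / z ^ 94) ^ 2 := by
    rw [div_pow, Real.sq_sqrt hC10, hn]
    have k1 : 27 * (Q * z) ^ 2 / (z ^ 64) ^ 6 ≤ 27 * Q ^ 3 * z ^ 3 / (z ^ 64) ^ 3 := by
      rw [div_le_div_iff₀ (by positivity) (by positivity)]
      have a1 : Q ^ 2 ≤ Q ^ 3 := pow_le_pow_right₀ hQ (by norm_num)
      have a2 : z ^ 2 * (z ^ 64) ^ 3 ≤ z ^ 3 * (z ^ 64) ^ 6 := by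
        rw [← pow_mul, ← pow_mul, ← pow_add, ← pow_add]
        exact pow_le_pow_right₀ hz (by norm_num)
      calc 27 * (Q * z) ^ 2 * (z ^ 64) ^ 3 = 27 * (Q ^ 2 * (z ^ 2 * (z ^ 64) ^ 3)) := by ring
        _ ≤ 27 * (Q ^ 3 * (z ^ 3 * (z ^ 64) ^ 6)) := by gcongr
        _ = _ := by ring
    have k2 : 27 * (Q * z) ^ 2 / (z ^ 64) ^ 6 + 6048 * K ^ 2 * (Q * z) ^ 3 / (z ^ 64) ^ 3 * T
        ≤ (27 + 6048 * K ^ 2 * T) * Q ^ 3 * z ^ 3 / (z ^ 64) ^ 3 := by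
      refine (add_le_add k1 le_rfl).trans (le_of_eq ?_)
      field_simp
    calc _ ≤ (27 + 6048 * K ^ 2 * T) * Q ^ 3 * z ^ 3 / (z ^ 64) ^ 3 * (L0 * z) :=
          mul_le_mul_of_nonneg_right k2 (by positivity)
      _ = C1 / (z ^ 94) ^ 2 := by
          rw [hC1]
          field_simp
  have h2 : Real.sqrt ((27 * (Q * z) ^ 2 / n ^ 6
      + 6048 * K ^ 2 * (Q * z) ^ 3 / n ^ 3 * T) * (L0 * z)) ≤ Real.sqrt C1 / z ^ 94 :=
    Real.sqrt_le_iff.2 ⟨by positivity, h1⟩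
  have h3 : (z ^ 16) ^ 3 * Real.sqrt ((27 * (Q * z) ^ 2 / n ^ 6
      + 6048 * K ^ 2 * (Q * z) ^ 3 / n ^ 3 * T) * (L0 * z)) ≤ Real.sqrt C1 / z := by
    refine (mul_le_mul_of_nonneg_left h2 (by positivity)).trans ?_
    rw [← pow_mul, mul_div_assoc', div_le_div_iff₀ (by positivity) hz0]
    have a : z ^ (16 * 3) * z ≤ z ^ 94 := by
      rw [← pow_succ]
      exact pow_le_pow_right₀ hz (by norm_num)
    calc z ^ (16 * 3) * Real.sqrt C1 * z = Real.sqrt C1 * (z ^ (16 * 3) * z) := by ring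
      _ ≤ Real.sqrt C1 * z ^ 94 := by gcongr
  have h4 : (z ^ 16) ^ (-(1 / 4) : ℝ) * (6 * (Q * z)) ≤ 6 * Q / z := by
    rw [e1, one_div_mul_eq_div, div_le_div_iff₀ (by positivity) hz0]
    have a : z * z ≤ z ^ 4 := by
      rw [← sq]
      exact pow_le_pow_right₀ hz (by norm_num)
    calc 6 * (Q * z) * z = 6 * Q * (z * z) := by ring
      _ ≤ 6 * Q * z ^ 4 := by gcongr
  calc _ ≤ 7 * Real.sqrt C7 * (Real.sqrt C1 / z + 6 * Q / z) := by gcongr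
    _ = 7 * Real.sqrt C7 * (Real.sqrt C1 + 6 * Q) / z := by ring
    _ < 1 := by rwa [div_lt_one hz0]

/-- the common part of both cases -/
theorem core {ν T : ℝ} (hν : 0 ≤ ν) (hT : 0 < T) {u : ℝ → V → V} {p : ℝ → V → ℝ}
    (h : IsSol ν T u p) {L0 : ℝ} (hL0 : 1 ≤ L0) :
    ∃ n0 : ℕ, 1 ≤ n0 ∧ ∀ n ≥ n0, ∃ M : ℝ, ∀ Λ : Finset K3, Big n Λ → ∀ v : ℝ → V → V,
      IsGalerkin Λ ν T (u 0) v → ∀ γ : ℝ → ℝ, (∀ t, 0 ≤ γ t) → IntegrableOn γ (Icc 0 T) →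
      (∀ t ∈ Ioo 0 T, Close (u t) (v t) → StrainLE (u t) (γ t) ∧ StrainLE (v t) (γ t)) →
      Real.exp (41310 * ∫ s in (0 : ℝ)..T, γ s) ≤ L0 * (n : ℝ) ^ (1 / 64 : ℝ) →
      ∀ t ∈ Ico 0 T, Close (u t) (v t) ∧ dsq (u t) ≤ M ^ 2 := by
  set P : ℝ := energy (u 0) + dsq (u 0) + 1 with hP
  have hE0 := energy_nonneg (u 0)
  have hD0 := dsq_nonneg (u 0)
  have hP1 : 1 ≤ P := by linarith
  set Q : ℝ := P * L0 with hQ
  have hQ1 : 1 ≤ Q := one_le_mul_of_one_le_of_one_le hP1 hL0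
  set K : ℝ := 1 + Real.sqrt C7 with hK
  have hK0 : 0 ≤ K := by have := Real.sqrt_nonneg C7; linarith
  set Z : ℝ := 7 * Real.sqrt C7 * (Real.sqrt ((27 + 6048 * K ^ 2 * T) * Q ^ 3 * L0) + 6 * Q)
    with hZ
  refine ⟨(⌈Z⌉₊ + 1) ^ 64, Nat.one_le_pow _ _ (by omega), fun n hn => ?_⟩
  set z : ℝ := (n : ℝ) ^ (1 / 64 : ℝ) with hz
  have hzn : (n : ℝ) = z ^ 64 := by
    rw [hz, ← Real.rpow_natCast, ← Real.rpow_mul (Nat.cast_nonneg n)]
    norm_num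
  have hz0 : 0 ≤ z := by positivity
  have hzm : (⌈Z⌉₊ : ℝ) + 1 ≤ z := by
    have h1 : ((⌈Z⌉₊ : ℝ) + 1) ^ 64 ≤ z ^ 64 := by
      rw [← hzn]
      exact_mod_cast hn
    exact (pow_le_pow_iff_left₀ (by positivity) hz0 (by norm_num)).1 h1
  have hz1 : 1 ≤ z := by
    have : (0 : ℝ) ≤ ⌈Z⌉₊ := Nat.cast_nonneg _
    linarith
  have hzZ : Z < z := by
    have := Nat.le_ceil Z
    linarith
  have hn1 : 1 ≤ n := (Nat.one_le_pow _ _ (by omega)).trans hn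
  refine ⟨Q * z, fun Λ hΛ v hv γ hγ0 hγi hcl hL => ?_⟩
  have hQz : 1 ≤ Q * z := one_le_mul_of_one_le_of_one_le hQ1 hz1
  refine boot hν h hn1 hΛ hv hγ0 hγi hcl (L := L0 * z) (M := Q * z) (R := z ^ 16) hL
    (by positivity) ?_ ?_ (one_le_pow₀ hz1) ?_
  · have h1 : energy (u 0) ≤ Q * z := by
      calc energy (u 0) ≤ P := by linarith
        _ = P * 1 * 1 := by ring
        _ ≤ P * L0 * z := by gcongr
    calc energy (u 0) ≤ Q * z := h1
      _ ≤ (Q * z) ^ 2 := by nlinarith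
  · have h1 : dsq (u 0) * (L0 * z) ≤ Q * z := by
      have : dsq (u 0) ≤ P := by linarith
      calc dsq (u 0) * (L0 * z) ≤ P * (L0 * z) := by gcongr
        _ = Q * z := by rw [hQ]; ring
    calc _ ≤ Q * z := h1
      _ ≤ (Q * z) ^ 2 := by nlinarith
  · exact closes hz1 hzn hQ1 (by linarith) hT.le hK0 hzZ

theorem grad_bound {ν T : ℝ} (hν : 0 ≤ ν) {u : ℝ → V → V} {p : ℝ → V → ℝ}
    (h : IsSol ν T u p) {D : ℝ} {s : Set ℝ} (hs : s ⊆ Ico 0 T) (hD : ∀ t ∈ s, dsq (u t) ≤ D) :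
    ∃ G : ℝ, 0 ≤ G ∧ ∀ t ∈ s, ∀ x i j, |pd j (fun y => u t y i) x| ≤ G := by
  have hE0 := energy_nonneg (u 0)
  set M : ℝ := Real.sqrt (energy (u 0) + |D|) with hM
  have hM0 : 0 ≤ M := Real.sqrt_nonneg _
  have hM2 : M ^ 2 = energy (u 0) + |D| := Real.sq_sqrt (by positivity)
  have hC := Real.sqrt_nonneg C7
  refine ⟨28 * (1 + Real.sqrt C7) * M, by positivity, fun t ht x i j => ?_⟩
  have hI := hs ht
  have hb : BdM (u t) M := ⟨fun i => h.sp hI i, hM0, by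
    rw [hM2]; linarith [energy_le_u hν h hI, abs_nonneg D], by
    rw [hM2]; linarith [hD t ht, le_abs_self D]⟩
  exact hb.pd i j x

theorem strain_of_grad {v : V → V} {G : ℝ} (h : ∀ x i j, |pd j (fun y => v y i) x| ≤ G) :
    StrainLE v G := by
  intro x i j
  have h1 := abs_le.1 (h x i j)
  have h2 := abs_le.1 (h x j i)
  rw [abs_le]
  constructor <;> linarith [h1.1, h1.2, h2.1, h2.2]

theorem StrainLE.mono {v : V → V} {a b : ℝ} (h : StrainLE v a) (hab : a ≤ b) : StrainLE v b :=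
  fun x i j => (h x i j).trans hab

/-- change of the gradients -/
theorem pd_close {u v : V → V} (hu : ∀ i, SP (fun y => u y i)) (hv : ∀ i, SP (fun y => v y i))
    (h : Close u v) (x : V) (i j : Fin 3) :
    |pd j (fun y => u y i) x - pd j (fun y => v y i) x| < 1 := by
  have h1 := h x i j
  have e : pd j (fun y => u y i - v y i) x = pd j (fun y => u y i) x - pd j (fun y => v y i) x :=
    congrFun (H459R3.EU.pd_sub (hu i) (hv i) j) x
  rwa [e] at h1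

theorem strain_close {u v : V → V} (hu : ∀ i, SP (fun y => u y i)) (hv : ∀ i, SP (fun y => v y i))
    (h : Close u v) {s : ℝ} :
    (StrainLE u s → StrainLE v (s + 1)) ∧ (StrainLE v s → StrainLE u (s + 1)) := by
  constructor
  · intro hs x i j
    have h1 := abs_le.1 (hs x i j)
    have h2 := abs_lt.1 (pd_close hu hv h x i j)
    have h3 := abs_lt.1 (pd_close hu hv h x j i)
    rw [abs_le]
    constructor <;> linarith [h1.1, h1.2, h2.1, h2.2, h3.1, h3.2]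
  · intro hs x i j
    have h1 := abs_le.1 (hs x i j)
    have h2 := abs_lt.1 (pd_close hu hv h x i j)
    have h3 := abs_lt.1 (pd_close hu hv h x j i)
    rw [abs_le]
    constructor <;> linarith [h1.1, h1.2, h2.1, h2.2, h3.1, h3.2]

/-- regular case -/
theorem case_reg {ν T : ℝ} (hν : 0 ≤ ν) (hT : 0 < T) {u : ℝ → V → V} {p : ℝ → V → ℝ}
    (h : IsSol ν T u p) {D : ℝ} (hD : ∀ t ∈ Ico 0 T, dsq (u t) ≤ D) :
    ∃ (G : ℝ) (n0 : ℕ), ∀ n ≥ n0, ∀ Λ : Finset K3, Big n Λ → ∀ v : ℝ → V → V,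
      IsGalerkin Λ ν T (u 0) v → ∀ t ∈ Ico 0 T, ∀ x i j, |pd j (fun y => v t y i) x| ≤ G := by
  obtain ⟨G, hG0, hG⟩ := grad_bound hν h (s := Ico 0 T) Subset.rfl hD
  set L0 : ℝ := Real.exp (41310 * ((G + 1) * T)) with hL0
  have hL01 : 1 ≤ L0 := Real.one_le_exp (by positivity)
  obtain ⟨n0, hn01, hn0⟩ := core hν hT h hL01
  refine ⟨G + 1, n0, fun n hn Λ hΛ v hv t ht x i j => ?_⟩
  obtain ⟨M, hM⟩ := hn0 n hn
  have hn1 : (1 : ℝ) ≤ n := by exact_mod_cast hn01.trans hn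
  have hz1 : 1 ≤ (n : ℝ) ^ (1 / 64 : ℝ) := Real.one_le_rpow hn1 (by norm_num)
  have h1 := (hM Λ hΛ v hv (fun _ => G + 1) (fun _ => by positivity)
    (continuousOn_const.integrableOn_Icc) (fun s hs hc => ?_) ?_ t ht).1
  · have h2 := abs_lt.1 (pd_close (fun i => h.sp ht i) (fun i => (hv.mem t ht).sp i) h1 x i j)
    have h3 := abs_le.1 (hG t ht x i j)
    rw [abs_le]
    constructor <;> linarith [h2.1, h2.2, h3.1, h3.2]
  · have hI : s ∈ Ico 0 T := ⟨hs.1.le, hs.2⟩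
    have h2 : StrainLE (u s) G := strain_of_grad (hG s hI)
    exact ⟨h2.mono (by linarith),
      (strain_close (fun i => h.sp hI i) (fun i => (hv.mem s hI).sp i) hc).1 h2⟩
  · rw [intervalIntegral.integral_const, sub_zero, smul_eq_mul, mul_comm T]
    calc Real.exp (41310 * ((G + 1) * T)) = L0 * 1 := by rw [mul_one]
      _ ≤ L0 * (n : ℝ) ^ (1 / 64 : ℝ) := by gcongr

/-- singular case -/
theorem case_sing {ν T : ℝ} (hν : 0 ≤ ν) {u : ℝ → V → V} {p : ℝ → V → ℝ}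
    (h : IsSol ν T u p) (hD : ¬∃ D : ℝ, ∀ t ∈ Ico 0 T, dsq (u t) ≤ D) {s : ℝ} (hs : s ∈ Ico 0 T) :
    ∃ n0 : ℕ, ∀ n ≥ n0, ∀ Λ : Finset K3, Big n Λ → ∀ v : ℝ → V → V,
      IsGalerkin Λ ν T (u 0) v → ∀ β : ℝ → ℝ, IntegrableOn β (Ioo s T) →
      (∀ t ∈ Ioo s T, StrainLE (v t) (β t)) →
      1 / 2643840 * Real.log n ≤ ∫ t in s..T, β t := by
  have hT : 0 < T := hs.1.trans_lt hs.2
  -- bound up to the time s
  obtain ⟨t0, ht0, ht0m⟩ := isCompact_Icc.exists_isMaxOn (nonempty_Icc.2 hs.1)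
    ((dsq_continuousOn h).mono (Icc_subset_Ico_right hs.2))
  obtain ⟨G, hG0, hG⟩ := grad_bound hν h (s := Icc 0 s) (Icc_subset_Ico_right hs.2)
    (D := dsq (u t0)) fun t ht => ht0m ht
  set L0 : ℝ := Real.exp (41310 * ((G + 1) * T)) with hL0
  have hL01 : 1 ≤ L0 := Real.one_le_exp (by positivity)
  obtain ⟨n0, hn01, hn0⟩ := core hν hT h hL01
  refine ⟨n0, fun n hn Λ hΛ v hv β hβi hβ => ?_⟩
  by_contra hcon
  push Not at hcon
  obtain ⟨M, hM⟩ := hn0 n hn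
  have hn1 : (1 : ℝ) ≤ n := by exact_mod_cast hn01.trans hn
  refine hD ⟨M ^ 2, fun t ht => ?_⟩
  have hβ0 : ∀ t ∈ Ioo s T, 0 ≤ β t := fun t ht => (abs_nonneg _).trans (hβ t ht 0 0 0)
  set γ : ℝ → ℝ := fun t => (G + 1) + (Ioo s T).indicator β t with hγ
  have hγ0 : ∀ t, 0 ≤ γ t := fun t => add_nonneg (by positivity)
    (indicator_nonneg hβ0 t)
  have hind : Integrable ((Ioo s T).indicator β) := (integrable_indicator_iff measurableSet_Ioo).2 hβi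
  have hγi : IntegrableOn γ (Icc 0 T) :=
    (continuousOn_const.integrableOn_Icc).add hind.integrableOn
  refine (hM Λ hΛ v hv γ hγ0 hγi (fun r hr hc => ?_) ?_ t ht).2
  · have hI : r ∈ Ico 0 T := ⟨hr.1.le, hr.2⟩
    obtain ⟨c1, c2⟩ := strain_close (s := G) (fun i => h.sp hI i) (fun i => (hv.mem r hI).sp i) hc
    obtain ⟨c3, c4⟩ := strain_close (s := β r) (fun i => h.sp hI i)
      (fun i => (hv.mem r hI).sp i) hc
    by_cases hrs : r ≤ s
    · have h2 : StrainLE (u r) G := strain_of_grad (hG r ⟨hr.1.le, hrs⟩)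
      have h3 : (Ioo s T).indicator β r = 0 := indicator_of_notMem (fun hm => absurd hm.1 (not_lt.2 hrs)) β
      have h4 : γ r = G + 1 := by simp only [hγ, h3, add_zero]
      rw [h4]
      exact ⟨h2.mono (by linarith), c1 h2⟩
    · have hm : r ∈ Ioo s T := ⟨not_le.1 hrs, hr.2⟩
      have h4 : γ r = (G + 1) + β r := by simp only [hγ, indicator_of_mem hm]
      rw [h4]
      exact ⟨(c4 (hβ r hm)).mono (by linarith), (hβ r hm).mono (by linarith)⟩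
  · have e1 : ∫ r in (0 : ℝ)..T, γ r = (G + 1) * T + ∫ r in s..T, β r := by
      have i1 : IntervalIntegrable (fun _ : ℝ => G + 1) volume 0 T := intervalIntegrable_const
      have i2 : IntervalIntegrable ((Ioo s T).indicator β) volume 0 T :=
        hind.intervalIntegrable
      rw [hγ, intervalIntegral.integral_add i1 i2, intervalIntegral.integral_const, sub_zero,
        smul_eq_mul, mul_comm T]
      congr 1
      rw [intervalIntegral.integral_of_le hT.le, intervalIntegral.integral_of_le hs.2.le,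
        setIntegral_indicator measurableSet_Ioo]
      have e2 : Ioc 0 T ∩ Ioo s T = Ioo s T :=
        inter_eq_self_of_subset_right fun r hr => ⟨hs.1.trans_lt hr.1, hr.2.le⟩
      rw [e2, integral_Ioc_eq_integral_Ioo]
    rw [e1]
    have e3 : L0 * (n : ℝ) ^ (1 / 64 : ℝ)
        = Real.exp (41310 * ((G + 1) * T + 1 / 2643840 * Real.log n)) := by
      rw [hL0, Real.rpow_def_of_pos (by linarith), ← Real.exp_add]
      congr 1
      ring
    rw [e3]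
    refine Real.exp_le_exp.2 ?_
    linarith

end Pool.Agent.Q62.GD
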