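import Pool.Agent.Q62.GD.Main
import Pool.Agent.H459R3.NS.Lp

/-!
Two solutions with near initial velocities and near viscosities.
-/

set_option autoImplicit false

open MeasureTheory Set Filter Topology
open scoped ContDiff

namespace Pool.Agent.Q62.GD

open H459R3.NS H459R3.EU Pool.Agent.TH340.PS

theorem int_split6 {ν μ : ℝ} {F f1 f2 f3 f4 f5 f6 : V → ℝ} (h1 : SP f1) (h2 : SP f2)
    (h3 : SP f3) (h4 : SP f4) (h5 : SP f5) (h6 : SP f6)
    (hF : ∀ x, F x = ν * f1 x - f2 x - f3 x - f4 x + f5 x + μ * f6 x) :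
    ∫ x in cube, F x = ν * (∫ x in cube, f1 x) - (∫ x in cube, f2 x) - (∫ x in cube, f3 x)
      - (∫ x in cube, f4 x) + (∫ x in cube, f5 x) + μ * ∫ x in cube, f6 x := by
  simp_rw [hF]
  have c1 := h1.cont
  have c2 := h2.cont
  have c3 := h3.cont
  have c4 := h4.cont
  have c5 := h5.cont
  have c6 := h6.cont
  have i1 : IntegrableOn (fun x => ν * f1 x) cube := integrableOn_cube (by fun_prop)
  have i2 : IntegrableOn (fun x => ν * f1 x - f2 x) cube := integrableOn_cube (by fun_prop)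
  have i3 : IntegrableOn (fun x => ν * f1 x - f2 x - f3 x) cube := integrableOn_cube (by fun_prop)
  have i4 : IntegrableOn (fun x => ν * f1 x - f2 x - f3 x - f4 x) cube :=
    integrableOn_cube (by fun_prop)
  have i5 : IntegrableOn (fun x => ν * f1 x - f2 x - f3 x - f4 x + f5 x) cube :=
    integrableOn_cube (by fun_prop)
  have i6 : IntegrableOn (fun x => μ * f6 x) cube := integrableOn_cube (by fun_prop)
  rw [integral_add i5 i6, integral_add i4 h5.int, integral_sub i3 h4.int, integral_sub i2 h3.int,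
    integral_sub i1 h2.int, integral_const_mul, integral_const_mul]

/-- the Laplacian is bounded by the third derivatives -/
theorem lap_le (v : V → V) (hv : ∀ i, SP (fun y => v y i)) (i : Fin 3) :
    nrm (lap (fun y => v y i)) ≤ 6 * Real.sqrt (dsq v) := by
  set f : V → ℝ := fun y => v y i with hf
  have hsp : SP f := hv i
  have h0 : ∫ x in cube, lap f x = 0 := by
    unfold lap
    rw [integral_finsetSum _ fun j _ => ((hsp.pd j).pd j).int]
    exact Finset.sum_eq_zero fun j _ => int_pd_zero (hsp.pd j) j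
  refine (poincare hsp.lap h0).trans ?_
  unfold grd
  refine Real.sqrt_le_iff.2 ⟨by positivity, ?_⟩
  have h1 : ∀ j ∈ (Finset.univ : Finset (Fin 3)), ∫ x in cube, pd j (lap f) x ^ 2
      ≤ (3 * Real.sqrt (dsq v)) ^ 2 := by
    intro j _
    rw [← nrm_sq]
    refine pow_le_pow_left₀ (nrm_nonneg _) ?_ 2
    have e : pd j (lap f) = fun x => ∑ k, d3 j k k f x := by
      funext x
      unfold lap
      rw [pd_sum (fun k _ => (hsp.pd k).pd k) j x]
      rfl
    rw [e]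
    refine (nrm_sum_le fun k => (sp_d3 hsp j k k).cont).trans ?_
    refine (Finset.sum_le_sum fun k _ => nrm_le_third v i j k k).trans (le_of_eq ?_)
    simp
  refine (Finset.sum_le_sum h1).trans ?_
  have h2 := Real.sq_sqrt (dsq_nonneg v)
  simp only [Finset.sum_const, Finset.card_univ, Fintype.card_fin, nsmul_eq_mul]
  rw [mul_pow, mul_pow, h2]
  have := dsq_nonneg v
  push_cast
  linarith

theorem near_rate {ν μ T : ℝ} (hμ : 0 ≤ μ) {u : ℝ → V → V} {p : ℝ → V → ℝ}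
    (h : IsSol ν T u p) {v : ℝ → V → V} {q : ℝ → V → ℝ} (hv : IsSol μ T v q)
    {t : ℝ} (ht : t ∈ Ioo 0 T) {s : ℝ} (hs : StrainLE (v t) s) {M ε : ℝ} (hε : |μ - ν| ≤ ε)
    (hbu : BdM (u t) M) (hbv : BdM (v t) M) :
    2 * ∑ i, ∫ x in cube, H459R3.NS.dt (fun s y => u s y i - v s y i) t x * (u t x i - v t x i) ≤
      6 * s * energy (fun x => u t x - v t x) + 72 * ε * M ^ 2 := by
  have hI : t ∈ Ico 0 T := ⟨ht.1.le, ht.2⟩
  have hM := hbu.2.1
  set a : Fin 3 → V → ℝ := fun i y => u t y i with ha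
  set b : Fin 3 → V → ℝ := fun i y => v t y i with hb
  have hsa : ∀ i, SP (a i) := fun i => h.sp hI i
  have hsb : ∀ i, SP (b i) := fun i => hv.sp hI i
  have hda : ∀ x, ∑ i, pd i (a i) x = 0 := h.divfree t hI
  have hdb : ∀ x, ∑ i, pd i (b i) x = 0 := hv.divfree t hI
  set w : Fin 3 → V → ℝ := fun i y => a i y - b i y with hw
  have hsw : ∀ i, SP (w i) := fun i => SP.sub (hsa i) (hsb i)
  have hdw : ∀ x, ∑ i, pd i (w i) x = 0 := by
    intro x
    have e : ∀ i, pd i (w i) x = pd i (a i) x - pd i (b i) x := fun i =>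
      congrFun (H459R3.EU.pd_sub (hsa i) (hsb i) i) x
    simp_rw [e]
    rw [Finset.sum_sub_distrib, hda, hdb, sub_zero]
  have e1 : ∀ i x, H459R3.NS.dt (fun s y => u s y i - v s y i) t x
      = H459R3.NS.dt (fun s y => u s y i) t x - H459R3.NS.dt (fun s y => v s y i) t x := by
    intro i x
    have d1 : DifferentiableAt ℝ (fun s => u s x i) t :=
      (hasDerivAt_slice (F := fun s y => u s y i)
        (mono_Ioo (f := fun s y => u s y i) (h.smooth_c i) (by norm_cast)) ht x).differentiableAt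
    have d2 : DifferentiableAt ℝ (fun s => v s x i) t :=
      (hasDerivAt_slice (F := fun s y => v s y i)
        (mono_Ioo (f := fun s y => v s y i) (hv.smooth_c i) (by norm_cast)) ht x).differentiableAt
    exact deriv_fun_sub d1 d2
  have e5 : ∀ i, ∫ x in cube, H459R3.NS.dt (fun s y => u s y i - v s y i) t x
        * (u t x i - v t x i)
      = μ * (∫ x in cube, lap (w i) x * w i x) - (∫ x in cube, cv a w i x * w i x)
        - (∫ x in cube, cv w b i x * w i x) - (∫ x in cube, w i x * pd i (p t) x)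
        + (∫ x in cube, w i x * pd i (q t) x)
        + (ν - μ) * (∫ x in cube, lap (a i) x * w i x) := by
    intro i
    refine int_split6 ((hsw i).lap.mul (hsw i)) ((sp_cv hsa hsw i).mul (hsw i))
      ((sp_cv hsw hsb i).mul (hsw i)) ((hsw i).mul ((h.sp_p hI).pd i))
      ((hsw i).mul ((hv.sp_p hI).pd i)) ((hsa i).lap.mul (hsw i)) fun x => ?_
    rw [e1, h.dt_eq ht i x, hv.dt_eq ht i x]
    have k3 : lap (w i) x = lap (a i) x - lap (b i) x := by
      unfold lap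
      rw [← Finset.sum_sub_distrib]
      refine Finset.sum_congr rfl fun j _ => ?_
      have q1 : pd j (w i) = fun y => pd j (a i) y - pd j (b i) y :=
        H459R3.EU.pd_sub (hsa i) (hsb i) j
      rw [q1]
      exact congrFun (H459R3.EU.pd_sub ((hsa i).pd j) ((hsb i).pd j) j) x
    have k4 : cv a w i x + cv w b i x = H459R3.NS.conv a i x - H459R3.NS.conv b i x := by
      unfold cv H459R3.NS.conv
      rw [← Finset.sum_add_distrib, ← Finset.sum_sub_distrib]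
      refine Finset.sum_congr rfl fun j _ => ?_
      have q1 : pd j (w i) x = pd j (a i) x - pd j (b i) x :=
        congrFun (H459R3.EU.pd_sub (hsa i) (hsb i) j) x
      rw [q1]
      simp only [hw]
      ring
    have k6 : u t x i - v t x i = w i x := rfl
    have k7 : H459R3.NS.conv (fun i y => u t y i) i x
        = cv a w i x + cv w b i x + H459R3.NS.conv b i x := by
      have : H459R3.NS.conv (fun i y => u t y i) i x = H459R3.NS.conv a i x := rfl
      linarith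
    have k8 : lap (fun y => u t y i) x = lap (a i) x := rfl
    have k9 : lap (fun y => v t y i) x = lap (b i) x := rfl
    have k10 : H459R3.NS.conv (fun i y => v t y i) i x = H459R3.NS.conv b i x := rfl
    rw [k6, k7, k8, k9, k10, k3]
    ring
  simp_rw [e5]
  rw [Finset.sum_add_distrib, Finset.sum_add_distrib, Finset.sum_sub_distrib,
    Finset.sum_sub_distrib, Finset.sum_sub_distrib, int_press hsw hdw (h.sp_p hI),
    int_press hsw hdw (hv.sp_p hI)]
  have z3 : ∑ i, ∫ x in cube, cv a w i x * w i x = 0 :=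
    Finset.sum_eq_zero fun i _ => cv_self_zero hsa hda hsw i
  have z4 : ∑ i, μ * ∫ x in cube, lap (w i) x * w i x ≤ 0 := by
    refine Finset.sum_nonpos fun i _ => mul_nonpos_of_nonneg_of_nonpos hμ ?_
    rw [int_lap_mul (hsw i) (hsw i)]
    have : 0 ≤ ∑ j, ∫ x in cube, pd j (w i) x * pd j (w i) x :=
      Finset.sum_nonneg fun j _ => integral_nonneg fun x => mul_self_nonneg _
    linarith
  have z5 := (abs_le.1 (strain_form hsw hsb (s := s) fun i j x => hs x i j)).1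
  have z6 : energy (fun x => u t x - v t x) = ∑ i, ∫ x in cube, w i x ^ 2 := rfl
  have z7 : ∑ i, (ν - μ) * ∫ x in cube, lap (a i) x * w i x ≤ 36 * ε * M ^ 2 := by
    have hε0 : 0 ≤ ε := (abs_nonneg _).trans hε
    have h1 : ∀ i ∈ (Finset.univ : Finset (Fin 3)), (ν - μ) * ∫ x in cube, lap (a i) x * w i x
        ≤ ε * (6 * M * (2 * M)) := by
      intro i _
      refine (le_abs_self _).trans ?_
      rw [abs_mul]
      have q1 : |ν - μ| ≤ ε := by rwa [abs_sub_comm]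
      have q2 : |∫ x in cube, lap (a i) x * w i x| ≤ 6 * M * (2 * M) := by
        refine (abs_int_mul_le (hsa i).lap.cont (hsw i).cont).trans ?_
        have r1 : nrm (lap (a i)) ≤ 6 * M := by
          refine (lap_le (u t) hbu.1 i).trans ?_
          have := Real.sqrt_le_iff.2 ⟨hM, hbu.2.2.2⟩
          linarith
        have r2 : nrm (w i) ≤ 2 * M := by
          have e : w i = fun x => a i x + (fun x => -b i x) x := by
            funext x
            simp only [hw]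
            ring
          have hc := (hsb i).cont
          rw [e]
          refine (nrm_add_le (hsa i).cont hc.neg).trans ?_
          have e2 : nrm (-b i) = nrm (b i) := by
            unfold nrm
            congr 1
            congr 1
            funext x
            rw [Pi.neg_apply]
            ring
          have e3 : nrm (fun x => -b i x) = nrm (-b i) := rfl
          rw [e2]
          linarith [hbu.nrm i, hbv.nrm i]
        exact mul_le_mul r1 r2 (nrm_nonneg _) (by positivity)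
      exact mul_le_mul q1 q2 (abs_nonneg _) hε0
    refine (Finset.sum_le_sum h1).trans (le_of_eq ?_)
    simp
    ring
  rw [z3, z6]
  linarith

/-- the difference at time `0` -/
theorem claim2 {ν μ T : ℝ} (hν : 0 ≤ ν) (hμ : 0 ≤ μ) {u : ℝ → V → V} {p : ℝ → V → ℝ}
    (h : IsSol ν T u p) {v : ℝ → V → V} {q : ℝ → V → ℝ} (hv : IsSol μ T v q) {ε : ℝ}
    (hε : |μ - ν| ≤ ε) (h0 : energy (fun x => u 0 x - v 0 x) ≤ ε ^ 2) {γ : ℝ → ℝ}
    (hγ0 : ∀ t, 0 ≤ γ t) (hγi : IntegrableOn γ (Icc 0 T))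
    (hcl : ∀ t ∈ Ioo 0 T, Close (u t) (v t) → StrainLE (u t) (γ t) ∧ StrainLE (v t) (γ t))
    {L M R : ℝ} (hL : Real.exp (41310 * ∫ s in (0 : ℝ)..T, γ s) ≤ L) (hM : 0 ≤ M)
    (hM1 : energy (u 0) ≤ M ^ 2) (hM2 : dsq (u 0) * L ≤ M ^ 2)
    (hM1' : energy (v 0) ≤ M ^ 2) (hM2' : dsq (v 0) * L ≤ M ^ 2) (hR : 1 ≤ R)
    (hclose : 7 * Real.sqrt C7 * (R ^ 3 * Real.sqrt ((ε ^ 2 + 72 * ε * M ^ 2 * T) * L)
      + R ^ (-(1 / 4) : ℝ) * (6 * M)) < 1)
    {τ : ℝ} (hτ : τ ∈ Ico 0 T) (hτc : ∀ t ∈ Ioo 0 τ, Close (u t) (v t)) :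
    Close (u τ) (v τ) ∧ dsq (u τ) ≤ M ^ 2 := by
  have hε0 : 0 ≤ ε := (abs_nonneg _).trans hε
  have hLM : ∀ v0, 0 ≤ v0 → v0 * L ≤ M ^ 2 → ∀ t, 0 ≤ t → t ≤ T →
      v0 * Real.exp (41310 * ∫ s in (0 : ℝ)..t, γ s) ≤ M ^ 2 := by
    intro v0 h0 h1 t ht0 htT
    have h2 : Real.exp (41310 * ∫ s in (0 : ℝ)..t, γ s) ≤ L := by
      refine le_trans (Real.exp_le_exp.2 ?_) hL
      have := int_mono hγ0 hγi ht0 htT
      linarith
    exact (mul_le_mul_of_nonneg_left h2 h0).trans h1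
  -- the bounds
  have hB : ∀ {κ : ℝ} (_ : 0 ≤ κ) {a : ℝ → V → V} {r : ℝ → V → ℝ} (_ : IsSol κ T a r)
      (_ : energy (a 0) ≤ M ^ 2) (_ : dsq (a 0) * L ≤ M ^ 2)
      (_ : ∀ s ∈ Ioo 0 τ, StrainLE (a s) (γ s)), ∀ t, 0 ≤ t → t ≤ τ → BdM (a t) M := by
    intro κ hκ a r ha hM1 hM2 hst t ht0 htτ
    have htT : t < T := htτ.trans_lt hτ.2
    have hI : t ∈ Ico 0 T := ⟨ht0, htT⟩
    refine ⟨fun i => ha.sp hI i, hM, (energy_le_u hκ ha hI).trans hM1, ?_⟩
    refine le_trans ?_ (hLM (dsq (a 0)) (dsq_nonneg _) hM2 t ht0 htT.le)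
    refine gron (D := fun s => -(2 * κ * fourth (fun i y => a s y i)) - 2 * Q3 (cv (fun i y => a s y i)
        (fun i y => a s y i)) (fun i y => a s y i)) (g := fun s => 41310 * γ s) ht0
      (fun s => dsq_nonneg _) ((dsq_continuousOn ha).mono (Icc_subset_Ico_right htT))
      (fun s hs => dsq_hasDerivAt ha ⟨hs.1, hs.2.trans htT⟩)
      (fun s _ => mul_nonneg (by norm_num) (hγ0 s))
      ((hγi.mono_set (Icc_subset_Icc_right htT.le)).const_mul _) ?_ fun s hs => ?_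
    · rw [intervalIntegral.integral_const_mul]
    · have hs' : s ∈ Ioo 0 T := ⟨hs.1, hs.2.trans htT⟩
      exact dsq_rate_u hκ ha hs' (hst s ⟨hs.1, hs.2.trans_le htτ⟩)
  have hτT : ∀ s ∈ Ioo 0 τ, s ∈ Ioo 0 T := fun s hs => ⟨hs.1, hs.2.trans hτ.2⟩
  have hBu := hB hν h hM1 hM2 fun s hs => (hcl s (hτT s hs) (hτc s hs)).1
  have hBv := hB hμ hv hM1' hM2' fun s hs => (hcl s (hτT s hs) (hτc s hs)).2
  -- the difference
  set r : ℝ := 72 * ε * M ^ 2 with hr
  have hr0 : 0 ≤ r := by positivity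
  have hws : ∀ i, ContDiffOn ℝ ∞ (fun z : ℝ × V => (fun s y => u s y - v s y) z.1 z.2 i)
      (Ico 0 T ×ˢ univ) := fun i => (h.smooth_c i).sub (hv.smooth_c i)
  have hy : energy (fun x => u τ x - v τ x) ≤ (ε ^ 2 + r * T) * L := by
    have k1 := gron_src (y := fun s => energy (fun x => u s x - v s x))
      (D := fun s => 2 * ∑ i, ∫ x in cube, H459R3.NS.dt (fun s y => u s y i - v s y i) s x
        * (u s x i - v s x i)) (g := fun s => 6 * γ s) (B := 41310 * ∫ s in (0 : ℝ)..T, γ s)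
      hτ.1 hr0 (fun s => energy_nonneg _)
      ((en_cont (f := fun s y => u s y - v s y) hws).mono (Icc_subset_Ico_right hτ.2))
      (fun s hs => en_hasDerivAt (f := fun s y => u s y - v s y) hws ⟨hs.1, hs.2.trans hτ.2⟩)
      (fun s _ => mul_nonneg (by norm_num) (hγ0 s))
      ((hγi.mono_set (Icc_subset_Icc_right hτ.2.le)).const_mul _) ?_ fun s hs => ?_
    · refine k1.trans ?_
      have k3 : r * τ ≤ r * T := mul_le_mul_of_nonneg_left hτ.2.le hr0
      have k4 : 0 ≤ energy (fun x => u 0 x - v 0 x) + r * τ :=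
        add_nonneg (energy_nonneg _) (mul_nonneg hr0 hτ.1)
      refine mul_le_mul (add_le_add h0 k3) hL (Real.exp_pos _).le ?_
      exact k4.trans (add_le_add h0 k3)
    · rw [intervalIntegral.integral_const_mul]
      have q1 := int_mono hγ0 hγi hτ.1 hτ.2.le
      have q2 : 0 ≤ ∫ s in (0 : ℝ)..τ, γ s :=
        intervalIntegral.integral_nonneg hτ.1 fun s _ => hγ0 s
      linarith
    · exact near_rate hμ h hv (hτT s hs) (hcl s (hτT s hs) (hτc s hs)).2 hε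
        (hBu s hs.1.le hs.2.le) (hBv s hs.1.le hs.2.le)
  have hbu := hBu τ hτ.1 le_rfl
  refine ⟨fun x i j => ?_, hbu.2.2.2⟩
  exact (grad_le hbu (hBv τ hτ.1 le_rfl) hy hR x i j).trans_lt hclose

/-- the abstract continuity argument -/
theorem first_time {T : ℝ} {u v : ℝ → V → V}
    (hu : ∀ i, ContDiffOn ℝ ∞ (fun z : ℝ × V => u z.1 z.2 i) (Ico 0 T ×ˢ univ))
    (hv : ∀ i, ContDiffOn ℝ ∞ (fun z : ℝ × V => v z.1 z.2 i) (Ico 0 T ×ˢ univ))
    (hsu : ∀ t ∈ Ico 0 T, ∀ i, SP (fun y => u t y i))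
    (hsv : ∀ t ∈ Ico 0 T, ∀ i, SP (fun y => v t y i)) {P : ℝ → Prop}
    (key : ∀ {τ : ℝ}, τ ∈ Ico 0 T → (∀ t ∈ Ioo 0 τ, Close (u t) (v t)) →
      Close (u τ) (v τ) ∧ P τ) : ∀ t ∈ Ico 0 T, Close (u t) (v t) ∧ P t := by
  have all : ∀ t ∈ Ico 0 T, Close (u t) (v t) := by
    intro t1 ht1
    by_contra hcon
    set F : Fin 3 → Fin 3 → ℝ × V → ℝ := fun i j z => pd j (fun y => u z.1 y i - v z.1 y i) z.2
      with hF
    have hFc : ∀ i j, ContinuousOn (F i j) (Ico 0 T ×ˢ univ) := by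
      intro i j
      exact (contDiffOn_pd (f := fun s y => u s y i - v s y i)
        ((hu i).sub (hv i)) j).continuousOn
    have hK : IsCompact (Icc 0 t1 ×ˢ cube : Set (ℝ × V)) := isCompact_Icc.prod isCompact_Icc
    have hKs : (Icc 0 t1 ×ˢ cube : Set (ℝ × V)) ⊆ Ico 0 T ×ˢ univ :=
      prod_mono (Icc_subset_Ico_right ht1.2) (subset_univ _)
    have hZ : ∀ i j, IsCompact (Prod.fst '' ((Icc 0 t1 ×ˢ cube : Set (ℝ × V)) ∩
        {z | 1 ≤ |F i j z|})) := by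
      intro i j
      refine IsCompact.image ?_ continuous_fst
      have h1 : ContinuousOn (fun z => |F i j z|) (Icc 0 t1 ×ˢ cube : Set (ℝ × V)) :=
        ((hFc i j).mono hKs).abs
      have h2 := h1.preimage_isClosed_of_isClosed hK.isClosed (isClosed_Ici (a := (1 : ℝ)))
      exact hK.of_isClosed_subset h2 inter_subset_left
    set Z : Set ℝ := ⋃ i, ⋃ j, Prod.fst '' ((Icc 0 t1 ×ˢ cube : Set (ℝ × V)) ∩
        {z | 1 ≤ |F i j z|}) with hZd
    have hZc : IsCompact Z := isCompact_iUnion fun i => isCompact_iUnion fun j => hZ i j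
    have hmem : ∀ t ∈ Icc 0 t1, ¬Close (u t) (v t) → t ∈ Z := by
      intro t ht hnc
      unfold Close at hnc
      push Not at hnc
      obtain ⟨x, i, j, hx⟩ := hnc
      have htI : t ∈ Ico 0 T := ⟨ht.1, ht.2.trans_lt ht1.2⟩
      have hsp : SP (fun y => u t y i - v t y i) := SP.sub (hsu t htI i) (hsv t htI i)
      obtain ⟨y, hy, hyx⟩ := Per.exists_cube (hsp.pd j).per x
      refine mem_iUnion.2 ⟨i, mem_iUnion.2 ⟨j, ⟨(t, y), ⟨⟨ht, hy⟩, ?_⟩, rfl⟩⟩⟩
      show 1 ≤ |pd j (fun y => u t y i - v t y i) y|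
      rw [hyx]
      exact hx
    obtain ⟨τ, hτZ, hτm⟩ := hZc.exists_isLeast ⟨t1, hmem t1 ⟨ht1.1, le_rfl⟩ hcon⟩
    obtain ⟨i, hi⟩ := mem_iUnion.1 hτZ
    obtain ⟨j, hj⟩ := mem_iUnion.1 hi
    obtain ⟨z, ⟨hz1, hz2⟩, hz3⟩ := hj
    have hτ1 : τ ∈ Icc 0 t1 := hz3 ▸ hz1.1
    have hτT : τ ∈ Ico 0 T := ⟨hτ1.1, hτ1.2.trans_lt ht1.2⟩
    have hc := (key hτT fun t ht => by
      by_contra hnc
      have := hτm (hmem t ⟨ht.1.le, ht.2.le.trans hτ1.2⟩ hnc)
      exact absurd ht.2 (not_lt.2 this)).1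
    have := hc z.2 i j
    have h3 : 1 ≤ |F i j z| := hz2
    simp only [hF, hz3] at h3
    exact absurd this (not_lt.2 h3)
  exact fun t ht => key ht fun s hs => all s ⟨hs.1.le, hs.2.trans ht.2⟩

theorem closes2 {ε z Q L0 T : ℝ} (hz : 1 ≤ z) (hε : ε = 1 / z ^ 64) (hQ : 1 ≤ Q)
    (hL0 : 0 ≤ L0) (hT : 0 ≤ T)
    (hlarge : 7 * Real.sqrt C7 * (Real.sqrt ((1 + 72 * T) * Q ^ 2 * L0) + 6 * Q) < z) :
    7 * Real.sqrt C7 * ((z ^ 8) ^ 3 * Real.sqrt ((ε ^ 2 + 72 * ε * (Q * z) ^ 2 * T) * (L0 * z))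
      + (z ^ 8) ^ (-(1 / 4) : ℝ) * (6 * (Q * z))) < 1 := by
  have hz0 : 0 < z := by linarith
  set C1 : ℝ := (1 + 72 * T) * Q ^ 2 * L0 with hC1
  have hC10 : 0 ≤ C1 := by positivity
  have e1 : (z ^ 8) ^ (-(1 / 4) : ℝ) = 1 / z ^ 2 := by
    rw [Real.rpow_neg (by positivity), ← Real.rpow_natCast z 8, ← Real.rpow_mul hz0.le]
    norm_num
  have h1 : (ε ^ 2 + 72 * ε * (Q * z) ^ 2 * T) * (L0 * z) ≤ (Real.sqrt C1 / z ^ 30) ^ 2 := by
    rw [div_pow, Real.sq_sqrt hC10, hε]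
    have k1 : (1 / z ^ 64) ^ 2 ≤ 1 / z ^ 64 * (Q * z) ^ 2 := by
      rw [sq (1 / z ^ 64)]
      have a1 : 1 / z ^ 64 ≤ 1 := by
        rw [div_le_one (by positivity)]
        exact one_le_pow₀ hz
      have a2 : 1 ≤ (Q * z) ^ 2 := one_le_pow₀ (one_le_mul_of_one_le_of_one_le hQ hz)
      exact mul_le_mul_of_nonneg_left (a1.trans a2) (by positivity)
    have k2 : (1 / z ^ 64) ^ 2 + 72 * (1 / z ^ 64) * (Q * z) ^ 2 * T
        ≤ (1 + 72 * T) * (1 / z ^ 64 * (Q * z) ^ 2) := by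
      refine (add_le_add k1 le_rfl).trans (le_of_eq ?_)
      ring
    calc _ ≤ (1 + 72 * T) * (1 / z ^ 64 * (Q * z) ^ 2) * (L0 * z) :=
          mul_le_mul_of_nonneg_right k2 (by positivity)
      _ = C1 / z ^ 61 := by
          rw [hC1]
          field_simp
      _ ≤ C1 / (z ^ 30) ^ 2 := by
          rw [← pow_mul]
          exact div_le_div_of_nonneg_left hC10 (by positivity) (pow_le_pow_right₀ hz (by norm_num))
  have h2 : Real.sqrt ((ε ^ 2 + 72 * ε * (Q * z) ^ 2 * T) * (L0 * z)) ≤ Real.sqrt C1 / z ^ 30 :=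
    Real.sqrt_le_iff.2 ⟨by positivity, h1⟩
  have h3 : (z ^ 8) ^ 3 * Real.sqrt ((ε ^ 2 + 72 * ε * (Q * z) ^ 2 * T) * (L0 * z))
      ≤ Real.sqrt C1 / z := by
    refine (mul_le_mul_of_nonneg_left h2 (by positivity)).trans ?_
    rw [← pow_mul, mul_div_assoc', div_le_div_iff₀ (by positivity) hz0]
    have a : z ^ (8 * 3) * z ≤ z ^ 30 := by
      rw [← pow_succ]
      exact pow_le_pow_right₀ hz (by norm_num)
    calc z ^ (8 * 3) * Real.sqrt C1 * z = Real.sqrt C1 * (z ^ (8 * 3) * z) := by ring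
      _ ≤ Real.sqrt C1 * z ^ 30 := by gcongr
  have h4 : (z ^ 8) ^ (-(1 / 4) : ℝ) * (6 * (Q * z)) ≤ 6 * Q / z := by
    rw [e1, one_div_mul_eq_div, div_le_div_iff₀ (by positivity) hz0]
    calc 6 * (Q * z) * z = 6 * Q * z ^ 2 := by ring
      _ ≤ 6 * Q * z ^ 2 := le_rfl
  calc _ ≤ 7 * Real.sqrt C7 * (Real.sqrt C1 / z + 6 * Q / z) := by gcongr
    _ = 7 * Real.sqrt C7 * (Real.sqrt C1 + 6 * Q) / z := by ring
    _ < 1 := by rwa [div_lt_one hz0]

theorem IsSol.restrict {ν T T' : ℝ} {u : ℝ → V → V} {p : ℝ → V → ℝ} (h : IsSol ν T u p)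
    (hT : T' ≤ T) : IsSol ν T' u p where
  smooth_u := h.smooth_u.mono (prod_mono (Ico_subset_Ico_right hT) Subset.rfl)
  smooth_p := h.smooth_p.mono (prod_mono (Ico_subset_Ico_right hT) Subset.rfl)
  per_u := fun t ht => h.per_u t ⟨ht.1, ht.2.trans_le hT⟩
  per_p := fun t ht => h.per_p t ⟨ht.1, ht.2.trans_le hT⟩
  divfree := fun t ht => h.divfree t ⟨ht.1, ht.2.trans_le hT⟩
  momentum := fun t ht => h.momentum t ⟨ht.1, ht.2.trans_le hT⟩

theorem energy_tri {u v : V → V} (hu : ∀ i, SP (fun y => u y i)) (hv : ∀ i, SP (fun y => v y i)) :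
    energy v ≤ 2 * energy u + 2 * energy (fun x => u x - v x) := by
  unfold energy
  rw [Finset.mul_sum, Finset.mul_sum, ← Finset.sum_add_distrib]
  refine Finset.sum_le_sum fun i _ => ?_
  have cu := (hu i).cont
  have cv := (hv i).cont
  rw [← integral_const_mul, ← integral_const_mul, ← integral_add
    (integrableOn_cube (by fun_prop)) (integrableOn_cube (by
      simp only [Pi.sub_apply]
      fun_prop))]
  refine integral_mono (integrableOn_cube (by fun_prop)) (integrableOn_cube (by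
      simp only [Pi.sub_apply]
      fun_prop)) fun x => ?_
  simp only [Pi.sub_apply]
  nlinarith [sq_nonneg (2 * u x i - v x i)]

/-- the common part of both cases -/
theorem core2 {ν T : ℝ} (hν : 0 ≤ ν) (hT : 0 < T) {u : ℝ → V → V} {p : ℝ → V → ℝ}
    (h : IsSol ν T u p) {L0 : ℝ} (hL0 : 1 ≤ L0) :
    ∃ δ : ℝ, 0 < δ ∧ δ ≤ 1 ∧ ∀ ε, 0 < ε → ε ≤ δ → ∃ M : ℝ, ∀ (μ T' : ℝ) (v : ℝ → V → V)
      (q : ℝ → V → ℝ), 0 ≤ μ → 0 < T' → T' ≤ T → IsSol μ T' v q → |μ - ν| ≤ ε →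
      energy (fun x => u 0 x - v 0 x) ≤ ε ^ 2 → dsq (v 0) ≤ (1 / ε) ^ (1 / 64 : ℝ) →
      ∀ γ : ℝ → ℝ, (∀ t, 0 ≤ γ t) → IntegrableOn γ (Icc 0 T') →
      (∀ t ∈ Ioo 0 T', Close (u t) (v t) → StrainLE (u t) (γ t) ∧ StrainLE (v t) (γ t)) →
      Real.exp (41310 * ∫ s in (0 : ℝ)..T', γ s) ≤ L0 * (1 / ε) ^ (1 / 64 : ℝ) →
      ∀ t ∈ Ico 0 T', Close (u t) (v t) ∧ dsq (u t) ≤ M ^ 2 := by
  set P : ℝ := 2 * energy (u 0) + dsq (u 0) + 3 with hP
  have hE0 := energy_nonneg (u 0)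
  have hD0 := dsq_nonneg (u 0)
  have hP1 : 1 ≤ P := by linarith
  set Q : ℝ := P * L0 with hQ
  have hQ1 : 1 ≤ Q := one_le_mul_of_one_le_of_one_le hP1 hL0
  set Z : ℝ := 7 * Real.sqrt C7 * (Real.sqrt ((1 + 72 * T) * Q ^ 2 * L0) + 6 * Q) with hZ
  have hZ0 : 0 ≤ Z := by positivity
  have hδ : 0 < 1 / (Z + 1) ^ 64 := by positivity
  refine ⟨1 / (Z + 1) ^ 64, hδ, ?_, fun ε hε hεδ => ?_⟩
  · rw [div_le_one (by positivity)]
    exact one_le_pow₀ (by linarith)
  set z : ℝ := (1 / ε) ^ (1 / 64 : ℝ) with hz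
  have hzn : 1 / ε = z ^ 64 := by
    rw [hz, ← Real.rpow_natCast, ← Real.rpow_mul (by positivity)]
    norm_num
  have hεz : ε = 1 / z ^ 64 := by rw [← hzn, one_div_one_div]
  have hz0 : 0 ≤ z := by positivity
  have hzm : Z + 1 ≤ z := by
    have h1 : (Z + 1) ^ 64 ≤ z ^ 64 := by
      rw [← hzn, le_div_iff₀ hε]
      rwa [le_div_iff₀ (by positivity), mul_comm] at hεδ
    exact (pow_le_pow_iff_left₀ (by positivity) hz0 (by norm_num)).1 h1
  have hz1 : 1 ≤ z := by linarith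
  have hzZ : Z < z := by linarith
  have hε1 : ε ≤ 1 := by
    rw [hεz, div_le_one (by positivity)]
    exact one_le_pow₀ hz1
  refine ⟨Q * z, fun μ T' v q hμ hT' hTT hv hνμ h0 hd γ hγ0 hγi hcl hL => ?_⟩
  have hQz : 1 ≤ Q * z := one_le_mul_of_one_le_of_one_le hQ1 hz1
  have h' := IsSol.restrict h hTT
  have h00 : (0 : ℝ) ∈ Ico 0 T' := ⟨le_rfl, hT'⟩
  have hPQ : P ≤ Q * z := by
    calc P = P * 1 * 1 := by ring
      _ ≤ P * L0 * z := by gcongr
  have hsq : Q * z ≤ (Q * z) ^ 2 := by nlinarith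
  have hvE : energy (v 0) ≤ P := by
    have h1 := energy_tri (fun i => h'.sp h00 i) (fun i => hv.sp h00 i)
    have h2 : ε ^ 2 ≤ 1 := pow_le_one₀ hε.le hε1
    linarith
  refine first_time h'.smooth_c hv.smooth_c (fun t ht i => h'.sp ht i) (fun t ht i => hv.sp ht i)
    (P := fun t => dsq (u t) ≤ (Q * z) ^ 2) fun {τ} hτ hc =>
      claim2 hν hμ h' hv hνμ h0 hγ0 hγi hcl (L := L0 * z) (M := Q * z) (R := z ^ 8) hL
    (by positivity) ?_ ?_ ?_ ?_ (one_le_pow₀ hz1) ?_ hτ hc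
  · linarith
  · refine le_trans ?_ hsq
    have : dsq (u 0) ≤ P := by linarith
    calc dsq (u 0) * (L0 * z) ≤ P * (L0 * z) := by gcongr
      _ = Q * z := by rw [hQ]; ring
  · linarith
  · have h1 : 1 ≤ Q * z := hQz
    have h2 : 1 ≤ P * P * L0 :=
      one_le_mul_of_one_le_of_one_le (one_le_mul_of_one_le_of_one_le hP1 hP1) hL0
    calc dsq (v 0) * (L0 * z) ≤ z * (L0 * z) := by gcongr
      _ = 1 * (L0 * z ^ 2) := by ring
      _ ≤ P * P * L0 * (L0 * z ^ 2) := by gcongr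
      _ = (Q * z) ^ 2 := by rw [hQ]; ring
  · refine lt_of_le_of_lt ?_ (closes2 hz1 hεz hQ1 (by linarith) hT.le hzZ)
    gcongr

/-- regular case -/
theorem near_reg {ν T : ℝ} (hν : 0 ≤ ν) (hT : 0 < T) {u : ℝ → V → V} {p : ℝ → V → ℝ}
    (h : IsSol ν T u p) {D : ℝ} (hD : ∀ t ∈ Ico 0 T, dsq (u t) ≤ D) :
    ∃ G δ : ℝ, 0 < δ ∧ ∀ ε, 0 < ε → ε ≤ δ → ∀ (μ T' : ℝ) (v : ℝ → V → V) (q : ℝ → V → ℝ),
      0 ≤ μ → 0 < T' → T' ≤ T → IsSol μ T' v q → |μ - ν| ≤ ε →
      energy (fun x => u 0 x - v 0 x) ≤ ε ^ 2 → dsq (v 0) ≤ (1 / ε) ^ (1 / 64 : ℝ) →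
      ∀ t ∈ Ico 0 T', ∀ x i j, |pd j (fun y => v t y i) x| ≤ G := by
  obtain ⟨G, hG0, hG⟩ := grad_bound hν h (s := Ico 0 T) Subset.rfl hD
  set L0 : ℝ := Real.exp (41310 * ((G + 1) * T)) with hL0
  have hL01 : 1 ≤ L0 := Real.one_le_exp (by positivity)
  obtain ⟨δ, hδ0, hδ1, hδ⟩ := core2 hν hT h hL01
  refine ⟨G + 1, δ, hδ0, fun ε hε hεδ μ T' v q hμ hT' hTT hv hνμ h0 hd t ht x i j => ?_⟩
  obtain ⟨M, hM⟩ := hδ ε hε hεδ
  have hz1 : 1 ≤ (1 / ε) ^ (1 / 64 : ℝ) :=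
    Real.one_le_rpow ((one_le_div hε).2 (hεδ.trans hδ1)) (by norm_num)
  have htT : t ∈ Ico 0 T := ⟨ht.1, ht.2.trans_le hTT⟩
  have h1 := (hM μ T' v q hμ hT' hTT hv hνμ h0 hd (fun _ => G + 1)
    (fun _ => by positivity) (continuousOn_const.integrableOn_Icc) (fun s hs hc => ?_) ?_ t ht).1
  · have h2 := abs_lt.1 (pd_close (fun i => h.sp htT i) (fun i => hv.sp ht i) h1 x i j)
    have h3 := abs_le.1 (hG t htT x i j)
    rw [abs_le]
    constructor <;> linarith [h2.1, h2.2, h3.1, h3.2]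
  · have hI : s ∈ Ico 0 T := ⟨hs.1.le, hs.2.trans_le hTT⟩
    have hI' : s ∈ Ico 0 T' := ⟨hs.1.le, hs.2⟩
    have h2 : StrainLE (u s) G := strain_of_grad (hG s hI)
    exact ⟨h2.mono (by linarith),
      (strain_close (fun i => h.sp hI i) (fun i => hv.sp hI' i) hc).1 h2⟩
  · rw [intervalIntegral.integral_const, sub_zero, smul_eq_mul, mul_comm T']
    calc Real.exp (41310 * ((G + 1) * T')) ≤ Real.exp (41310 * ((G + 1) * T)) := by
          refine Real.exp_le_exp.2 ?_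
          gcongr
      _ = L0 * 1 := by rw [mul_one]
      _ ≤ L0 * (1 / ε) ^ (1 / 64 : ℝ) := by gcongr

/-- singular case -/
theorem near_sing {ν T : ℝ} (hν : 0 ≤ ν) {u : ℝ → V → V} {p : ℝ → V → ℝ}
    (h : IsSol ν T u p) (hD : ¬∃ D : ℝ, ∀ t ∈ Ico 0 T, dsq (u t) ≤ D) {s : ℝ} (hs : s ∈ Ico 0 T) :
    ∃ δ : ℝ, 0 < δ ∧ ∀ ε, 0 < ε → ε ≤ δ → ∀ (μ : ℝ) (v : ℝ → V → V) (q : ℝ → V → ℝ), 0 ≤ μ →
      IsSol μ T v q → |μ - ν| ≤ ε → energy (fun x => u 0 x - v 0 x) ≤ ε ^ 2 →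
      dsq (v 0) ≤ (1 / ε) ^ (1 / 64 : ℝ) →
      ∀ β : ℝ → ℝ, IntegrableOn β (Ioo s T) → (∀ t ∈ Ioo s T, StrainLE (v t) (β t)) →
      1 / 2643840 * Real.log (1 / ε) ≤ ∫ t in s..T, β t := by
  have hT : 0 < T := hs.1.trans_lt hs.2
  -- bound up to the time s
  obtain ⟨t0, ht0, ht0m⟩ := isCompact_Icc.exists_isMaxOn (nonempty_Icc.2 hs.1)
    ((dsq_continuousOn h).mono (Icc_subset_Ico_right hs.2))
  obtain ⟨G, hG0, hG⟩ := grad_bound hν h (s := Icc 0 s) (Icc_subset_Ico_right hs.2)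
    (D := dsq (u t0)) fun t ht => ht0m ht
  set L0 : ℝ := Real.exp (41310 * ((G + 1) * T)) with hL0
  have hL01 : 1 ≤ L0 := Real.one_le_exp (by positivity)
  obtain ⟨δ, hδ0, hδ1, hδ⟩ := core2 hν hT h hL01
  refine ⟨δ, hδ0, fun ε hε hεδ μ v q hμ hv hνμ h0 hd β hβi hβ => ?_⟩
  by_contra hcon
  push Not at hcon
  obtain ⟨M, hM⟩ := hδ ε hε hεδ
  refine hD ⟨M ^ 2, fun t ht => ?_⟩
  have hβ0 : ∀ t ∈ Ioo s T, 0 ≤ β t := fun t ht => (abs_nonneg _).trans (hβ t ht 0 0 0)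
  set γ : ℝ → ℝ := fun t => (G + 1) + (Ioo s T).indicator β t with hγ
  have hγ0 : ∀ t, 0 ≤ γ t := fun t => add_nonneg (by positivity)
    (indicator_nonneg hβ0 t)
  have hind : Integrable ((Ioo s T).indicator β) := (integrable_indicator_iff measurableSet_Ioo).2 hβi
  have hγi : IntegrableOn γ (Icc 0 T) :=
    (continuousOn_const.integrableOn_Icc).add hind.integrableOn
  refine (hM μ T v q hμ hT le_rfl hv hνμ h0 hd γ hγ0 hγi
    (fun r hr hc => ?_) ?_ t ht).2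
  · have hI : r ∈ Ico 0 T := ⟨hr.1.le, hr.2⟩
    obtain ⟨c1, c2⟩ := strain_close (s := G) (fun i => h.sp hI i) (fun i => hv.sp hI i) hc
    obtain ⟨c3, c4⟩ := strain_close (s := β r) (fun i => h.sp hI i) (fun i => hv.sp hI i) hc
    by_cases hrs : r ≤ s
    · have h2 : StrainLE (u r) G := strain_of_grad (hG r ⟨hr.1.le, hrs⟩)
      have h3 : (Ioo s T).indicator β r = 0 :=
        indicator_of_notMem (fun hm => absurd hm.1 (not_lt.2 hrs)) β
      have h4 : γ r = G + 1 := by simp only [hγ, h3, add_zero]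
      rw [h4]
      exact ⟨h2.mono (by linarith), c1 h2⟩
    · have hm : r ∈ Ioo s T := ⟨not_le.1 hrs, hr.2⟩
      have h4 : γ r = (G + 1) + β r := by simp only [hγ, indicator_of_mem hm]
      rw [h4]
      exact ⟨(c4 (hβ r hm)).mono (by linarith), (hβ r hm).mono (by linarith)⟩
  · have e1 : ∫ r in (0 : ℝ)..T, γ r = (G + 1) * T + ∫ r in s..T, β r := by
      have i1 : IntervalIntegrable (fun _ : ℝ => G + 1) volume 0 T := intervalIntegrable_const
      have i2 : IntervalIntegrable ((Ioo s T).indicator β) volume 0 T :=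
        hind.intervalIntegrable
      rw [hγ, intervalIntegral.integral_add i1 i2, intervalIntegral.integral_const, sub_zero,
        smul_eq_mul, mul_comm T]
      congr 1
      rw [intervalIntegral.integral_of_le hT.le, intervalIntegral.integral_of_le hs.2.le,
        setIntegral_indicator measurableSet_Ioo]
      have e2 : Ioc 0 T ∩ Ioo s T = Ioo s T :=
        inter_eq_self_of_subset_right fun r hr => ⟨hs.1.trans_lt hr.1, hr.2.le⟩
      rw [e2, integral_Ioc_eq_integral_Ioo]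
    rw [e1]
    have e3 : L0 * (1 / ε) ^ (1 / 64 : ℝ)
        = Real.exp (41310 * ((G + 1) * T + 1 / 2643840 * Real.log (1 / ε))) := by
      rw [hL0, Real.rpow_def_of_pos (by positivity), ← Real.exp_add]
      congr 1
      ring
    rw [e3]
    refine Real.exp_le_exp.2 ?_
    linarith

end Pool.Agent.Q62.GD
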