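import Pool.Agent.Q62.GD.Near

/-!
Samples of the velocity with a given resolution.
-/

set_option autoImplicit false

open MeasureTheory Set Filter Topology
open scoped ContDiff

namespace Pool.Agent.Q62.GD

open H459R3.NS H459R3.EU Pool.Agent.TH340.PS

theorem lap_pd_le (v : V → V) (hv : ∀ i, SP (fun y => v y i)) (i j : Fin 3) :
    nrm (lap (pd j (fun y => v y i))) ≤ 3 * Real.sqrt (dsq v) := by
  have e : lap (pd j (fun y => v y i)) = fun x => ∑ k, d3 k k j (fun y => v y i) x := rfl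
  rw [e]
  refine (nrm_sum_le fun k => (sp_d3 (hv i) k k j).cont).trans ?_
  refine (Finset.sum_le_sum fun k _ => nrm_le_third v i k k j).trans (le_of_eq ?_)
  simp

/-- the gradient is bounded by difference quotients on a net -/
theorem grad_of_diff {v : V → V} {M : ℝ} (hv : BdM v M) {r b : ℝ} (hr : 0 < r) {X : Set V}
    (hX : ∀ y : V, ∃ x ∈ X, ∀ i, |y i - x i| ≤ r)
    (hb : ∀ x ∈ X, ∀ i j, |v (x + Pi.single j r) i - v x i| ≤ r * b) (y : V) (i j : Fin 3) :
    |pd j (fun z => v z i) y| ≤ b + 18 * Real.sqrt C7 * ((2 * r) ^ (1 / 4 : ℝ) * M) := by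
  obtain ⟨x, hxX, hxy⟩ := hX y
  set f : V → ℝ := fun z => v z i with hf
  have hsp : SP f := hv.1 i
  -- mean value theorem
  set g : ℝ → ℝ := fun τ => f (x + τ • (Pi.single j (1 : ℝ) : V)) with hg
  have hd : ∀ τ : ℝ, HasDerivAt g (pd j f (x + τ • (Pi.single j (1 : ℝ) : V))) τ := by
    intro τ
    have h2 : HasDerivAt (fun τ : ℝ => x + τ • (Pi.single j (1 : ℝ) : V))
        (Pi.single j (1 : ℝ)) τ := by
      simpa using ((hasDerivAt_id τ).smul_const (Pi.single j (1 : ℝ) : V)).const_add x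
    exact (hsp.smooth.differentiable (by simp) _).hasFDerivAt.comp_hasDerivAt τ h2
  obtain ⟨ξ, hξ, hξe⟩ := exists_hasDerivAt_eq_slope g
    (fun τ => pd j f (x + τ • (Pi.single j (1 : ℝ) : V))) hr
    (fun τ _ => (hd τ).continuousAt.continuousWithinAt) (fun τ _ => hd τ)
  have e1 : g r - g 0 = v (x + Pi.single j r) i - v x i := by
    simp only [hg, hf]
    have e2 : r • (Pi.single j (1 : ℝ) : V) = Pi.single j r := by
      rw [← Pi.single_smul]
      simp
    rw [e2, zero_smul, add_zero]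
  have h1 : |pd j f (x + ξ • (Pi.single j (1 : ℝ) : V))| ≤ b := by
    rw [hξe, e1, sub_zero, abs_div, abs_of_pos hr, div_le_iff₀ hr, mul_comm]
    exact hb x hxX i j
  -- Hölder continuity
  set w : V := y - (x + ξ • (Pi.single j (1 : ℝ) : V)) with hw
  have hwb : ∀ k, |w k| ≤ 2 * r := by
    intro k
    have e3 : w k = (y k - x k) - ξ * (Pi.single j (1 : ℝ) : V) k := by
      simp only [hw, Pi.sub_apply, Pi.add_apply, Pi.smul_apply, smul_eq_mul]
      ring
    rw [e3]
    refine (abs_sub _ _).trans ?_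
    have h2 : |ξ * (Pi.single j (1 : ℝ) : V) k| ≤ r := by
      rw [abs_mul, abs_of_pos hξ.1]
      have h3 : |(Pi.single j (1 : ℝ) : V) k| ≤ 1 := by
        by_cases hk : k = j
        · subst hk; simp
        · rw [Pi.single_eq_of_ne hk]; simp
      calc ξ * |(Pi.single j (1 : ℝ) : V) k| ≤ r * 1 :=
            mul_le_mul hξ.2.le h3 (abs_nonneg _) hr.le
        _ = r := mul_one r
    linarith [hxy k]
  have h2 := holder_le (hsp.pd j) (x + ξ • (Pi.single j (1 : ℝ) : V)) (y := w)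
    (r := 2 * r) (by positivity) hwb
  have e4 : x + ξ • (Pi.single j (1 : ℝ) : V) + w = y := by
    rw [hw]
    abel
  rw [e4] at h2
  have h3 := lap_pd_le v hv.1 i j
  have h4 := Real.sqrt_le_iff.2 ⟨hv.2.1, hv.2.2.2⟩
  have h5 : 6 * Real.sqrt C7 * ((2 * r) ^ (1 / 4 : ℝ) * nrm (lap (pd j f)))
      ≤ 18 * Real.sqrt C7 * ((2 * r) ^ (1 / 4 : ℝ) * M) := by
    have h6 : nrm (lap (pd j f)) ≤ 3 * M := by
      refine h3.trans ?_
      linarith
    calc _ ≤ 6 * Real.sqrt C7 * ((2 * r) ^ (1 / 4 : ℝ) * (3 * M)) := by gcongr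
      _ = _ := by ring
  have h6 := abs_le.1 h1
  have h7 := abs_le.1 (h2.trans h5)
  rw [abs_le]
  constructor <;> linarith [h6.1, h6.2, h7.1, h7.2]

/-- change of the velocity in a short time -/
theorem time_diff {ν T : ℝ} (hν : 0 ≤ ν) {u : ℝ → V → V} {p : ℝ → V → ℝ} (h : IsSol ν T u p)
    {M t₀ t : ℝ} (ht₀ : 0 ≤ t₀) (htt : t₀ ≤ t) (htT : t < T)
    (hB : ∀ a ∈ Icc t₀ t, BdM (u a) M) :
    energy (fun x => u t x - u t₀ x)
      ≤ (72 * ν * M ^ 2 + 4032 * (1 + Real.sqrt C7) ^ 2 * M ^ 3) * (t - t₀) := by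
  set K : ℝ := 1 + Real.sqrt C7 with hK
  have hK0 : 0 ≤ K := by have := Real.sqrt_nonneg C7; linarith
  have hM : 0 ≤ M := (hB t₀ ⟨le_rfl, htt⟩).2.1
  set r : ℝ := 72 * ν * M ^ 2 + 4032 * K ^ 2 * M ^ 3 with hr
  have h0I : t₀ ∈ Ico 0 T := ⟨ht₀, htt.trans_lt htT⟩
  have hs0 : ∀ i, SP (fun y => u t₀ y i) := fun i => h.sp h0I i
  have hws : ∀ i, ContDiffOn ℝ ∞ (fun z : ℝ × V => (fun s y => u s y - u t₀ y) z.1 z.2 i)
      (Ico 0 T ×ˢ univ) := fun i =>
    (h.smooth_c i).sub ((hs0 i).smooth.comp_contDiffOn contDiffOn_snd)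
  have hd : ∀ a ∈ Ioo t₀ t, ∃ D : ℝ, HasDerivAt (fun s => energy (fun x => u s x - u t₀ x)) D a
      ∧ D ≤ r := by
    intro a ha
    have haT : a ∈ Ioo 0 T := ⟨ht₀.trans_lt ha.1, ha.2.trans htT⟩
    have haI : a ∈ Ico 0 T := ⟨haT.1.le, haT.2⟩
    refine ⟨_, en_hasDerivAt (f := fun s y => u s y - u t₀ y) hws haT, ?_⟩
    have hsa : ∀ i, SP (fun y => u a y i) := fun i => h.sp haI i
    set w : Fin 3 → V → ℝ := fun i y => u a y i - u t₀ y i with hw
    have hsw : ∀ i, SP (w i) := fun i => SP.sub (hsa i) (hs0 i)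
    have hdw : ∀ x, ∑ i, pd i (w i) x = 0 := by
      intro x
      have e : ∀ i, pd i (w i) x = pd i (fun y => u a y i) x - pd i (fun y => u t₀ y i) x :=
        fun i => congrFun (H459R3.EU.pd_sub (hsa i) (hs0 i) i) x
      simp_rw [e]
      rw [Finset.sum_sub_distrib, h.divfree a haI, h.divfree t₀ h0I, sub_zero]
    have e1 : ∀ i x, H459R3.NS.dt (fun s y => (u s y - u t₀ y) i) a x
        = H459R3.NS.dt (fun s y => u s y i) a x := by
      intro i x
      have : (fun s => (u s x - u t₀ x) i) = fun s => u s x i - u t₀ x i := rfl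
      unfold H459R3.NS.dt
      rw [this]
      exact deriv_sub_const _
    have e2 : ∀ i, ∫ x in cube, H459R3.NS.dt (fun s y => (u s y - u t₀ y) i) a x
          * (u a x - u t₀ x) i
        = ν * (∫ x in cube, lap (fun y => u a y i) x * w i x)
          - (∫ x in cube, H459R3.NS.conv (fun i y => u a y i) i x * w i x)
          - ∫ x in cube, w i x * pd i (p a) x := by
      intro i
      have e : ∀ x, H459R3.NS.dt (fun s y => (u s y - u t₀ y) i) a x * (u a x - u t₀ x) i
          = ν * (lap (fun y => u a y i) x * w i x)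
            - H459R3.NS.conv (fun i y => u a y i) i x * w i x - w i x * pd i (p a) x := by
        intro x
        rw [e1, h.dt_eq haT]
        have : (u a x - u t₀ x) i = w i x := rfl
        rw [this]
        ring
      simp_rw [e]
      have i1 : IntegrableOn (fun x => ν * (lap (fun y => u a y i) x * w i x)) cube :=
        ((hsa i).lap.mul (hsw i)).int.const_mul ν
      have i2 : IntegrableOn (fun x => H459R3.NS.conv (fun i y => u a y i) i x * w i x) cube :=
        ((sp_conv hsa i).mul (hsw i)).int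
      have i3 : IntegrableOn (fun x => w i x * pd i (p a) x) cube :=
        ((hsw i).mul ((h.sp_p haI).pd i)).int
      have i12 : IntegrableOn (fun x => ν * (lap (fun y => u a y i) x * w i x)
          - H459R3.NS.conv (fun i y => u a y i) i x * w i x) cube := i1.sub i2
      rw [integral_sub i12 i3, integral_sub i1 i2, integral_const_mul]
    have e3 : ∑ i, ∫ x in cube, H459R3.NS.dt (fun s y => (u s y - u t₀ y) i) a x
          * (u a x - u t₀ x) i ≤ 36 * ν * M ^ 2 + 2016 * K ^ 2 * M ^ 3 := by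
      simp_rw [e2]
      rw [Finset.sum_sub_distrib, Finset.sum_sub_distrib, int_press hsw hdw (h.sp_p haI), sub_zero]
      have hBa := hB a ⟨ha.1.le, ha.2.le⟩
      have hB0 := hB t₀ ⟨le_rfl, htt⟩
      have hwn : ∀ i, nrm (w i) ≤ 2 * M := by
        intro i
        have e : w i = fun x => u a x i + (fun x => -u t₀ x i) x := by
          funext x
          simp only [hw]
          ring
        have hc := (hs0 i).cont
        rw [e]
        refine (nrm_add_le (hsa i).cont hc.neg).trans ?_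
        have q2 : nrm (-fun x => u t₀ x i) = nrm (fun x => u t₀ x i) := by
          unfold nrm
          congr 1
          congr 1
          funext x
          rw [Pi.neg_apply]
          ring
        rw [q2]
        linarith [hBa.nrm i, hB0.nrm i]
      have b1 : ∀ i ∈ (Finset.univ : Finset (Fin 3)),
          ν * ∫ x in cube, lap (fun y => u a y i) x * w i x ≤ ν * (6 * M * (2 * M)) := by
        intro i _
        refine mul_le_mul_of_nonneg_left ((le_abs_self _).trans
          ((abs_int_mul_le (hsa i).lap.cont (hsw i).cont).trans ?_)) hν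
        have r1 : nrm (lap (fun y => u a y i)) ≤ 6 * M := by
          refine (lap_le (u a) hBa.1 i).trans ?_
          have := Real.sqrt_le_iff.2 ⟨hM, hBa.2.2.2⟩
          linarith
        exact mul_le_mul r1 (hwn i) (nrm_nonneg _) (by positivity)
      have b2 : ∀ i ∈ (Finset.univ : Finset (Fin 3)),
          -(336 * K ^ 2 * M ^ 2 * (2 * M))
            ≤ ∫ x in cube, H459R3.NS.conv (fun i y => u a y i) i x * w i x := by
        intro i _
        refine (neg_le_neg ?_).trans (neg_abs_le _)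
        refine (abs_int_mul_le (sp_conv hsa i).cont (hsw i).cont).trans ?_
        have k1 : nrm (H459R3.NS.conv (fun i y => u a y i) i) ≤ 336 * K ^ 2 * M ^ 2 := by
          refine nrm_le_sup (sp_conv hsa i).cont fun x => ?_
          unfold H459R3.NS.conv
          refine (Finset.abs_sum_le_sum_abs _ _).trans ?_
          have k2 : ∀ j ∈ (Finset.univ : Finset (Fin 3)),
              |u a x j * H459R3.NS.pd j (fun y => u a y i) x| ≤ 4 * K * M * (28 * K * M) := by
            intro j _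
            rw [abs_mul]
            exact mul_le_mul (hBa.val j x) (hBa.pd i j x) (abs_nonneg _) (by positivity)
          refine (Finset.sum_le_sum k2).trans (le_of_eq ?_)
          simp
          ring
        exact mul_le_mul k1 (hwn i) (nrm_nonneg _) (by positivity)
      have c1 := Finset.sum_le_sum b1
      have c2 := Finset.sum_le_sum b2
      simp only [Finset.sum_const, Finset.card_univ, Fintype.card_fin, nsmul_eq_mul] at c1 c2
      push_cast at c1 c2
      linarith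
    have e4 : ∑ i, ∫ x in cube, H459R3.NS.dt (fun s y => (fun s y => u s y - u t₀ y) s y i) a x
          * (fun s y => u s y - u t₀ y) a x i ≤ 36 * ν * M ^ 2 + 2016 * K ^ 2 * M ^ 3 := e3
    linarith
  have hc : ContinuousOn (fun s => energy (fun x => u s x - u t₀ x)) (Icc t₀ t) :=
    (en_cont (f := fun s y => u s y - u t₀ y) hws).mono fun a ha => ⟨ht₀.trans ha.1, ha.2.trans_lt htT⟩
  have h1 := intervalIntegral.sub_le_integral_of_hasDeriv_right_of_le (a := t₀) (b := t)
    (g := fun s => energy (fun x => u s x - u t₀ x))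
    (g' := fun s => deriv (fun s => energy (fun x => u s x - u t₀ x)) s) (φ := fun _ => r)
    htt hc (fun a ha => by
      obtain ⟨D, hD1, _⟩ := hd a ha
      rw [hD1.deriv]
      exact hD1.hasDerivWithinAt) (continuousOn_const.integrableOn_Icc) (fun a ha => by
      obtain ⟨D, hD1, hD2⟩ := hd a ha
      rw [hD1.deriv]
      exact hD2)
  rw [intervalIntegral.integral_const, smul_eq_mul] at h1
  have h2 : energy (fun x => u t₀ x - u t₀ x) = 0 := by
    unfold energy
    simp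
  rw [h2] at h1
  linarith

theorem closes3 {r z Q ν K : ℝ} (hz : 1 ≤ z) (hr : r = 1 / z ^ 64) (hQ : 1 ≤ Q) (hν : 0 ≤ ν)
    (hlarge : 36 * Real.sqrt C7 * Q + 7 * Real.sqrt C7
      * (Real.sqrt ((72 * ν + 4032 * K ^ 2) * Q ^ 3) + 6 * Q) < z) :
    18 * Real.sqrt C7 * ((2 * r) ^ (1 / 4 : ℝ) * (Q * z))
      + 7 * Real.sqrt C7 * ((z ^ 8) ^ 3 * Real.sqrt ((72 * ν * (Q * z) ^ 2
        + 4032 * K ^ 2 * (Q * z) ^ 3) * r) + (z ^ 8) ^ (-(1 / 4) : ℝ) * (6 * (Q * z))) ≤ 1 := by
  have hz0 : 0 < z := by linarith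
  set C1 : ℝ := (72 * ν + 4032 * K ^ 2) * Q ^ 3 with hC1
  have hC10 : 0 ≤ C1 := by positivity
  have hC := Real.sqrt_nonneg C7
  have e1 : (z ^ 8) ^ (-(1 / 4) : ℝ) = 1 / z ^ 2 := by
    rw [Real.rpow_neg (by positivity), ← Real.rpow_natCast z 8, ← Real.rpow_mul hz0.le]
    norm_num
  have h0 : (2 * r) ^ (1 / 4 : ℝ) ≤ 2 / z ^ 2 := by
    have a1 : 2 * r ≤ (2 / z ^ 2) ^ 4 := by
      rw [hr, div_pow, ← pow_mul, mul_one_div, div_le_div_iff₀ (by positivity) (by positivity)]
      have a2 : z ^ (2 * 4) ≤ z ^ 64 := pow_le_pow_right₀ hz (by norm_num)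
      have a3 : 0 ≤ z ^ 64 := by positivity
      nlinarith
    calc (2 * r) ^ (1 / 4 : ℝ) ≤ ((2 / z ^ 2) ^ 4) ^ (1 / 4 : ℝ) :=
          Real.rpow_le_rpow (by rw [hr]; positivity) a1 (by norm_num)
      _ = 2 / z ^ 2 := by
          rw [← Real.rpow_natCast, ← Real.rpow_mul (by positivity)]
          norm_num
  have h1 : (72 * ν * (Q * z) ^ 2 + 4032 * K ^ 2 * (Q * z) ^ 3) * r
      ≤ (Real.sqrt C1 / z ^ 30) ^ 2 := by
    rw [div_pow, Real.sq_sqrt hC10, hr]
    have k1 : 72 * ν * (Q * z) ^ 2 ≤ 72 * ν * (Q * z) ^ 3 := by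
      have : (Q * z) ^ 2 ≤ (Q * z) ^ 3 :=
        pow_le_pow_right₀ (one_le_mul_of_one_le_of_one_le hQ hz) (by norm_num)
      exact mul_le_mul_of_nonneg_left this (by positivity)
    calc _ ≤ (72 * ν * (Q * z) ^ 3 + 4032 * K ^ 2 * (Q * z) ^ 3) * (1 / z ^ 64) := by
          refine mul_le_mul_of_nonneg_right ?_ (by positivity)
          linarith
      _ = C1 / z ^ 61 := by
          rw [hC1]
          field_simp
      _ ≤ C1 / (z ^ 30) ^ 2 := by
          rw [← pow_mul]
          exact div_le_div_of_nonneg_left hC10 (by positivity) (pow_le_pow_right₀ hz (by norm_num))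
  have h2 : Real.sqrt ((72 * ν * (Q * z) ^ 2 + 4032 * K ^ 2 * (Q * z) ^ 3) * r)
      ≤ Real.sqrt C1 / z ^ 30 := Real.sqrt_le_iff.2 ⟨by positivity, h1⟩
  have h3 : (z ^ 8) ^ 3 * Real.sqrt ((72 * ν * (Q * z) ^ 2 + 4032 * K ^ 2 * (Q * z) ^ 3) * r)
      ≤ Real.sqrt C1 / z := by
    refine (mul_le_mul_of_nonneg_left h2 (by positivity)).trans ?_
    rw [← pow_mul, mul_div_assoc', div_le_div_iff₀ (by positivity) hz0]
    have a : z ^ (8 * 3) * z ≤ z ^ 30 := by
      rw [← pow_succ]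
      exact pow_le_pow_right₀ hz (by norm_num)
    calc z ^ (8 * 3) * Real.sqrt C1 * z = Real.sqrt C1 * (z ^ (8 * 3) * z) := by ring
      _ ≤ Real.sqrt C1 * z ^ 30 := by gcongr
  have h4 : (z ^ 8) ^ (-(1 / 4) : ℝ) * (6 * (Q * z)) ≤ 6 * Q / z := by
    rw [e1, one_div_mul_eq_div, div_le_div_iff₀ (by positivity) hz0]
    calc 6 * (Q * z) * z = 6 * Q * z ^ 2 := by ring
      _ ≤ 6 * Q * z ^ 2 := le_rfl
  have h5 : (2 * r) ^ (1 / 4 : ℝ) * (Q * z) ≤ 2 * Q / z := by
    calc (2 * r) ^ (1 / 4 : ℝ) * (Q * z) ≤ 2 / z ^ 2 * (Q * z) := by gcongr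
      _ = 2 * Q / z := by field_simp
  calc _ ≤ 18 * Real.sqrt C7 * (2 * Q / z) + 7 * Real.sqrt C7 * (Real.sqrt C1 / z + 6 * Q / z) := by
        gcongr
    _ = (36 * Real.sqrt C7 * Q + 7 * Real.sqrt C7 * (Real.sqrt C1 + 6 * Q)) / z := by ring
    _ ≤ 1 := by
        rw [div_le_one hz0]
        exact hlarge.le

theorem sampled {ν T : ℝ} (hν : 0 ≤ ν) {u : ℝ → V → V} {p : ℝ → V → ℝ}
    (h : IsSol ν T u p) (hD : ¬∃ D : ℝ, ∀ t ∈ Ico 0 T, dsq (u t) ≤ D) {s : ℝ} (hs : s ∈ Ico 0 T) :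
    ∃ r₀ : ℝ, 0 < r₀ ∧ ∀ r, 0 < r → r ≤ r₀ → ∀ (τ : ℝ → ℝ) (X : ℝ → Set V),
      (∀ t ∈ Ioo s T, 0 ≤ τ t ∧ t - r ≤ τ t ∧ τ t ≤ t) →
      (∀ t ∈ Ioo s T, ∀ y : V, ∃ x ∈ X t, ∀ i, |y i - x i| ≤ r) →
      ∀ β : ℝ → ℝ, IntegrableOn β (Ioo s T) →
      (∀ t ∈ Ioo s T, ∀ x ∈ X t, ∀ i j, |u (τ t) (x + Pi.single j r) i - u (τ t) x i| ≤ r * β t) →
      1 / 2643840 * Real.log (1 / r) ≤ ∫ t in s..T, β t := by
  have hT : 0 < T := hs.1.trans_lt hs.2
  obtain ⟨t0, ht0, ht0m⟩ := isCompact_Icc.exists_isMaxOn (nonempty_Icc.2 hs.1)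
    ((dsq_continuousOn h).mono (Icc_subset_Ico_right hs.2))
  obtain ⟨G, hG0, hG⟩ := grad_bound hν h (s := Icc 0 s) (Icc_subset_Ico_right hs.2)
    (D := dsq (u t0)) fun t ht => ht0m ht
  set L0 : ℝ := Real.exp (41310 * ((G + 1) * T)) with hL0
  have hL01 : 1 ≤ L0 := Real.one_le_exp (by positivity)
  set P : ℝ := energy (u 0) + dsq (u 0) + 2 with hP
  have hE0 := energy_nonneg (u 0)
  have hD0 := dsq_nonneg (u 0)
  have hP1 : 2 ≤ P := by linarith
  set Q : ℝ := P * L0 with hQ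
  have hQ2 : 2 ≤ Q := by
    calc (2 : ℝ) = 2 * 1 := by ring
      _ ≤ P * L0 := by gcongr
  set K : ℝ := 1 + Real.sqrt C7 with hK
  set Z : ℝ := 36 * Real.sqrt C7 * Q + 7 * Real.sqrt C7
    * (Real.sqrt ((72 * ν + 4032 * K ^ 2) * Q ^ 3) + 6 * Q) with hZ
  have hZ0 : 0 ≤ Z := by positivity
  have hr₀ : 0 < 1 / (Z + 1) ^ 64 := by positivity
  refine ⟨1 / (Z + 1) ^ 64, hr₀, fun r hr hrr τ X hτ hX β hβi hβ => ?_⟩
  by_contra hcon
  push Not at hcon
  set z : ℝ := (1 / r) ^ (1 / 64 : ℝ) with hz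
  have hzn : 1 / r = z ^ 64 := by
    rw [hz, ← Real.rpow_natCast, ← Real.rpow_mul (by positivity)]
    norm_num
  have hrz : r = 1 / z ^ 64 := by rw [← hzn, one_div_one_div]
  have hz0 : 0 ≤ z := by positivity
  have hzm : Z + 1 ≤ z := by
    have h1 : (Z + 1) ^ 64 ≤ z ^ 64 := by
      rw [← hzn, le_div_iff₀ hr]
      rwa [le_div_iff₀ (by positivity), mul_comm] at hrr
    exact (pow_le_pow_iff_left₀ (by positivity) hz0 (by norm_num)).1 h1
  have hz1 : 1 ≤ z := by linarith
  have hzZ : Z < z := by linarith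
  set M : ℝ := Q * z with hM
  have hM1 : 1 < M := by nlinarith
  have hM0 : 0 ≤ M := by linarith
  have hsm := closes3 (K := K) hz1 hrz (by linarith : 1 ≤ Q) hν hzZ
  have hM2 : dsq (u 0) * (L0 * z) < M ^ 2 := by
    have h1 : dsq (u 0) * (L0 * z) ≤ P * (L0 * z) := by
      have : dsq (u 0) ≤ P := by linarith
      gcongr
    have h2 : P * (L0 * z) = M := by rw [hM, hQ]; ring
    nlinarith
  have hEM : energy (u 0) ≤ M ^ 2 := by
    have h1 : energy (u 0) ≤ P * (L0 * z) := by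
      have h2 : energy (u 0) ≤ P := by linarith
      have h3 : 1 ≤ L0 * z := one_le_mul_of_one_le_of_one_le hL01 hz1
      nlinarith
    have h2 : P * (L0 * z) = M := by rw [hM, hQ]; ring
    nlinarith
  -- the bound for the strain
  have hβ0 : ∀ t ∈ Ioo s T, 0 ≤ β t := by
    intro t ht
    obtain ⟨x, hx, _⟩ := hX t ht 0
    have h1 := (abs_nonneg _).trans (hβ t ht x hx 0 0)
    exact nonneg_of_mul_nonneg_right h1 hr
  set γ : ℝ → ℝ := fun t => (G + 1) + (Ioo s T).indicator β t with hγ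
  have hγ0 : ∀ t, 0 ≤ γ t := fun t => add_nonneg (by positivity)
    (indicator_nonneg hβ0 t)
  have hind : Integrable ((Ioo s T).indicator β) := (integrable_indicator_iff measurableSet_Ioo).2 hβi
  have hγi : IntegrableOn γ (Icc 0 T) :=
    (continuousOn_const.integrableOn_Icc).add hind.integrableOn
  have hL : Real.exp (41310 * ∫ t in (0 : ℝ)..T, γ t) ≤ L0 * z := by
    have e1 : ∫ r in (0 : ℝ)..T, γ r = (G + 1) * T + ∫ r in s..T, β r := by
      have i1 : IntervalIntegrable (fun _ : ℝ => G + 1) volume 0 T := intervalIntegrable_const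
      have i2 : IntervalIntegrable ((Ioo s T).indicator β) volume 0 T :=
        hind.intervalIntegrable
      rw [hγ, intervalIntegral.integral_add i1 i2, intervalIntegral.integral_const, sub_zero,
        smul_eq_mul, mul_comm T]
      congr 1
      rw [intervalIntegral.integral_of_le hT.le, intervalIntegral.integral_of_le hs.2.le,
        setIntegral_indicator measurableSet_Ioo]
      have e2 : Ioc 0 T ∩ Ioo s T = Ioo s T :=
        inter_eq_self_of_subset_right fun r hr => ⟨hs.1.trans_lt hr.1, hr.2.le⟩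
      rw [e2, integral_Ioc_eq_integral_Ioo]
    rw [e1]
    have e3 : L0 * z = Real.exp (41310 * ((G + 1) * T + 1 / 2643840 * Real.log (1 / r))) := by
      rw [hL0, hz, Real.rpow_def_of_pos (by positivity), ← Real.exp_add]
      congr 1
      ring
    rw [e3]
    refine Real.exp_le_exp.2 ?_
    linarith
  refine hD ⟨M ^ 2, fun t1 ht1 => ?_⟩
  by_contra hbig
  push Not at hbig
  have hcpt : IsCompact (Icc 0 t1 ∩ {a | M ^ 2 ≤ dsq (u a)}) := by
    have h1 : ContinuousOn (fun a => dsq (u a)) (Icc 0 t1) :=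
      (dsq_continuousOn h).mono (Icc_subset_Ico_right ht1.2)
    exact isCompact_Icc.of_isClosed_subset
      (h1.preimage_isClosed_of_isClosed isClosed_Icc (isClosed_Ici (a := M ^ 2))) inter_subset_left
  obtain ⟨t', ht'Z, ht'm⟩ := hcpt.exists_isLeast ⟨t1, ⟨⟨ht1.1, le_rfl⟩, hbig.le⟩⟩
  have ht'1 : t' ∈ Icc 0 t1 := ht'Z.1
  have ht'I : t' ∈ Ico 0 T := ⟨ht'1.1, ht'1.2.trans_lt ht1.2⟩
  have hlow : ∀ a, 0 ≤ a → a < t' → BdM (u a) M := by
    intro a ha0 ha
    have haI : a ∈ Ico 0 T := ⟨ha0, ha.trans ht'I.2⟩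
    refine ⟨fun i => h.sp haI i, hM0, (energy_le_u hν h haI).trans hEM, ?_⟩
    by_contra hc
    push Not at hc
    exact absurd (ht'm ⟨⟨ha0, ha.le.trans ht'1.2⟩, hc.le⟩) (not_le.2 ha)
  have hst : ∀ a ∈ Ioo 0 t', StrainLE (u a) (γ a) := by
    intro a ha
    have haI : a ∈ Ico 0 T := ⟨ha.1.le, ha.2.trans ht'I.2⟩
    by_cases has : a ≤ s
    · have h2 : StrainLE (u a) G := strain_of_grad (hG a ⟨ha.1.le, has⟩)
      refine h2.mono ?_
      have h3 : (Ioo s T).indicator β a = 0 :=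
        indicator_of_notMem (fun hm => absurd hm.1 (not_lt.2 has)) β
      simp only [hγ, h3]
      linarith
    · have hm : a ∈ Ioo s T := ⟨not_le.1 has, haI.2⟩
      obtain ⟨q1, q2, q3⟩ := hτ a hm
      have hb1 : BdM (u (τ a)) M := hlow _ q1 (q3.trans_lt ha.2)
      have hg := grad_of_diff hb1 hr (hX a hm) (hβ a hm)
      have hd := time_diff hν h (M := M) q1 q3 haI.2 fun b hb =>
        hlow b (q1.trans hb.1) (hb.2.trans_lt ha.2)
      have hd' : energy (fun x => u a x - u (τ a) x)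
          ≤ (72 * ν * M ^ 2 + 4032 * K ^ 2 * M ^ 3) * r := by
        refine hd.trans (mul_le_mul_of_nonneg_left (by linarith) ?_)
        positivity
      have hgd := fun x i j => grad_le (hlow a ha.1.le ha.2) hb1 hd' (one_le_pow₀ (n := 8) hz1) x i j
      refine strain_of_grad fun x i j => ?_
      have c1 := hg x i j
      have c2 := hgd x i j
      have e : pd j (fun y => u a y i - u (τ a) y i) x
          = pd j (fun y => u a y i) x - pd j (fun y => u (τ a) y i) x :=
        congrFun (H459R3.EU.pd_sub (h.sp haI i) (hb1.1 i) j) x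
      rw [e] at c2
      have h4 : γ a = (G + 1) + β a := by simp only [hγ, indicator_of_mem hm]
      have c3 := abs_sub_abs_le_abs_sub (pd j (fun y => u a y i) x) (pd j (fun y => u (τ a) y i) x)
      rw [h4]
      linarith
  have hfin : dsq (u t') ≤ dsq (u 0) * Real.exp (41310 * ∫ t in (0 : ℝ)..t', γ t) := by
    refine gron (D := fun s => -(2 * ν * fourth (fun i y => u s y i)) - 2 * Q3 (cv (fun i y => u s y i)
        (fun i y => u s y i)) (fun i y => u s y i)) (g := fun s => 41310 * γ s) ht'1.1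
      (fun s => dsq_nonneg _) ((dsq_continuousOn h).mono (Icc_subset_Ico_right ht'I.2))
      (fun s hs => dsq_hasDerivAt h ⟨hs.1, hs.2.trans ht'I.2⟩)
      (fun s _ => mul_nonneg (by norm_num) (hγ0 s))
      ((hγi.mono_set (Icc_subset_Icc_right ht'I.2.le)).const_mul _) ?_ fun s hs => ?_
    · rw [intervalIntegral.integral_const_mul]
    · exact dsq_rate_u hν h ⟨hs.1, hs.2.trans ht'I.2⟩ (hst s hs)
  have h1 : Real.exp (41310 * ∫ t in (0 : ℝ)..t', γ t) ≤ L0 * z := by
    refine le_trans (Real.exp_le_exp.2 ?_) hL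
    have := int_mono hγ0 hγi ht'1.1 ht'I.2.le
    linarith
  have h2 : dsq (u t') ≤ dsq (u 0) * (L0 * z) :=
    hfin.trans (mul_le_mul_of_nonneg_left h1 hD0)
  have h3 : M ^ 2 ≤ dsq (u t') := ht'Z.2
  linarith

end Pool.Agent.Q62.GD
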