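import Pool.Agent.TH340.PS.EU

/-!
Pointwise bounds for smooth periodic functions in terms of the `L²` norms of the function and of its
third derivatives.
-/

set_option autoImplicit false

open MeasureTheory Set Filter Topology
open scoped ContDiff

namespace Pool.Agent.Q62.GD

open H459R3.NS H459R3.EU Pool.Agent.TH340.PS

/-- the weight `N(k)^(-7/4)` -/
noncomputable def w7 (k : K3) : ℝ :=
  Real.sqrt (if k = 0 then (0 : ℝ) else (N k : ℝ) ^ (-(7 / 2) : ℝ))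

theorem w7_nonneg (k : K3) : 0 ≤ w7 k := Real.sqrt_nonneg _

theorem w7_sq (k : K3) : w7 k ^ 2 = if k = 0 then (0 : ℝ) else (N k : ℝ) ^ (-(7 / 2) : ℝ) :=
  Real.sq_sqrt (by split_ifs <;> positivity)

theorem w7_of_ne {k : K3} (hk : k ≠ 0) : w7 k = (N k : ℝ) ^ (-(7 / 4) : ℝ) := by
  unfold w7
  rw [if_neg hk, Real.sqrt_eq_rpow, ← Real.rpow_mul (Nat.cast_nonneg _)]
  norm_num

theorem summable_w7_sq : Summable fun k : K3 => w7 k ^ 2 := by
  refine summable_N7.congr fun k => ?_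
  rw [w7_sq]

theorem w7_sum {g : V → ℝ} (hg : SP g) :
    Summable (fun k : K3 => w7 k * ‖fr g k‖) ∧
      ∑' k : K3, w7 k * ‖fr g k‖ ≤ Real.sqrt C7 * nrm g := by
  have sq2 := summable_sq (rap_fr hg).summable
  have s2 : Summable fun k : K3 => w7 k * ‖fr g k‖ := by
    refine Summable.of_nonneg_of_le (fun k => mul_nonneg (w7_nonneg k) (norm_nonneg _)) (fun k => ?_)
      (summable_w7_sq.add sq2)
    nlinarith [sq_nonneg (w7 k - ‖fr g k‖), sq_nonneg (w7 k), sq_nonneg ‖fr g k‖]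
  refine ⟨s2, s2.tsum_le_of_sum_le fun F => ?_⟩
  have b1 := Finset.sum_mul_sq_le_sq_mul_sq F w7 (fun k => ‖fr g k‖)
  have b2 : ∑ k ∈ F, w7 k ^ 2 ≤ C7 := by
    have : ∑' k : K3, w7 k ^ 2 = C7 := tsum_congr fun k => w7_sq k
    rw [← this]
    exact summable_w7_sq.sum_le_tsum F fun _ _ => sq_nonneg _
  have b3 : ∑ k ∈ F, ‖fr g k‖ ^ 2 ≤ nrm g ^ 2 := by
    rw [nrm_sq, ← n2_fr hg, n2_sq]
    exact sq2.sum_le_tsum F fun _ _ => sq_nonneg _
  have b4 : (∑ k ∈ F, w7 k * ‖fr g k‖) ^ 2 ≤ (Real.sqrt C7 * nrm g) ^ 2 := by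
    rw [mul_pow, Real.sq_sqrt C7_nonneg]
    exact b1.trans (mul_le_mul b2 b3 (Finset.sum_nonneg fun _ _ => sq_nonneg _) C7_nonneg)
  exact abs_le_of_sq_le_sq' b4 (mul_nonneg (Real.sqrt_nonneg _) (nrm_nonneg _)) |>.2

theorem fr_d3 {f : V → ℝ} (hf : SP f) (i j k : Fin 3) (m : K3) :
    fr (d3 i j k f) m = (2 * Real.pi * Complex.I * (m i : ℂ)) * ((2 * Real.pi * Complex.I * (m j : ℂ))
      * ((2 * Real.pi * Complex.I * (m k : ℂ)) * fr f m)) := by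
  unfold d3
  rw [fr_pd ((hf.pd k).pd j), D, fr_pd (hf.pd k), D, fr_pd hf, D]

theorem norm_fr_d3 {f : V → ℝ} (hf : SP f) (j : Fin 3) (m : K3) :
    |(m j : ℝ)| ^ 3 * ‖fr f m‖ ≤ ‖fr (d3 j j j f) m‖ := by
  rw [fr_d3 hf]
  have e : ‖(2 * Real.pi * Complex.I * (m j : ℂ))‖ = 2 * Real.pi * |(m j : ℝ)| := by
    rw [norm_mul, norm_mul, norm_mul, Complex.norm_I, mul_one]
    have h1 : ‖((m j : ℤ) : ℂ)‖ = |(m j : ℝ)| := by
      rw [← Complex.ofReal_intCast, Complex.norm_real, Real.norm_eq_abs]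
    rw [h1, Complex.norm_real, Real.norm_eq_abs, abs_of_pos Real.pi_pos]
    norm_num
  have e2 : ∀ c a : ℂ, ‖c * (c * (c * a))‖ = ‖c‖ * (‖c‖ * (‖c‖ * ‖a‖)) := fun c a => by
    rw [norm_mul, norm_mul, norm_mul]
  rw [e2, e]
  have h2 : (1 : ℝ) ≤ 2 * Real.pi := by linarith [Real.pi_gt_three]
  have h3 : (1 : ℝ) ≤ (2 * Real.pi) ^ 3 := one_le_pow₀ h2
  have h4 : 0 ≤ |(m j : ℝ)| ^ 3 * ‖fr f m‖ := by positivity
  calc |(m j : ℝ)| ^ 3 * ‖fr f m‖ ≤ (2 * Real.pi) ^ 3 * (|(m j : ℝ)| ^ 3 * ‖fr f m‖) :=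
        le_mul_of_one_le_left h4 h3
    _ = _ := by ring

/-- sum of the norms of the pure third derivatives -/
noncomputable def t3 (f : V → ℝ) : ℝ := ∑ j, nrm (d3 j j j f)

theorem t3_nonneg (f : V → ℝ) : 0 ≤ t3 f := Finset.sum_nonneg fun _ _ => nrm_nonneg _

theorem N3_le {f : V → ℝ} (hf : SP f) (m : K3) :
    (N m : ℝ) ^ 3 * ‖fr f m‖ ≤ ∑ j, ‖fr (d3 j j j f) m‖ := by
  refine (mul_le_mul_of_nonneg_right (N_pow_le m 3) (norm_nonneg _)).trans ?_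
  rw [Finset.sum_mul]
  exact Finset.sum_le_sum fun j _ => norm_fr_d3 hf j m

theorem N_le_w7 {R : ℝ} (hR : 1 ≤ R) (k : K3) {a b : ℝ} (ha : 0 ≤ a)
    (hb : (N k : ℝ) ^ 3 * a ≤ b) :
    (N k : ℝ) * a ≤ w7 k * (R ^ 3 * a + R ^ (-(1 / 4) : ℝ) * b) := by
  have hb0 : 0 ≤ b := le_trans (by positivity) hb
  by_cases hk : k = 0
  · subst hk
    have : N (0 : K3) = 0 := N_eq_zero.2 rfl
    rw [this]
    simp only [Nat.cast_zero, zero_mul]
    have := w7_nonneg 0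
    positivity
  · have hN : 1 ≤ N k := Nat.one_le_iff_ne_zero.2 fun h => hk (N_eq_zero.1 h)
    have hN1 : (1 : ℝ) ≤ N k := by exact_mod_cast hN
    have hN' : (0 : ℝ) < N k := by linarith
    have hR0 : 0 < R := by linarith
    rw [w7_of_ne hk]
    have hw : 0 < (N k : ℝ) ^ (-(7 / 4) : ℝ) := by positivity
    rcases le_total (N k : ℝ) R with h | h
    · -- low frequencies
      have h1 : (N k : ℝ) ≤ (N k : ℝ) ^ (-(7 / 4) : ℝ) * R ^ 3 := by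
        have e : (N k : ℝ) = (N k : ℝ) ^ (-(7 / 4) : ℝ) * (N k : ℝ) ^ (11 / 4 : ℝ) := by
          rw [← Real.rpow_add hN']
          norm_num
        calc (N k : ℝ) = (N k : ℝ) ^ (-(7 / 4) : ℝ) * (N k : ℝ) ^ (11 / 4 : ℝ) := e
          _ ≤ (N k : ℝ) ^ (-(7 / 4) : ℝ) * R ^ 3 := by
              refine mul_le_mul_of_nonneg_left ?_ hw.le
              calc (N k : ℝ) ^ (11 / 4 : ℝ) ≤ (N k : ℝ) ^ (3 : ℝ) :=
                    Real.rpow_le_rpow_of_exponent_le hN1 (by norm_num)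
                _ ≤ R ^ (3 : ℝ) := Real.rpow_le_rpow hN'.le h (by norm_num)
                _ = R ^ 3 := by rw [← Real.rpow_natCast]; norm_num
      calc (N k : ℝ) * a ≤ ((N k : ℝ) ^ (-(7 / 4) : ℝ) * R ^ 3) * a :=
            mul_le_mul_of_nonneg_right h1 ha
        _ ≤ (N k : ℝ) ^ (-(7 / 4) : ℝ) * (R ^ 3 * a + R ^ (-(1 / 4) : ℝ) * b) := by
            rw [mul_assoc]
            refine mul_le_mul_of_nonneg_left ?_ hw.le
            have : 0 ≤ R ^ (-(1 / 4) : ℝ) * b := by positivity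
            linarith
    · -- high frequencies
      have h1 : (N k : ℝ) ≤ (N k : ℝ) ^ (-(7 / 4) : ℝ) * (R ^ (-(1 / 4) : ℝ) * (N k : ℝ) ^ 3) := by
        have e : (N k : ℝ) = (N k : ℝ) ^ (-(7 / 4) : ℝ) * ((N k : ℝ) ^ (-(1 / 4) : ℝ)
            * (N k : ℝ) ^ (3 : ℝ)) := by
          rw [← Real.rpow_add hN', ← Real.rpow_add hN']
          norm_num
        calc (N k : ℝ) = (N k : ℝ) ^ (-(7 / 4) : ℝ) * ((N k : ℝ) ^ (-(1 / 4) : ℝ)
            * (N k : ℝ) ^ (3 : ℝ)) := e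
          _ ≤ (N k : ℝ) ^ (-(7 / 4) : ℝ) * (R ^ (-(1 / 4) : ℝ) * (N k : ℝ) ^ (3 : ℝ)) := by
              refine mul_le_mul_of_nonneg_left ?_ hw.le
              refine mul_le_mul_of_nonneg_right ?_ (by positivity)
              exact Real.rpow_le_rpow_of_nonpos hR0 h (by norm_num)
          _ = _ := by
              congr 2
              rw [← Real.rpow_natCast]; norm_num
      calc (N k : ℝ) * a ≤ ((N k : ℝ) ^ (-(7 / 4) : ℝ) * (R ^ (-(1 / 4) : ℝ) * (N k : ℝ) ^ 3)) * a :=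
            mul_le_mul_of_nonneg_right h1 ha
        _ = (N k : ℝ) ^ (-(7 / 4) : ℝ) * (R ^ (-(1 / 4) : ℝ) * ((N k : ℝ) ^ 3 * a)) := by ring
        _ ≤ (N k : ℝ) ^ (-(7 / 4) : ℝ) * (R ^ 3 * a + R ^ (-(1 / 4) : ℝ) * b) := by
            refine mul_le_mul_of_nonneg_left ?_ hw.le
            have h2 : R ^ (-(1 / 4) : ℝ) * ((N k : ℝ) ^ 3 * a) ≤ R ^ (-(1 / 4) : ℝ) * b :=
              mul_le_mul_of_nonneg_left hb (by positivity)
            have h3 : 0 ≤ R ^ 3 * a := by positivity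
            linarith

theorem sum_N_le {f : V → ℝ} (hf : SP f) {R : ℝ} (hR : 1 ≤ R) :
    Summable (fun k : K3 => (N k : ℝ) * ‖fr f k‖) ∧ ∑' k : K3, (N k : ℝ) * ‖fr f k‖
      ≤ Real.sqrt C7 * (R ^ 3 * nrm f + R ^ (-(1 / 4) : ℝ) * t3 f) := by
  have hs0 := w7_sum hf
  have hs1 : ∀ j, SP (d3 j j j f) := fun j => sp_d3 hf j j j
  have hs2 := fun j => w7_sum (hs1 j)
  have sA : Summable fun k : K3 => ∑ j, w7 k * ‖fr (d3 j j j f) k‖ :=
    summable_sum fun j _ => (hs2 j).1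
  have hle : ∀ k : K3, (N k : ℝ) * ‖fr f k‖ ≤ R ^ 3 * (w7 k * ‖fr f k‖)
      + R ^ (-(1 / 4) : ℝ) * ∑ j, w7 k * ‖fr (d3 j j j f) k‖ := by
    intro k
    refine (N_le_w7 hR k (norm_nonneg _) (N3_le hf k)).trans (le_of_eq ?_)
    rw [← Finset.mul_sum]
    ring
  have sB : Summable fun k : K3 => R ^ 3 * (w7 k * ‖fr f k‖)
      + R ^ (-(1 / 4) : ℝ) * ∑ j, w7 k * ‖fr (d3 j j j f) k‖ :=
    (hs0.1.mul_left _).add (sA.mul_left _)
  have sC : Summable (fun k : K3 => (N k : ℝ) * ‖fr f k‖) :=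
    Summable.of_nonneg_of_le (fun k => by positivity) hle sB
  refine ⟨sC, (sC.tsum_le_tsum hle sB).trans ?_⟩
  rw [(hs0.1.mul_left _).tsum_add (sA.mul_left _), tsum_mul_left, tsum_mul_left,
    Summable.tsum_finsetSum fun j _ => (hs2 j).1]
  have h1 : ∑ j, ∑' k : K3, w7 k * ‖fr (d3 j j j f) k‖ ≤ Real.sqrt C7 * t3 f := by
    unfold t3
    rw [Finset.mul_sum]
    exact Finset.sum_le_sum fun j _ => (hs2 j).2
  have hR0 : 0 ≤ R ^ 3 := by positivity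
  have hR1 : 0 ≤ R ^ (-(1 / 4) : ℝ) := by positivity
  calc _ ≤ R ^ 3 * (Real.sqrt C7 * nrm f) + R ^ (-(1 / 4) : ℝ) * (Real.sqrt C7 * t3 f) :=
        add_le_add (mul_le_mul_of_nonneg_left hs0.2 hR0) (mul_le_mul_of_nonneg_left h1 hR1)
    _ = _ := by ring

/-- pointwise bound for the first derivatives -/
theorem pd_le {f : V → ℝ} (hf : SP f) (j : Fin 3) (x : V) {R : ℝ} (hR : 1 ≤ R) :
    |pd j f x| ≤ 7 * Real.sqrt C7 * (R ^ 3 * nrm f + R ^ (-(1 / 4) : ℝ) * t3 f) := by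
  obtain ⟨s1, s2⟩ := sum_N_le hf hR
  have hf' := hf.pd j
  have hb : ∀ k : K3, ‖fr (pd j f) k‖ ≤ 7 * ((N k : ℝ) * ‖fr f k‖) := by
    intro k
    rw [fr_pd hf, D, norm_mul]
    have e : ‖(2 * Real.pi * Complex.I * (k j : ℂ))‖ = 2 * Real.pi * |(k j : ℝ)| := by
      rw [norm_mul, norm_mul, norm_mul, Complex.norm_I, mul_one]
      have h1 : ‖((k j : ℤ) : ℂ)‖ = |(k j : ℝ)| := by
        rw [← Complex.ofReal_intCast, Complex.norm_real, Real.norm_eq_abs]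
      rw [h1, Complex.norm_real, Real.norm_eq_abs, abs_of_pos Real.pi_pos]
      norm_num
    rw [e]
    have h := (N_le_iff k (N k)).1 le_rfl j
    have h1 : |(k j : ℝ)| ≤ N k := by exact_mod_cast h
    have h2 : 2 * Real.pi ≤ 7 := by linarith [Real.pi_lt_d2]
    calc 2 * Real.pi * |(k j : ℝ)| * ‖fr f k‖ ≤ 7 * (N k : ℝ) * ‖fr f k‖ := by gcongr
      _ = _ := by ring
  have e1 : |pd j f x| = ‖S (fr (pd j f)) x‖ := by
    rw [S_fr hf', Complex.norm_real, Real.norm_eq_abs]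
  rw [e1]
  refine (norm_S_le (rap_fr hf').summable x).trans ?_
  refine ((rap_fr hf').summable.norm.tsum_le_tsum hb (s1.mul_left _)).trans ?_
  rw [tsum_mul_left]
  calc 7 * ∑' k : K3, (N k : ℝ) * ‖fr f k‖
      ≤ 7 * (Real.sqrt C7 * (R ^ 3 * nrm f + R ^ (-(1 / 4) : ℝ) * t3 f)) := by gcongr
    _ = _ := by ring

/-- pointwise bound for the function -/
theorem val_le {f : V → ℝ} (hf : SP f) (x : V) :
    |f x| ≤ nrm f + Real.sqrt C7 * (nrm f + t3 f) := by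
  obtain ⟨s1, s2⟩ := sum_N_le hf (le_refl (1 : ℝ))
  have e1 : |f x| = ‖S (fr f) x‖ := by
    rw [S_fr hf, Complex.norm_real, Real.norm_eq_abs]
  rw [e1]
  refine (norm_S_le (rap_fr hf).summable x).trans ?_
  have sZ : Summable (fun k : K3 => if k = 0 then ‖fr f 0‖ else 0) :=
    (hasSum_ite_eq (0 : K3) ‖fr f 0‖).summable
  have hb : ∀ k : K3, ‖fr f k‖ ≤ (if k = 0 then ‖fr f 0‖ else 0) + (N k : ℝ) * ‖fr f k‖ := by
    intro k
    by_cases hk : k = 0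
    · subst hk
      rw [if_pos rfl]
      have : 0 ≤ (N (0 : K3) : ℝ) * ‖fr f 0‖ := by positivity
      linarith
    · rw [if_neg hk, zero_add]
      have hN : 1 ≤ N k := Nat.one_le_iff_ne_zero.2 fun h => hk (N_eq_zero.1 h)
      have hN1 : (1 : ℝ) ≤ N k := by exact_mod_cast hN
      exact le_mul_of_one_le_left (norm_nonneg _) hN1
  refine ((rap_fr hf).summable.norm.tsum_le_tsum hb (sZ.add s1)).trans ?_
  rw [sZ.tsum_add s1, tsum_ite_eq]
  have h0 : ‖fr f 0‖ ≤ nrm f := by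
    have h1 : ‖fr f 0‖ ^ 2 ≤ nrm f ^ 2 := by
      rw [nrm_sq, ← n2_fr hf, n2_sq]
      exact (summable_sq (rap_fr hf).summable).le_tsum 0 fun _ _ => sq_nonneg _
    exact abs_le_of_sq_le_sq' h1 (nrm_nonneg _) |>.2
  have h2 : ∑' k : K3, (N k : ℝ) * ‖fr f k‖ ≤ Real.sqrt C7 * (nrm f + t3 f) := by
    refine s2.trans (le_of_eq ?_)
    rw [one_pow, Real.one_rpow, one_mul, one_mul]
  linarith

end Pool.Agent.Q62.GD
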